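import Mathlib

open NumberField NumberField.Units NumberField.Units.dirichletUnitTheorem Module

namespace Pool.Agent.H3.Cheb

section Hat

/-- the hat function -/
noncomputable def hat (t : ℝ) : ℝ := max 0 (1 - |t|)

lemma hat_nonneg (t : ℝ) : 0 ≤ hat t := le_max_left _ _

lemma hat_le_one (t : ℝ) : hat t ≤ 1 := max_le zero_le_one (by linarith [abs_nonneg t])

lemma hat_lip (a b : ℝ) : |hat a - hat b| ≤ |a - b| := by
  unfold hat
  rw [max_comm 0, max_comm 0]
  refine (abs_max_sub_max_le_abs (1 - |a|) (1 - |b|) 0).trans ?_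
  have h : (1 - |a|) - (1 - |b|) = |b| - |a| := by ring
  rw [h]
  refine (abs_abs_sub_abs_le b a).trans ?_
  rw [abs_sub_comm]

lemma hat_eq_zero {t : ℝ} (h : 1 ≤ |t|) : hat t = 0 := max_eq_left (by linarith)

lemma abs_lt_one_of_hat {t : ℝ} (h : hat t ≠ 0) : |t| < 1 := by
  by_contra hcon
  exact h (hat_eq_zero (not_lt.mp hcon))

lemma hasSum_hat (t : ℝ) : HasSum (fun n : ℤ => hat (n + t)) 1 := by
  have h1 : ∀ n : ℤ, n ∉ ({-⌊t⌋, -⌊t⌋ - 1} : Finset ℤ) → hat (n + t) = 0 := by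
    intro n hn
    simp only [Finset.mem_insert, Finset.mem_singleton, not_or] at hn
    apply hat_eq_zero
    have hf1 := Int.floor_le t
    have hf2 := Int.lt_floor_add_one t
    rcases lt_or_gt_of_ne hn.1 with h | h
    · have h2 : n ≤ -⌊t⌋ - 2 := by omega
      have h3 : (n : ℝ) ≤ -⌊t⌋ - 2 := by exact_mod_cast h2
      rw [abs_of_neg (by linarith)]
      linarith
    · have h2 : -⌊t⌋ + 1 ≤ n := by omega
      have h3 : (-⌊t⌋ : ℝ) + 1 ≤ n := by exact_mod_cast h2
      rw [abs_of_pos (by linarith)]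
      linarith
  have h2 : HasSum (fun n : ℤ => hat (n + t)) (∑ n ∈ ({-⌊t⌋, -⌊t⌋ - 1} : Finset ℤ), hat (n + t)) :=
    hasSum_sum_of_ne_finset_zero h1
  have h3 : ∑ n ∈ ({-⌊t⌋, -⌊t⌋ - 1} : Finset ℤ), hat (n + t) = 1 := by
    rw [Finset.sum_pair (by omega)]
    have hf1 := Int.floor_le t
    have hf2 := Int.lt_floor_add_one t
    push_cast
    unfold hat
    rw [abs_of_nonneg (by linarith : (0 : ℝ) ≤ -(⌊t⌋ : ℝ) + t),
      abs_of_nonpos (by linarith : -(⌊t⌋ : ℝ) - 1 + t ≤ 0), max_eq_right (by linarith),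
      max_eq_right (by linarith)]
    ring
  rwa [h3] at h2

lemma hasSum_prod_hat {r : ℕ} (t : Fin r → ℝ) :
    HasSum (fun e : Fin r → ℤ => ∏ i, hat (e i + t i)) 1 := by
  classical
  have hfin : ∀ i, ∃ S : Finset ℤ, (∀ n ∉ S, hat (n + t i) = 0) ∧ ∑ n ∈ S, hat (n + t i) = 1 := by
    intro i
    have h := hasSum_hat (t i)
    have hf : (Function.support (fun n : ℤ => hat (n + t i))).Finite := by
      refine (Set.finite_Icc (⌊-t i⌋ - 1) (⌊-t i⌋ + 2)).subset fun n hn => ?_
      have h1 := abs_lt_one_of_hat hn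
      rw [abs_lt] at h1
      have hf1 := Int.floor_le (-t i)
      have hf2 := Int.lt_floor_add_one (-t i)
      constructor
      · have : (⌊-t i⌋ : ℝ) - 1 < n := by linarith
        have : ⌊-t i⌋ - 1 < n := by exact_mod_cast this
        omega
      · have : (n : ℝ) < ⌊-t i⌋ + 2 := by linarith
        have : n < ⌊-t i⌋ + 2 := by exact_mod_cast this
        omega
    refine ⟨hf.toFinset, fun n hn => ?_, ?_⟩
    · simpa using hn
    · have h2 : HasSum (fun n : ℤ => hat (n + t i)) (∑ n ∈ hf.toFinset, hat (n + t i)) :=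
        hasSum_sum_of_ne_finset_zero (fun n hn => by simpa using hn)
      exact h2.unique h
  choose S hS hS1 using hfin
  have h1 : ∀ e : Fin r → ℤ, e ∉ Fintype.piFinset S → ∏ i, hat (e i + t i) = 0 := by
    intro e he
    rw [Fintype.mem_piFinset] at he
    push Not at he
    obtain ⟨i, hi⟩ := he
    exact Finset.prod_eq_zero (Finset.mem_univ i) (hS i _ hi)
  have h2 : HasSum (fun e : Fin r → ℤ => ∏ i, hat (e i + t i))
      (∑ e ∈ Fintype.piFinset S, ∏ i, hat (e i + t i)) := hasSum_sum_of_ne_finset_zero h1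
  have h3 : ∑ e ∈ Fintype.piFinset S, ∏ i, hat (e i + t i) = 1 := by
    rw [← Finset.prod_univ_sum S (fun i n => hat ((n : ℝ) + t i))]
    exact Finset.prod_eq_one fun i _ => hS1 i
  rwa [h3] at h2

lemma prod_hat_lip {r : ℕ} (t t' : Fin r → ℝ) :
    |∏ i, hat (t i) - ∏ i, hat (t' i)| ≤ ∑ i, |t i - t' i| := by
  classical
  have key : ∀ s : Finset (Fin r), |∏ i ∈ s, hat (t i) - ∏ i ∈ s, hat (t' i)| ≤
      ∑ i ∈ s, |t i - t' i| := by
    intro s
    induction s using Finset.induction_on with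
    | empty => simp
    | insert a s ha ih =>
      rw [Finset.prod_insert ha, Finset.prod_insert ha, Finset.sum_insert ha]
      have hp : ∀ u : Fin r → ℝ, 0 ≤ ∏ i ∈ s, hat (u i) ∧ ∏ i ∈ s, hat (u i) ≤ 1 := fun u =>
        ⟨Finset.prod_nonneg fun i _ => hat_nonneg _,
          Finset.prod_le_one (fun i _ => hat_nonneg _) fun i _ => hat_le_one _⟩
      have h1 : hat (t a) * ∏ i ∈ s, hat (t i) - hat (t' a) * ∏ i ∈ s, hat (t' i) =
          (hat (t a) - hat (t' a)) * ∏ i ∈ s, hat (t i) +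
            hat (t' a) * (∏ i ∈ s, hat (t i) - ∏ i ∈ s, hat (t' i)) := by ring
      rw [h1]
      refine (abs_add_le _ _).trans (add_le_add ?_ ?_)
      · rw [abs_mul, abs_of_nonneg (hp t).1]
        calc |hat (t a) - hat (t' a)| * ∏ i ∈ s, hat (t i) ≤ |hat (t a) - hat (t' a)| * 1 :=
              mul_le_mul_of_nonneg_left (hp t).2 (abs_nonneg _)
          _ ≤ |t a - t' a| := by rw [mul_one]; exact hat_lip _ _
      · rw [abs_mul, abs_of_nonneg (hat_nonneg _)]
        calc hat (t' a) * |∏ i ∈ s, hat (t i) - ∏ i ∈ s, hat (t' i)| ≤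
              1 * |∏ i ∈ s, hat (t i) - ∏ i ∈ s, hat (t' i)| :=
              mul_le_mul_of_nonneg_right (hat_le_one _) (abs_nonneg _)
          _ ≤ _ := by rw [one_mul]; exact ih
  exact key Finset.univ

end Hat

end Pool.Agent.H3.Cheb
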