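import Mathlib
import Pool.Agent.H3.Cheb.Hat

open NumberField NumberField.Units NumberField.Units.dirichletUnitTheorem Module

namespace Pool.Agent.H3.Cheb

section Partition

variable (K : Type*) [Field K] [NumberField K]

open scoped Classical in
/-- basis of the logarithmic space given by fundamental units -/
noncomputable def BB : Basis (Fin (rank K)) ℝ (logSpace K) :=
  (basisUnitLattice K).ofZLatticeBasis ℝ (unitLattice K)

variable {K}

/-- the logarithmic map -/
noncomputable def lm (x : K) : logSpace K := fun w =>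
  (w.1.mult : ℝ) * (Real.log (w.1 x) - Real.log |((Algebra.norm ℚ x : ℚ) : ℝ)| * (finrank ℚ K : ℝ)⁻¹)

lemma lm_unit_mul (u : (𝓞 K)ˣ) {x : K} (hx : x ≠ 0) :
    lm ((u : K) * x) = logEmbedding K (Additive.ofMul u) + lm x := by
  ext w
  have hu : (u : K) ≠ 0 := by
    simp
  rw [Pi.add_apply, logEmbedding_component]
  unfold lm
  have h1 : |((Algebra.norm ℚ ((u : K) * x) : ℚ) : ℝ)| = |((Algebra.norm ℚ x : ℚ) : ℝ)| := by
    rw [map_mul, Rat.cast_mul, abs_mul]
    have h2 : |((Algebra.norm ℚ (u : K) : ℚ) : ℝ)| = 1 := by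
      have h4 : |Algebra.norm ℚ (u : K)| = 1 := NumberField.Units.norm K u
      rw [← Rat.cast_abs, h4, Rat.cast_one]
    rw [h2, one_mul]
  rw [h1, map_mul, Real.log_mul ((map_ne_zero _).mpr hu) ((map_ne_zero _).mpr hx)]
  ring

/-- coordinates with respect to fundamental units -/
noncomputable def tt (x : K) (i : Fin (rank K)) : ℝ := (BB K).repr (lm x) i

/-- partition function -/
noncomputable def pphi (x : K) : ℝ := ∏ i, hat (tt x i)

lemma pphi_nonneg (x : K) : 0 ≤ pphi x := Finset.prod_nonneg fun _ _ => hat_nonneg _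

lemma pphi_le_one (x : K) : pphi x ≤ 1 :=
  Finset.prod_le_one (fun _ _ => hat_nonneg _) fun _ _ => hat_le_one _

/-- units in terms of torsion and exponents -/
noncomputable def unitsEquiv (K : Type*) [Field K] [NumberField K] :
    torsion K × (Fin (rank K) → ℤ) ≃ (𝓞 K)ˣ :=
  Equiv.ofBijective (fun ζe => (ζe.1 : (𝓞 K)ˣ) * ∏ i, (fundSystem K i) ^ (ζe.2 i)) (by
    constructor
    · intro a b hab
      obtain ⟨c, hc, hc'⟩ := exist_unique_eq_mul_prod K
        ((a.1 : (𝓞 K)ˣ) * ∏ i, (fundSystem K i) ^ (a.2 i))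
      rw [hc' a rfl, hc' b hab]
    · intro u
      obtain ⟨c, hc, _⟩ := exist_unique_eq_mul_prod K u
      exact ⟨c, hc.symm⟩)

lemma tt_unit_mul (ζe : torsion K × (Fin (rank K) → ℤ)) {x : K} (hx : x ≠ 0) (i : Fin (rank K)) :
    tt (((unitsEquiv K ζe : (𝓞 K)ˣ) : K) * x) i = ζe.2 i + tt x i := by
  unfold tt
  rw [lm_unit_mul _ hx, map_add, Finsupp.add_apply]
  congr 1
  have h1 : logEmbedding K (Additive.ofMul (unitsEquiv K ζe)) = ∑ j, ζe.2 j • (BB K j) := by
    change logEmbedding K (Additive.ofMul ((ζe.1 : (𝓞 K)ˣ) * ∏ i, (fundSystem K i) ^ (ζe.2 i))) = _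
    rw [ofMul_mul, map_add, logEmbedding_eq_zero_iff.mpr ζe.1.2, zero_add, ofMul_prod, map_sum]
    refine Finset.sum_congr rfl fun j _ => ?_
    rw [ofMul_zpow, map_zsmul, logEmbedding_fundSystem]
    unfold BB
    rw [Basis.ofZLatticeBasis_apply]
  rw [h1, map_sum, Finsupp.finsetSum_apply, Finset.sum_eq_single i]
  · rw [map_zsmul, Finsupp.smul_apply, Basis.repr_self, Finsupp.single_eq_same]
    simp
  · intro j _ hj
    rw [map_zsmul, Finsupp.smul_apply, Basis.repr_self, Finsupp.single_eq_of_ne hj.symm, smul_zero]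
  · intro h
    exact absurd (Finset.mem_univ i) h

/-- The partition of unity property. -/
lemma hasSum_units {x : K} (hx : x ≠ 0) :
    HasSum (fun u : (𝓞 K)ˣ => pphi ((u : K) * x)) (Nat.card (torsion K)) := by
  classical
  letI : Fintype (torsion K) := Fintype.ofFinite _
  rw [← (unitsEquiv K).hasSum_iff]
  have h1 : (fun u : (𝓞 K)ˣ => pphi ((u : K) * x)) ∘ (unitsEquiv K) =
      fun ζe : torsion K × (Fin (rank K) → ℤ) => ∏ i, hat (ζe.2 i + tt x i) := by
    funext ζe
    change ∏ i, hat (tt (((unitsEquiv K ζe : (𝓞 K)ˣ) : K) * x) i) = _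
    exact Finset.prod_congr rfl fun i _ => by rw [tt_unit_mul ζe hx i]
  rw [h1]
  have h2 := hasSum_prod_hat (tt x)
  have hsum : Summable (fun ζe : torsion K × (Fin (rank K) → ℤ) => ∏ i, hat (ζe.2 i + tt x i)) := by
    have h3 : Summable (fun _ : torsion K => (1 : ℝ)) := Summable.of_finite
    have h4 := h3.mul_of_nonneg h2.summable (fun _ => zero_le_one)
      (fun e => Finset.prod_nonneg fun i _ => hat_nonneg _)
    simpa using h4
  have h5 := hsum.hasSum
  have h6 : ∑' ζe : torsion K × (Fin (rank K) → ℤ), ∏ i, hat (ζe.2 i + tt x i) =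
      (Nat.card (torsion K) : ℝ) := by
    rw [hsum.tsum_prod]
    rw [tsum_congr (fun ζ => h2.tsum_eq), tsum_fintype, Finset.sum_const, Finset.card_univ,
      Nat.card_eq_fintype_card]
    simp
  rwa [h6] at h5

end Partition

end Pool.Agent.H3.Cheb
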