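import Mathlib
import Pool.Agent.H3.Cheb.Partition

open NumberField NumberField.Units NumberField.Units.dirichletUnitTheorem Module

namespace Pool.Agent.H3.Cheb

section Estimates

variable {K : Type*} [Field K] [NumberField K]

/-- logarithm of the absolute norm -/
noncomputable def lN (x : K) : ℝ := Real.log |((Algebra.norm ℚ x : ℚ) : ℝ)|

/-- deviation of the logarithmic size at a place from the mean -/
noncomputable def dd (x : K) (w : InfinitePlace K) : ℝ :=
  Real.log (w x) - lN x * (finrank ℚ K : ℝ)⁻¹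

lemma lm_eq (x : K) (w : {w : InfinitePlace K // w ≠ w₀}) :
    lm x w = (w.1.mult : ℝ) * dd x w.1 := rfl

lemma lN_eq {x : K} (hx : x ≠ 0) : lN x = ∑ w : InfinitePlace K, (w.mult : ℝ) * Real.log (w x) := by
  unfold lN
  have h := InfinitePlace.prod_eq_abs_norm x
  have h1 : (|Algebra.norm ℚ x| : ℚ) = ((|Algebra.norm ℚ x| : ℚ) : ℝ) := rfl
  rw [← Rat.cast_abs, ← h, Real.log_prod]
  · refine Finset.sum_congr rfl fun w _ => ?_
    rw [Real.log_pow]
  · intro w _
    exact pow_ne_zero _ ((map_ne_zero w).mpr hx)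

lemma sum_mult_cast : ∑ w : InfinitePlace K, (w.mult : ℝ) = finrank ℚ K := by
  have := InfinitePlace.sum_mult_eq (K := K)
  exact_mod_cast this

lemma finrank_pos' : (0 : ℝ) < finrank ℚ K := by exact_mod_cast finrank_pos

lemma sum_mult_dd {x : K} (hx : x ≠ 0) : ∑ w : InfinitePlace K, (w.mult : ℝ) * dd x w = 0 := by
  unfold dd
  simp_rw [mul_sub]
  rw [Finset.sum_sub_distrib, ← lN_eq hx, ← Finset.sum_mul, sum_mult_cast]
  have := finrank_pos' (K := K)
  field_simp
  ring

/-- On the support of the partition function all places have comparable size. -/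
lemma exists_bound_dd (K : Type*) [Field K] [NumberField K] :
    ∃ A : ℝ, 0 < A ∧ ∀ x : K, x ≠ 0 → pphi x ≠ 0 → ∀ w : InfinitePlace K, |dd x w| ≤ A := by
  classical
  set A₀ : ℝ := ∑ i : Fin (rank K), ∑ w : {w : InfinitePlace K // w ≠ w₀}, |BB K i w| with hA₀
  have hA₀0 : 0 ≤ A₀ := Finset.sum_nonneg fun i _ => Finset.sum_nonneg fun w _ => abs_nonneg _
  refine ⟨(Fintype.card {w : InfinitePlace K // w ≠ w₀} + 1) * A₀ + 1, by positivity, ?_⟩
  intro x hx hp
  have ht : ∀ i, |tt x i| < 1 := by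
    intro i
    apply abs_lt_one_of_hat
    intro h
    exact hp (Finset.prod_eq_zero (Finset.mem_univ i) h)
  have hlm : ∀ w : {w : InfinitePlace K // w ≠ w₀}, |lm x w| ≤ A₀ := by
    intro w
    have h1 : lm x = ∑ i, tt x i • BB K i := ((BB K).sum_repr (lm x)).symm
    rw [h1, Finset.sum_apply]
    refine (Finset.abs_sum_le_sum_abs _ _).trans ?_
    rw [hA₀]
    refine Finset.sum_le_sum fun i _ => ?_
    rw [Pi.smul_apply, smul_eq_mul, abs_mul]
    calc |tt x i| * |BB K i w| ≤ 1 * |BB K i w| :=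
          mul_le_mul_of_nonneg_right (ht i).le (abs_nonneg _)
      _ = |BB K i w| := one_mul _
      _ ≤ ∑ w : {w : InfinitePlace K // w ≠ w₀}, |BB K i w| :=
          Finset.single_le_sum (f := fun w => |BB K i w|) (fun w _ => abs_nonneg _)
            (Finset.mem_univ w)
  have hne : ∀ w : InfinitePlace K, w ≠ w₀ → |(w.mult : ℝ) * dd x w| ≤ A₀ := by
    intro w hw
    have := hlm ⟨w, hw⟩
    rwa [lm_eq] at this
  have habs : ∀ w : InfinitePlace K, |dd x w| ≤ |(w.mult : ℝ) * dd x w| := by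
    intro w
    rw [abs_mul]
    have h1 : (1 : ℝ) ≤ |(w.mult : ℝ)| := by
      rw [abs_of_nonneg (Nat.cast_nonneg _)]
      exact InfinitePlace.one_le_mult
    have h2 := abs_nonneg (dd x w)
    nlinarith
  intro w
  by_cases hw : w = w₀
  · rw [hw]
    refine (habs w₀).trans ?_
    have h1 := sum_mult_dd hx
    rw [← Finset.add_sum_erase _ _ (Finset.mem_univ (w₀ : InfinitePlace K))] at h1
    have h2 : ((w₀ : InfinitePlace K).mult : ℝ) * dd x w₀ =
        -∑ w ∈ Finset.univ.erase (w₀ : InfinitePlace K), (w.mult : ℝ) * dd x w := by linarith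
    rw [h2, abs_neg]
    refine (Finset.abs_sum_le_sum_abs _ _).trans ?_
    have h3 : ∑ w ∈ Finset.univ.erase (w₀ : InfinitePlace K), |(w.mult : ℝ) * dd x w| ≤
        ∑ w ∈ Finset.univ.erase (w₀ : InfinitePlace K), A₀ :=
      Finset.sum_le_sum fun w hw => hne w (Finset.ne_of_mem_erase hw)
    refine h3.trans ?_
    rw [Finset.sum_const, nsmul_eq_mul]
    have h4 : (Finset.univ.erase (w₀ : InfinitePlace K)).card =
        Fintype.card {w : InfinitePlace K // w ≠ w₀} := by
      rw [Fintype.card_subtype]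
      congr 1
      ext w
      simp
    rw [h4]
    nlinarith
  · refine (habs w).trans ((hne w hw).trans ?_)
    have : (0 : ℝ) ≤ Fintype.card {w : InfinitePlace K // w ≠ w₀} := Nat.cast_nonneg _
    nlinarith

/-- Lipschitz bound for the coordinates. -/
lemma exists_tt_lip (K : Type*) [Field K] [NumberField K] :
    ∃ C : ℝ, 0 ≤ C ∧ ∀ (x y : K) (η : ℝ),
      (∀ w : {w : InfinitePlace K // w ≠ w₀}, |lm x w - lm y w| ≤ η) →
      ∑ i, |tt x i - tt y i| ≤ C * η := by
  classical
  refine ⟨∑ i : Fin (rank K), ∑ w : {w : InfinitePlace K // w ≠ w₀},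
    |(BB K).repr (Pi.single w 1) i|, Finset.sum_nonneg fun i _ => Finset.sum_nonneg fun w _ =>
      abs_nonneg _, ?_⟩
  intro x y η h
  rw [Finset.sum_mul]
  refine Finset.sum_le_sum fun i _ => ?_
  have h1 : tt x i - tt y i = (BB K).repr (lm x - lm y) i := by
    unfold tt
    rw [map_sub, Finsupp.sub_apply]
  have h2 : lm x - lm y = ∑ w, (lm x w - lm y w) • (Pi.single w (1 : ℝ) : logSpace K) := by
    ext w
    rw [Finset.sum_apply, Finset.sum_eq_single w]
    · simp
    · intro b _ hb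
      simp [Pi.single_eq_of_ne hb.symm]
    · intro hw; exact absurd (Finset.mem_univ w) hw
  rw [h1, h2, map_sum, Finsupp.finsetSum_apply, Finset.sum_mul]
  refine (Finset.abs_sum_le_sum_abs _ _).trans (Finset.sum_le_sum fun w _ => ?_)
  rw [map_smul, Finsupp.smul_apply, smul_eq_mul, abs_mul, mul_comm]
  exact mul_le_mul_of_nonneg_left (h w) (abs_nonneg _)

lemma log_ratio {a b δ : ℝ} (ha : 0 < a) (hδ : δ ≤ 1 / 2) (h : |b - a| ≤ δ * a) :
    0 < b ∧ |Real.log b - Real.log a| ≤ 2 * δ := by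
  rw [abs_le] at h
  have hb : a / 2 ≤ b := by nlinarith
  have hb0 : 0 < b := by linarith
  have hδ0 : 0 ≤ δ := by nlinarith
  refine ⟨hb0, ?_⟩
  rw [abs_le]
  constructor
  · have h1 : Real.log (a / b) ≤ a / b - 1 := Real.log_le_sub_one_of_pos (by positivity)
    rw [Real.log_div ha.ne' hb0.ne'] at h1
    have h2 : a / b - 1 ≤ 2 * δ := by
      rw [div_sub_one hb0.ne', div_le_iff₀ hb0]
      nlinarith
    linarith
  · have h1 : Real.log (b / a) ≤ b / a - 1 := Real.log_le_sub_one_of_pos (by positivity)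
    rw [Real.log_div hb0.ne' ha.ne'] at h1
    have h2 : b / a - 1 ≤ δ := by
      rw [div_sub_one ha.ne', div_le_iff₀ ha]
      linarith
    linarith

lemma abs_exp_sub_one' (z : ℝ) : |Real.exp z - 1| ≤ |z| * Real.exp |z| := by
  rcases le_total 0 z with hz | hz
  · rw [abs_of_nonneg hz, abs_of_nonneg (by linarith [Real.add_one_le_exp z])]
    have h1 := Real.add_one_le_exp (-z)
    have h2 : Real.exp z * Real.exp (-z) = 1 := by rw [← Real.exp_add]; simp
    have h3 := Real.exp_pos z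
    nlinarith
  · rw [abs_of_nonpos hz]
    have h0 : Real.exp z ≤ 1 := Real.exp_le_one_iff.mpr hz
    rw [abs_of_nonpos (by linarith)]
    have h1 := Real.add_one_le_exp z
    have h2 : 1 ≤ Real.exp (-z) := Real.one_le_exp (by linarith)
    nlinarith

/-- The function `pphi x * |N x|^{-s}` varies slowly. -/
lemma exists_slow (K : Type*) [Field K] [NumberField K] :
    ∃ C : ℝ, 0 ≤ C ∧ ∀ (x y : K), x ≠ 0 → y ≠ 0 → ∀ δ : ℝ, δ ≤ 1 / 2 →
      (∀ w : InfinitePlace K, |w y - w x| ≤ δ * w x) → ∀ s : ℝ, 1 ≤ s → s ≤ 2 →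
      |pphi x * Real.exp (-s * lN x) - pphi y * Real.exp (-s * lN y)| ≤
        C * δ * Real.exp (-s * lN x) := by
  classical
  obtain ⟨C₁, hC₁0, hC₁⟩ := exists_tt_lip K
  set n : ℝ := (finrank ℚ K : ℝ) with hn
  have hn0 : 0 < n := finrank_pos'
  refine ⟨C₁ * 8 + 4 * n * Real.exp (2 * n), by positivity, ?_⟩
  intro x y hx hy δ hδ hw s hs1 hs2
  have hlog : ∀ w : InfinitePlace K, |Real.log (w y) - Real.log (w x)| ≤ 2 * δ := fun w =>
    (log_ratio (InfinitePlace.pos_iff.mpr hx) hδ (hw w)).2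
  have hδ0 : 0 ≤ δ := by
    have w := Classical.arbitrary (InfinitePlace K)
    have := (abs_nonneg _).trans (hlog w)
    linarith
  have hlN : |lN y - lN x| ≤ 2 * n * δ := by
    rw [lN_eq hx, lN_eq hy, ← Finset.sum_sub_distrib]
    refine (Finset.abs_sum_le_sum_abs _ _).trans ?_
    have h1 : ∀ w ∈ (Finset.univ : Finset (InfinitePlace K)),
        |(w.mult : ℝ) * Real.log (w y) - w.mult * Real.log (w x)| ≤ (w.mult : ℝ) * (2 * δ) := by
      intro w _
      rw [← mul_sub, abs_mul, abs_of_nonneg (Nat.cast_nonneg _)]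
      exact mul_le_mul_of_nonneg_left (hlog w) (Nat.cast_nonneg _)
    refine (Finset.sum_le_sum h1).trans ?_
    rw [← Finset.sum_mul, sum_mult_cast]
    apply le_of_eq
    rw [hn]
    ring
  have hdd : ∀ w : InfinitePlace K, |dd x w - dd y w| ≤ 4 * δ := by
    intro w
    unfold dd
    have e : Real.log (w x) - lN x * (finrank ℚ K : ℝ)⁻¹ -
        (Real.log (w y) - lN y * (finrank ℚ K : ℝ)⁻¹) =
        -(Real.log (w y) - Real.log (w x)) + (lN y - lN x) * (finrank ℚ K : ℝ)⁻¹ := by ring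
    rw [e]
    refine (abs_add_le _ _).trans ?_
    rw [abs_neg, abs_mul, abs_of_nonneg (inv_nonneg.mpr hn0.le)]
    have h2 : |lN y - lN x| * (finrank ℚ K : ℝ)⁻¹ ≤ 2 * δ := by
      rw [← div_eq_mul_inv, div_le_iff₀ hn0]
      linarith
    linarith [hlog w]
  have hlm : ∀ w : {w : InfinitePlace K // w ≠ w₀}, |lm x w - lm y w| ≤ 8 * δ := by
    intro w
    rw [lm_eq, lm_eq, ← mul_sub, abs_mul, abs_of_nonneg (Nat.cast_nonneg _)]
    have h2 : (w.1.mult : ℝ) ≤ 2 := by
      unfold InfinitePlace.mult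
      split_ifs <;> norm_num
    have h3 := hdd w.1
    have h4 := abs_nonneg (dd x w.1 - dd y w.1)
    nlinarith
  have hphi : |pphi x - pphi y| ≤ C₁ * (8 * δ) :=
    (prod_hat_lip _ _).trans (hC₁ x y _ hlm)
  have hexp : |Real.exp (-s * lN x) - Real.exp (-s * lN y)| ≤
      4 * n * Real.exp (2 * n) * δ * Real.exp (-s * lN x) := by
    have e : Real.exp (-s * lN y) = Real.exp (-s * lN x) * Real.exp (-s * (lN y - lN x)) := by
      rw [← Real.exp_add]; ring_nf
    rw [e]
    have e2 : Real.exp (-s * lN x) - Real.exp (-s * lN x) * Real.exp (-s * (lN y - lN x)) =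
        -(Real.exp (-s * lN x) * (Real.exp (-s * (lN y - lN x)) - 1)) := by ring
    rw [e2, abs_neg, abs_mul, abs_of_pos (Real.exp_pos _), mul_comm]
    refine mul_le_mul_of_nonneg_right ?_ (Real.exp_pos _).le
    refine (abs_exp_sub_one' _).trans ?_
    have hz : |(-s) * (lN y - lN x)| ≤ 4 * n * δ := by
      rw [abs_mul, abs_neg, abs_of_nonneg (by linarith)]
      nlinarith [abs_nonneg (lN y - lN x)]
    have hz2 : |(-s) * (lN y - lN x)| ≤ 2 * n := by
      refine hz.trans ?_
      nlinarith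
    calc |(-s) * (lN y - lN x)| * Real.exp |(-s) * (lN y - lN x)| ≤
          (4 * n * δ) * Real.exp (2 * n) :=
          mul_le_mul hz (Real.exp_le_exp.mpr hz2) (Real.exp_pos _).le (by positivity)
      _ = 4 * n * Real.exp (2 * n) * δ := by ring
  have e3 : pphi x * Real.exp (-s * lN x) - pphi y * Real.exp (-s * lN y) =
      (pphi x - pphi y) * Real.exp (-s * lN x) +
        pphi y * (Real.exp (-s * lN x) - Real.exp (-s * lN y)) := by ring
  rw [e3]
  refine (abs_add_le _ _).trans ?_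
  have h5 : |(pphi x - pphi y) * Real.exp (-s * lN x)| ≤ C₁ * (8 * δ) * Real.exp (-s * lN x) := by
    rw [abs_mul, abs_of_pos (Real.exp_pos _)]
    exact mul_le_mul_of_nonneg_right hphi (Real.exp_pos _).le
  have h6 : |pphi y * (Real.exp (-s * lN x) - Real.exp (-s * lN y))| ≤
      4 * n * Real.exp (2 * n) * δ * Real.exp (-s * lN x) := by
    rw [abs_mul, abs_of_nonneg (pphi_nonneg y)]
    calc pphi y * |Real.exp (-s * lN x) - Real.exp (-s * lN y)| ≤
          1 * |Real.exp (-s * lN x) - Real.exp (-s * lN y)| :=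
          mul_le_mul_of_nonneg_right (pphi_le_one y) (abs_nonneg _)
      _ ≤ _ := by rw [one_mul]; exact hexp
  refine (add_le_add h5 h6).trans (le_of_eq ?_)
  ring

end Estimates

end Pool.Agent.H3.Cheb
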