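import Mathlib
import Pool.Agent.H3.Cheb.Estimates

open NumberField NumberField.Units NumberField.Units.dirichletUnitTheorem Module

namespace Pool.Agent.H3.Cheb

section Tail

variable {K : Type*} [Field K] [NumberField K]

lemma coe_ne {x : 𝓞 K} (hx : x ≠ 0) : (x : K) ≠ 0 := fun h0 =>
  hx (RingOfIntegers.coe_injective (h0.trans (map_zero _).symm))

open scoped Classical in
/-- size of an algebraic integer -/
noncomputable def hh (x : 𝓞 K) : ℝ := ‖mixedEmbedding K (x : K)‖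

lemma coe_add' (x y : 𝓞 K) : ((x + y : 𝓞 K) : K) = (x : K) + (y : K) := rfl

lemma coe_sub' (x y : 𝓞 K) : ((x - y : 𝓞 K) : K) = (x : K) - (y : K) := rfl

lemma coe_neg' (x : 𝓞 K) : ((-x : 𝓞 K) : K) = -(x : K) := rfl

lemma place_tri (w : InfinitePlace K) (a b : K) : w (a + b) ≤ w a + w b := w.1.add_le a b

lemma place_neg (w : InfinitePlace K) (a : K) : w (-a) = w a := w.1.map_neg a

lemma place_sub_comm (w : InfinitePlace K) (a b : K) : w (a - b) = w (b - a) := by
  rw [← neg_sub, place_neg]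

lemma hh_nonneg (x : 𝓞 K) : 0 ≤ hh x := by
  classical
  exact norm_nonneg (mixedEmbedding K (x : K))

lemma place_le_hh (w : InfinitePlace K) (x : 𝓞 K) : w (x : K) ≤ hh x := by
  classical
  unfold hh
  rw [mixedEmbedding.norm_eq_sup'_normAtPlace, ← mixedEmbedding.normAtPlace_apply]
  exact Finset.le_sup' (fun w => mixedEmbedding.normAtPlace w (mixedEmbedding K (x : K)))
    (Finset.mem_univ w)

lemma exists_place_eq (x : 𝓞 K) : ∃ w : InfinitePlace K, hh x = w (x : K) := by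
  classical
  unfold hh
  rw [mixedEmbedding.norm_eq_sup'_normAtPlace]
  obtain ⟨w, _, hw⟩ := Finset.exists_mem_eq_sup' (Finset.univ_nonempty (α := InfinitePlace K))
    (fun w => mixedEmbedding.normAtPlace w (mixedEmbedding K (x : K)))
  exact ⟨w, by rw [hw, mixedEmbedding.normAtPlace_apply]⟩

lemma hh_add_le (x y : 𝓞 K) : hh (x + y) ≤ hh x + hh y := by
  classical
  have h := norm_add_le (mixedEmbedding K (x : K)) (mixedEmbedding K (y : K))
  rw [← map_add, ← coe_add'] at h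
  exact h

lemma hh_neg (x : 𝓞 K) : hh (-x) = hh x := by
  classical
  have h := norm_neg (mixedEmbedding K (x : K))
  rw [← map_neg, ← coe_neg'] at h
  exact h

lemma hh_sub_comm (x y : 𝓞 K) : hh (x - y) = hh (y - x) := by
  rw [← hh_neg, neg_sub]

lemma hh_finite (R : ℝ) : {x : 𝓞 K | hh x ≤ R}.Finite := by
  have h1 := Embeddings.finite_of_norm_le K ℂ R
  have h2 : (fun x : 𝓞 K => (x : K)) '' {x : 𝓞 K | hh x ≤ R} ⊆
      {x : K | IsIntegral ℤ x ∧ ∀ φ : K →+* ℂ, ‖φ x‖ ≤ R} := by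
    rintro _ ⟨x, hx, rfl⟩
    refine ⟨RingOfIntegers.isIntegral_coe x, fun φ => ?_⟩
    have h3 : ‖φ (x : K)‖ = (InfinitePlace.mk φ) (x : K) := rfl
    rw [h3]
    exact (place_le_hh _ x).trans hx
  exact (h1.subset h2).of_finite_image RingOfIntegers.coe_injective.injOn

lemma summable_hh {r : ℝ} (hr : r < -(finrank ℚ K : ℝ)) : Summable (fun x : 𝓞 K => hh x ^ r) := by
  classical
  let f : 𝓞 K → (mixedEmbedding.integerLattice K) := fun x => ⟨mixedEmbedding K (x : K), x, rfl⟩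
  have hf : Function.Injective f := by
    intro x y hxy
    have h1 : mixedEmbedding K (x : K) = mixedEmbedding K (y : K) := congrArg Subtype.val hxy
    exact RingOfIntegers.coe_injective ((mixedEmbedding_injective K) h1)
  have hrank : Module.finrank ℤ (mixedEmbedding.integerLattice K) = finrank ℚ K := by
    rw [ZLattice.rank ℝ, mixedEmbedding.finrank]
  have h1 := ZLattice.summable_norm_rpow (mixedEmbedding.integerLattice K) r (by rw [hrank]; exact hr)
  have h2 : (fun x : 𝓞 K => hh x ^ r) = (fun z : mixedEmbedding.integerLattice K => ‖z‖ ^ r) ∘ f := by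
    funext x
    simp only [Function.comp_apply]
    congr 1
  rw [h2]
  exact h1.comp_injective hf

lemma lN_nonneg {x : 𝓞 K} (hx : x ≠ 0) : 0 ≤ lN (x : K) := by
  unfold lN
  apply Real.log_nonneg
  have h1 : (Algebra.norm ℚ (x : K)) = ((Algebra.norm ℤ x : ℤ) : ℚ) := (Algebra.coe_norm_int x).symm
  rw [h1]
  have h2 : Algebra.norm ℤ x ≠ 0 := Algebra.norm_ne_zero_iff.mpr hx
  have h3 : (1 : ℤ) ≤ |Algebra.norm ℤ x| := Int.one_le_abs h2
  have h4 : (((Algebra.norm ℤ x : ℤ) : ℚ) : ℝ) = ((Algebra.norm ℤ x : ℤ) : ℝ) := by norm_cast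
  rw [h4, ← Int.cast_abs]
  exact_mod_cast h3

/-- lower bounds on the support of the partition function -/
lemma exists_lower (K : Type*) [Field K] [NumberField K] :
    ∃ A : ℝ, 0 < A ∧ ∀ x : 𝓞 K, x ≠ 0 → pphi (x : K) ≠ 0 →
      (∀ w : InfinitePlace K, Real.exp (-(2 * A)) * hh x ≤ w (x : K)) ∧
      Real.exp (-lN (x : K)) ≤ Real.exp ((finrank ℚ K : ℝ) * A) * hh x ^ (-(finrank ℚ K : ℝ)) := by
  obtain ⟨A, hA, h⟩ := exists_bound_dd K
  refine ⟨A, hA, fun x hx hp => ?_⟩
  have hx' : (x : K) ≠ 0 := coe_ne hx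
  have hn0 : (0 : ℝ) < finrank ℚ K := finrank_pos'
  have hd := h x hx' hp
  obtain ⟨w₁, hw₁⟩ := exists_place_eq x
  have hpos : ∀ w : InfinitePlace K, 0 < w (x : K) := fun w => InfinitePlace.pos_iff.mpr hx'
  have hh0 : 0 < hh x := by rw [hw₁]; exact hpos w₁
  have h1 : Real.log (hh x) ≤ lN (x : K) * (finrank ℚ K : ℝ)⁻¹ + A := by
    have := (abs_le.mp (hd w₁)).2
    unfold dd at this
    rw [hw₁]
    linarith
  constructor
  · intro w
    have h2 := (abs_le.mp (hd w)).1
    unfold dd at h2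
    have h3 : -(2 * A) + Real.log (hh x) ≤ Real.log (w (x : K)) := by linarith
    have h4 := Real.exp_le_exp.mpr h3
    rw [Real.exp_add, Real.exp_log hh0, Real.exp_log (hpos w)] at h4
    exact h4
  · rw [Real.rpow_def_of_pos hh0, ← Real.exp_add]
    apply Real.exp_le_exp.mpr
    have h2 : (finrank ℚ K : ℝ) * Real.log (hh x) ≤ lN (x : K) + finrank ℚ K * A := by
      have := mul_le_mul_of_nonneg_left h1 hn0.le
      have e : (finrank ℚ K : ℝ) * (lN (x : K) * (finrank ℚ K : ℝ)⁻¹ + A) =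
          lN (x : K) + finrank ℚ K * A := by
        field_simp
      linarith
    linarith

/-- Half of the tail estimate. -/
lemma exists_half_tail (K : Type*) [Field K] [NumberField K] (R : ℝ) (hR : 0 ≤ R) :
    ∃ C : ℝ, 0 < C ∧ ∀ x y : 𝓞 K, x ≠ 0 → y ≠ 0 → hh (y - x) ≤ R → C ≤ hh x →
      pphi (x : K) ≠ 0 →
      (∀ w : InfinitePlace K, w (((y - x : 𝓞 K)) : K) ≤ 1 / 4 * w (x : K)) ∧
      ∀ s : ℝ, 1 ≤ s → s ≤ 2 →
        |pphi (x : K) * Real.exp (-s * lN (x : K)) - pphi (y : K) * Real.exp (-s * lN (y : K))| ≤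
          C * hh x ^ (-((finrank ℚ K : ℝ) + 1)) := by
  obtain ⟨A, hA, hlow⟩ := exists_lower K
  obtain ⟨C₀, hC₀, hslow⟩ := exists_slow K
  set n : ℝ := (finrank ℚ K : ℝ) with hn
  set E : ℝ := Real.exp (2 * A) with hE
  have hE1 : 1 ≤ E := Real.one_le_exp (by linarith)
  refine ⟨4 * R * E + C₀ * R * E * Real.exp (n * A) + 1, by positivity, ?_⟩
  intro x y hx hy hxy hCx hp
  obtain ⟨hl1, hl2⟩ := hlow x hx hp
  have hx' : (x : K) ≠ 0 := coe_ne hx
  have hy' : (y : K) ≠ 0 := coe_ne hy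
  have hbig : 4 * R * E + 1 ≤ hh x := by
    have : 0 ≤ C₀ * R * E * Real.exp (n * A) := by positivity
    linarith
  have hh0 : 0 < hh x := by
    have : 0 ≤ 4 * R * E := by positivity
    linarith
  set δ : ℝ := R * E / hh x with hδ
  have hδ4 : δ ≤ 1 / 4 := by
    rw [hδ, div_le_iff₀ hh0]
    linarith
  have hwx : ∀ w : InfinitePlace K, w (((y - x : 𝓞 K)) : K) ≤ δ * w (x : K) := by
    intro w
    have h1 := hl1 w
    have h2 : Real.exp (-(2 * A)) = E⁻¹ := by rw [hE, ← Real.exp_neg]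
    rw [h2] at h1
    have h3 : R ≤ δ * (E⁻¹ * hh x) := by
      apply le_of_eq
      rw [hδ]
      field_simp
    have hδ0 : 0 ≤ δ := by positivity
    calc w (((y - x : 𝓞 K)) : K) ≤ hh (y - x) := place_le_hh w _
      _ ≤ R := hxy
      _ ≤ δ * (E⁻¹ * hh x) := h3
      _ ≤ δ * w (x : K) := mul_le_mul_of_nonneg_left h1 hδ0
  refine ⟨fun w => (hwx w).trans (mul_le_mul_of_nonneg_right hδ4 (apply_nonneg w _)), ?_⟩
  intro s hs1 hs2
  have h4 : ∀ w : InfinitePlace K, |w (y : K) - w (x : K)| ≤ δ * w (x : K) := by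
    intro w
    refine le_trans ?_ (hwx w)
    rw [coe_sub', abs_le]
    constructor
    · have h5 := place_tri w ((x : K) - y) (y : K)
      rw [sub_add_cancel, place_sub_comm] at h5
      linarith
    · have h5 := place_tri w ((y : K) - x) (x : K)
      rw [sub_add_cancel] at h5
      linarith
  have h5 := hslow (x : K) (y : K) hx' hy' δ (by linarith) h4 s hs1 hs2
  refine h5.trans ?_
  have h6 : Real.exp (-s * lN (x : K)) ≤ Real.exp (n * A) * hh x ^ (-n) := by
    refine le_trans ?_ hl2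
    apply Real.exp_le_exp.mpr
    have := lN_nonneg hx
    nlinarith
  have h7 : hh x ^ (-(n + 1)) = hh x ^ (-n) * (hh x)⁻¹ := by
    rw [← Real.rpow_neg_one, ← Real.rpow_add hh0]
    congr 1
    ring
  have hδ0 : 0 ≤ δ := by positivity
  calc C₀ * δ * Real.exp (-s * lN (x : K)) ≤ C₀ * δ * (Real.exp (n * A) * hh x ^ (-n)) :=
        mul_le_mul_of_nonneg_left h6 (by positivity)
    _ = (C₀ * R * E * Real.exp (n * A)) * hh x ^ (-(n + 1)) := by
        rw [h7, hδ]; ring
    _ ≤ _ := by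
        refine mul_le_mul_of_nonneg_right ?_ (Real.rpow_nonneg hh0.le _)
        have : 0 ≤ 4 * R * E := by positivity
        linarith

/-- The tail estimate. -/
lemma exists_tail (K : Type*) [Field K] [NumberField K] (R : ℝ) (hR : 0 ≤ R) :
    ∃ C : ℝ, 0 < C ∧ ∀ x y : 𝓞 K, x ≠ 0 → y ≠ 0 → hh (y - x) ≤ R → C ≤ hh x →
      (pphi (x : K) ≠ 0 ∨ pphi (y : K) ≠ 0) →
      (∀ w : InfinitePlace K, w (((y - x : 𝓞 K)) : K) < w (x : K)) ∧
      ∀ s : ℝ, 1 ≤ s → s ≤ 2 →
        |pphi (x : K) * Real.exp (-s * lN (x : K)) - pphi (y : K) * Real.exp (-s * lN (y : K))| ≤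
          C * hh x ^ (-((finrank ℚ K : ℝ) + 1)) := by
  obtain ⟨C, hC, h⟩ := exists_half_tail K R hR
  set n : ℝ := (finrank ℚ K : ℝ) with hn
  have h2pos : (0 : ℝ) < (2 : ℝ) ^ (n + 1) := Real.rpow_pos_of_pos (by norm_num) _
  have h2one : (1 : ℝ) ≤ (2 : ℝ) ^ (n + 1) :=
    Real.one_le_rpow (by norm_num) (by have := finrank_pos' (K := K); linarith)
  refine ⟨C * (2 : ℝ) ^ (n + 1) + 2 * C + 2 * R, by positivity, ?_⟩
  intro x y hx hy hxy hCx hp
  have hpos : ∀ (z : 𝓞 K), z ≠ 0 → ∀ w : InfinitePlace K, 0 < w (z : K) := by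
    intro z hz w
    exact InfinitePlace.pos_iff.mpr (coe_ne hz)
  have hCpos : 0 < C * (2 : ℝ) ^ (n + 1) := by positivity
  have hh0 : 0 < hh x := by linarith
  rcases hp with hp | hp
  · obtain ⟨h1, h2⟩ := h x y hx hy hxy (by linarith) hp
    refine ⟨fun w => ?_, fun s hs1 hs2 => (h2 s hs1 hs2).trans ?_⟩
    · have := h1 w
      have := hpos x hx w
      linarith
    · refine mul_le_mul_of_nonneg_right ?_ (Real.rpow_nonneg hh0.le _)
      nlinarith
  · have hy2 : hh x / 2 ≤ hh y := by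
      have h3 : hh x ≤ hh (x - y) + hh y := by
        have := hh_add_le (x - y) y
        rwa [sub_add_cancel] at this
      rw [hh_sub_comm] at h3
      linarith
    obtain ⟨h1, h2⟩ := h y x hy hx (by rw [hh_sub_comm]; exact hxy) (by linarith) hp
    refine ⟨fun w => ?_, fun s hs1 hs2 => ?_⟩
    · have h3 := h1 w
      have h4 := hpos y hy w
      have h5 : w (y : K) ≤ w ((x - y : 𝓞 K) : K) + w (x : K) := by
        have h7 := place_tri w ((y : K) - x) (x : K)
        rw [sub_add_cancel, place_sub_comm] at h7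
        exact h7
      have h6 : w ((y - x : 𝓞 K) : K) = w ((x - y : 𝓞 K) : K) := by
        rw [coe_sub', coe_sub', place_sub_comm]
      rw [h6]
      linarith
    · rw [abs_sub_comm]
      refine (h2 s hs1 hs2).trans ?_
      have h3 : hh y ^ (-(n + 1)) ≤ (hh x / 2) ^ (-(n + 1)) :=
        Real.rpow_le_rpow_of_nonpos (by linarith) hy2 (by
          have := finrank_pos' (K := K); linarith)
      have h4 : (hh x / 2) ^ (-(n + 1)) = (2 : ℝ) ^ (n + 1) * hh x ^ (-(n + 1)) := by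
        rw [Real.div_rpow hh0.le (by norm_num), Real.rpow_neg (by norm_num : (0 : ℝ) ≤ 2),
          div_inv_eq_mul, mul_comm]
      rw [h4] at h3
      calc C * hh y ^ (-(n + 1)) ≤ C * ((2 : ℝ) ^ (n + 1) * hh x ^ (-(n + 1))) :=
            mul_le_mul_of_nonneg_left h3 hC.le
        _ = (C * (2 : ℝ) ^ (n + 1)) * hh x ^ (-(n + 1)) := by ring
        _ ≤ _ := by
            refine mul_le_mul_of_nonneg_right ?_ (Real.rpow_nonneg hh0.le _)
            linarith

end Tail

end Pool.Agent.H3.Cheb
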