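import Mathlib
import Pool.Agent.H3.Cheb.Tail

open NumberField NumberField.Units NumberField.Units.dirichletUnitTheorem Module

namespace Pool.Agent.H3.Cheb

section Compare

variable {K : Type*} [Field K] [NumberField K]

/-- weighted summand on the ring of integers -/
noncomputable def FF (G : 𝓞 K → ℂ) (s : ℝ) (x : 𝓞 K) : ℂ :=
  open scoped Classical in
  if x = 0 then 0 else G x * ((pphi (x : K) * Real.exp (-s * lN (x : K)) : ℝ) : ℂ)

lemma FF_zero (G : 𝓞 K → ℂ) (s : ℝ) : FF G s 0 = 0 := by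
  unfold FF
  rw [if_pos rfl]

lemma FF_of_ne (G : 𝓞 K → ℂ) (s : ℝ) {x : 𝓞 K} (hx : x ≠ 0) :
    FF G s x = G x * ((pphi (x : K) * Real.exp (-s * lN (x : K)) : ℝ) : ℂ) := by
  unfold FF
  rw [if_neg hx]

lemma norm_FF_le {G : 𝓞 K → ℂ} (hG : ∀ x, ‖G x‖ ≤ 1) {s : ℝ} {x : 𝓞 K} (hx : x ≠ 0) :
    ‖FF G s x‖ ≤ pphi (x : K) * Real.exp (-s * lN (x : K)) := by
  rw [FF_of_ne G s hx, norm_mul, Complex.norm_real,
    Real.norm_of_nonneg (mul_nonneg (pphi_nonneg _) (Real.exp_pos _).le)]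
  calc ‖G x‖ * (pphi (x : K) * Real.exp (-s * lN (x : K))) ≤
        1 * (pphi (x : K) * Real.exp (-s * lN (x : K))) :=
        mul_le_mul_of_nonneg_right (hG x) (mul_nonneg (pphi_nonneg _) (Real.exp_pos _).le)
    _ = _ := one_mul _

lemma norm_FF_le_one {G : 𝓞 K → ℂ} (hG : ∀ x, ‖G x‖ ≤ 1) {s : ℝ} (hs : 0 ≤ s) (x : 𝓞 K) :
    ‖FF G s x‖ ≤ 1 := by
  by_cases hx : x = 0
  · rw [hx, FF_zero, norm_zero]; exact zero_le_one
  · refine (norm_FF_le hG hx).trans ?_
    have h1 : Real.exp (-s * lN (x : K)) ≤ 1 := by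
      apply Real.exp_le_one_iff.mpr
      have := lN_nonneg hx
      nlinarith
    calc pphi (x : K) * Real.exp (-s * lN (x : K)) ≤ 1 * 1 :=
          mul_le_mul (pphi_le_one _) h1 (Real.exp_pos _).le zero_le_one
      _ = 1 := one_mul 1

lemma hh_pos_of_ne {x : 𝓞 K} (hx : x ≠ 0) : 0 < hh x := by
  have w := Classical.arbitrary (InfinitePlace K)
  exact (InfinitePlace.pos_iff.mpr (coe_ne hx)).trans_le (place_le_hh w x)

lemma hh_zero : hh (0 : 𝓞 K) = 0 := by
  obtain ⟨w, hw⟩ := exists_place_eq (0 : 𝓞 K)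
  rw [hw, show ((0 : 𝓞 K) : K) = 0 from rfl, map_zero]

lemma summable_FF {G : 𝓞 K → ℂ} (hG : ∀ x, ‖G x‖ ≤ 1) {s : ℝ} (hs : 1 < s) :
    Summable (FF G s) := by
  obtain ⟨A, hA, hlow⟩ := exists_lower K
  set n : ℝ := (finrank ℚ K : ℝ) with hn
  have hn0 : 0 < n := finrank_pos'
  have hsum : Summable (fun x : 𝓞 K => Real.exp (n * A * s) * hh x ^ (-(n * s))) := by
    refine (summable_hh ?_).mul_left _
    rw [← hn]
    nlinarith
  refine Summable.of_norm_bounded hsum fun x => ?_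
  by_cases hx : x = 0
  · rw [hx, FF_zero, norm_zero]
    exact mul_nonneg (Real.exp_pos _).le (Real.rpow_nonneg (hh_nonneg _) _)
  · refine (norm_FF_le hG hx).trans ?_
    by_cases hp : pphi (x : K) = 0
    · rw [hp, zero_mul]
      exact mul_nonneg (Real.exp_pos _).le (Real.rpow_nonneg (hh_nonneg _) _)
    · have h1 := (hlow x hx hp).2
      have h2 : Real.exp (-s * lN (x : K)) = (Real.exp (-lN (x : K))) ^ s := by
        rw [← Real.exp_mul]; ring_nf
      have h3 : (Real.exp (n * A) * hh x ^ (-n)) ^ s =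
          Real.exp (n * A * s) * hh x ^ (-(n * s)) := by
        rw [Real.mul_rpow (Real.exp_pos _).le (Real.rpow_nonneg (hh_nonneg _) _), ← Real.exp_mul,
          ← Real.rpow_mul (hh_nonneg _)]
        congr 2
        ring
      rw [← h3, h2]
      calc pphi (x : K) * Real.exp (-lN (x : K)) ^ s ≤ 1 * Real.exp (-lN (x : K)) ^ s :=
            mul_le_mul_of_nonneg_right (pphi_le_one _) (Real.rpow_nonneg (Real.exp_pos _).le _)
        _ = Real.exp (-lN (x : K)) ^ s := one_mul _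
        _ ≤ _ := Real.rpow_le_rpow (Real.exp_pos _).le h1 (by linarith)

/-- bound for the effect of a translation -/
lemma exists_shift_bound {G : 𝓞 K → ℂ} (hG : ∀ x, ‖G x‖ ≤ 1) (I : Ideal (𝓞 K)) (r : 𝓞 K)
    (hper : ∀ x ∈ I, x ≠ 0 → x + r ≠ 0 → (∀ w : InfinitePlace K, w (r : K) < w (x : K)) →
      G (x + r) = G x) :
    ∃ D : 𝓞 K → ℝ, Summable D ∧ ∀ x ∈ I, ∀ s : ℝ, 1 ≤ s → s ≤ 2 →
      ‖FF G s (x + r) - FF G s x‖ ≤ D x := by
  classical
  obtain ⟨C, hC, htail⟩ := exists_tail K (hh r) (hh_nonneg r)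
  set n : ℝ := (finrank ℚ K : ℝ) with hn
  set C' : ℝ := C + hh r + 1 with hC'
  have hC'0 : 0 < C' := by have := hh_nonneg r; linarith
  refine ⟨fun x => (if hh x ≤ C' then 2 else 0) + C * hh x ^ (-(n + 1)), ?_, ?_⟩
  · refine Summable.add ?_ ((summable_hh (by rw [← hn]; linarith)).mul_left _)
    refine summable_of_ne_finset_zero (s := (hh_finite C').toFinset) fun x hx => ?_
    rw [if_neg]
    intro h
    exact hx (by simpa using h)
  · intro x hxI s hs1 hs2
    have hnn : 0 ≤ C * hh x ^ (-(n + 1)) := mul_nonneg hC.le (Real.rpow_nonneg (hh_nonneg _) _)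
    change _ ≤ (if hh x ≤ C' then (2 : ℝ) else 0) + C * hh x ^ (-(n + 1))
    by_cases hxC : hh x ≤ C'
    · rw [if_pos hxC]
      have h1 := norm_FF_le_one hG (by linarith : (0 : ℝ) ≤ s) (x + r)
      have h2 := norm_FF_le_one hG (by linarith : (0 : ℝ) ≤ s) x
      have h3 := norm_sub_le (FF G s (x + r)) (FF G s x)
      linarith
    · rw [if_neg hxC, zero_add]
      push Not at hxC
      have hx0 : x ≠ 0 := by
        rintro rfl
        rw [hh_zero] at hxC
        linarith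
      have hxr : x + r ≠ 0 := by
        intro h
        have : x = -r := eq_neg_of_add_eq_zero_left h
        rw [this, hh_neg] at hxC
        linarith
      by_cases hp : pphi (x : K) = 0 ∧ pphi ((x + r : 𝓞 K) : K) = 0
      · rw [FF_of_ne G s hx0, FF_of_ne G s hxr, hp.1, hp.2]
        simpa using hnn
      · have hp' : pphi (x : K) ≠ 0 ∨ pphi ((x + r : 𝓞 K) : K) ≠ 0 := by tauto
        have hsub : (x + r) - x = r := by ring
        have hr0 := hh_nonneg r
        obtain ⟨h1, h2⟩ := htail x (x + r) hx0 hxr (by rw [hsub]) (by linarith) hp'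
        rw [hsub] at h1
        rw [FF_of_ne G s hx0, FF_of_ne G s hxr, hper x hxI hx0 hxr h1, ← mul_sub, norm_mul,
          ← Complex.ofReal_sub, Complex.norm_real, Real.norm_eq_abs, abs_sub_comm]
        calc ‖G x‖ * |pphi (x : K) * Real.exp (-s * lN (x : K)) -
              pphi ((x + r : 𝓞 K) : K) * Real.exp (-s * lN ((x + r : 𝓞 K) : K))| ≤
              1 * (C * hh x ^ (-(n + 1))) :=
              mul_le_mul (hG x) (h2 s hs1 hs2) (abs_nonneg _) zero_le_one
          _ = _ := one_mul _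

/-- Comparison of the sum over an ideal `J` and over a subideal `I`. -/
lemma exists_compare {G : 𝓞 K → ℂ} (hG : ∀ x, ‖G x‖ ≤ 1) (I J : Ideal (𝓞 K))
    {κ : Type*} [Fintype κ] (r : κ → 𝓞 K) (e : κ × I ≃ J)
    (he : ∀ p, (e p : 𝓞 K) = (p.2 : 𝓞 K) + r p.1)
    (hper : ∀ q, ∀ x ∈ I, x ≠ 0 → x + r q ≠ 0 →
      (∀ w : InfinitePlace K, w (r q : K) < w (x : K)) → G (x + r q) = G x) :
    ∃ C : ℝ, ∀ s : ℝ, 1 < s → s ≤ 2 →
      ‖∑' x : J, FF G s x - (Fintype.card κ : ℂ) * ∑' x : I, FF G s x‖ ≤ C := by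
  classical
  have hD : ∀ q : κ, ∃ D : 𝓞 K → ℝ, Summable D ∧ ∀ x ∈ I, ∀ s : ℝ, 1 ≤ s → s ≤ 2 →
      ‖FF G s (x + r q) - FF G s x‖ ≤ D x := fun q => exists_shift_bound hG I (r q) (hper q)
  choose D hDs hDb using hD
  refine ⟨∑ q : κ, ∑' x : I, D q x, ?_⟩
  intro s hs1 hs2
  have hs := summable_FF hG hs1
  have hI : Summable (fun x : I => FF G s x) := hs.comp_injective Subtype.val_injective
  have hIr : ∀ q : κ, Summable (fun x : I => FF G s ((x : 𝓞 K) + r q)) := fun q =>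
    hs.comp_injective (i := fun x : I => (x : 𝓞 K) + r q) (fun x y hxy =>
      Subtype.ext (add_right_cancel hxy))
  have hJ : Summable (fun x : J => FF G s x) := hs.comp_injective Subtype.val_injective
  have h1 : ∑' x : J, FF G s x = ∑ q : κ, ∑' x : I, FF G s ((x : 𝓞 K) + r q) := by
    rw [← e.tsum_eq (fun x : J => FF G s x)]
    have h2 : (fun p : κ × I => FF G s (e p : 𝓞 K)) = fun p => FF G s ((p.2 : 𝓞 K) + r p.1) := by
      funext p; rw [he]
    rw [h2]
    have h3 : Summable (fun p : κ × I => FF G s ((p.2 : 𝓞 K) + r p.1)) := by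
      rw [← h2]
      exact e.summable_iff.mpr hJ
    rw [h3.tsum_prod, tsum_fintype]
  have h4 : (Fintype.card κ : ℂ) * ∑' x : I, FF G s x = ∑ _q : κ, ∑' x : I, FF G s x := by
    rw [Finset.sum_const, Finset.card_univ, nsmul_eq_mul]
  rw [h1, h4, ← Finset.sum_sub_distrib]
  refine (norm_sum_le _ _).trans (Finset.sum_le_sum fun q _ => ?_)
  rw [← (hIr q).tsum_sub hI]
  have hDI : Summable (fun x : I => D q x) := (hDs q).comp_injective Subtype.val_injective
  exact tsum_of_norm_bounded hDI.hasSum fun x => hDb q x x.2 s hs1.le hs2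

end Compare

end Pool.Agent.H3.Cheb
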