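import Mathlib
import Pool.Agent.H3.Cheb.Compare

open NumberField NumberField.Units NumberField.Units.dirichletUnitTheorem Module

namespace Pool.Agent.H3.Cheb

section Sign

variable {K : Type*} [Field K] [NumberField K]

/-- An element all of whose conjugates are close to one has positive norm. -/
lemma norm_pos_of_close (α : K) (h : ∀ φ : K →+* ℂ, ‖φ α - 1‖ < 1) : 0 < Algebra.norm ℚ α := by
  classical
  have hre : ∀ φ : K →+* ℂ, 0 < (φ α).re := by
    intro φ
    have h1 := (Complex.abs_re_le_norm (φ α - 1)).trans_lt (h φ)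
    rw [Complex.sub_re, Complex.one_re, abs_lt] at h1
    linarith
  have hfib : ∀ w : InfinitePlace K, ∃ r : ℝ, 0 < r ∧
      ∏ φ ∈ Finset.univ.filter (fun φ : K →+* ℂ => InfinitePlace.mk φ = w), φ α = (r : ℂ) := by
    intro w
    have hset : (Finset.univ.filter fun φ : K →+* ℂ => InfinitePlace.mk φ = w) =
        {w.embedding, ComplexEmbedding.conjugate w.embedding} := by
      ext φ
      rw [Finset.mem_filter, Finset.mem_insert, Finset.mem_singleton]
      constructor
      · rintro ⟨_, h1⟩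
        rw [← InfinitePlace.mk_embedding w, InfinitePlace.mk_eq_iff] at h1
        rcases h1 with h1 | h1
        · exact Or.inl h1
        · right
          rw [← h1]
          exact (star_star φ).symm
      · rintro (h1 | h1)
        · rw [h1]; exact ⟨Finset.mem_univ _, InfinitePlace.mk_embedding w⟩
        · rw [h1]
          refine ⟨Finset.mem_univ _, ?_⟩
          rw [InfinitePlace.mk_conjugate_eq, InfinitePlace.mk_embedding]
    rw [hset]
    by_cases hw : ComplexEmbedding.conjugate w.embedding = w.embedding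
    · rw [hw, Finset.pair_eq_singleton, Finset.prod_singleton]
      refine ⟨(w.embedding α).re, hre _, ?_⟩
      have h1 : (starRingEnd ℂ) (w.embedding α) = w.embedding α := by
        have := congrArg (fun ψ : K →+* ℂ => ψ α) hw
        exact this
      exact (Complex.conj_eq_iff_re.mp h1).symm
    · rw [Finset.prod_pair (Ne.symm hw)]
      refine ⟨Complex.normSq (w.embedding α), ?_, ?_⟩
      · apply Complex.normSq_pos.mpr
        intro h0
        have := hre w.embedding
        rw [h0] at this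
        simp at this
      · change w.embedding α * (starRingEnd ℂ) (w.embedding α) = _
        rw [Complex.mul_conj]
  choose r hr0 hr using hfib
  have h1 := Algebra.norm_eq_prod_embeddings ℚ ℂ α
  have h2 : ∏ σ : K →ₐ[ℚ] ℂ, σ α = ∏ φ : K →+* ℂ, φ α :=
    (Fintype.prod_equiv (RingHom.equivRatAlgHom K ℂ) (fun f => f α) (fun φ => φ α)
      fun _ => by simp [RingHom.equivRatAlgHom_apply]).symm
  rw [h2, ← Finset.prod_fiberwise Finset.univ InfinitePlace.mk (fun φ => φ α)] at h1
  have h3 : ∏ w : InfinitePlace K,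
      ∏ φ ∈ Finset.univ.filter (fun φ : K →+* ℂ => InfinitePlace.mk φ = w), φ α =
      ((∏ w : InfinitePlace K, r w : ℝ) : ℂ) := by
    push_cast
    exact Finset.prod_congr rfl fun w _ => hr w
  rw [h3] at h1
  have h4 : ((Algebra.norm ℚ α : ℚ) : ℝ) = ∏ w : InfinitePlace K, r w := by
    have h5 : (((Algebra.norm ℚ α : ℚ) : ℝ) : ℂ) = ((∏ w : InfinitePlace K, r w : ℝ) : ℂ) := by
      rw [← h1]
      simp
    exact_mod_cast h5
  have h5 : (0 : ℝ) < ((Algebra.norm ℚ α : ℚ) : ℝ) := by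
    rw [h4]
    exact Finset.prod_pos fun w _ => hr0 w
  exact_mod_cast h5

/-- Nearby integers have norms of the same sign. -/
lemma norm_mul_pos_of_close {x y : 𝓞 K} (hx : x ≠ 0)
    (h : ∀ w : InfinitePlace K, w (((y - x : 𝓞 K)) : K) < w (x : K)) :
    0 < Algebra.norm ℤ y * Algebra.norm ℤ x := by
  have hx' := coe_ne hx
  have h1 : 0 < Algebra.norm ℚ ((y : K) / (x : K)) := by
    apply norm_pos_of_close
    intro φ
    have hφx : φ (x : K) ≠ 0 := (map_ne_zero φ).mpr hx'
    have h2 : φ ((y : K) / x) - 1 = φ ((y : K) - x) / φ x := by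
      rw [map_div₀, map_sub]
      field_simp
    rw [h2, norm_div, div_lt_one (norm_pos_iff.mpr hφx)]
    exact h (InfinitePlace.mk φ)
  have hdiv : Algebra.norm ℚ ((y : K) / x) * Algebra.norm ℚ (x : K) = Algebra.norm ℚ (y : K) := by
    rw [← map_mul, div_mul_cancel₀ _ hx']
  have h3 : (Algebra.norm ℚ (y : K)) = ((Algebra.norm ℤ y : ℤ) : ℚ) := (Algebra.coe_norm_int y).symm
  have h4 : (Algebra.norm ℚ (x : K)) = ((Algebra.norm ℤ x : ℤ) : ℚ) := (Algebra.coe_norm_int x).symm
  rw [h3, h4] at hdiv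
  have h5 : Algebra.norm ℤ x ≠ 0 := Algebra.norm_ne_zero_iff.mpr hx
  have h6 : (0 : ℚ) < ((Algebra.norm ℤ x : ℤ) : ℚ) ^ 2 := by
    have : ((Algebra.norm ℤ x : ℤ) : ℚ) ≠ 0 := by exact_mod_cast h5
    positivity
  have h7 := mul_pos h1 h6
  have h8 : Algebra.norm ℚ ((y : K) / x) * ((Algebra.norm ℤ x : ℤ) : ℚ) ^ 2 =
      ((Algebra.norm ℤ y * Algebra.norm ℤ x : ℤ) : ℚ) := by
    push_cast
    rw [← hdiv]
    ring
  rw [h8] at h7
  exact_mod_cast h7

/-- Congruence for norms. -/
lemma norm_congr_int (x z : 𝓞 K) (a : ℤ) :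
    a ∣ Algebra.norm ℤ (x + algebraMap ℤ (𝓞 K) a * z) - Algebra.norm ℤ x := by
  classical
  let b := RingOfIntegers.basis K
  rw [Algebra.norm_eq_matrix_det b, Algebra.norm_eq_matrix_det b]
  have h0 : ∀ M : Matrix (Free.ChooseBasisIndex ℤ (𝓞 K)) (Free.ChooseBasisIndex ℤ (𝓞 K)) ℤ,
      ((M.det : ℤ) : ZMod a.natAbs) = (M.map (Int.castRingHom (ZMod a.natAbs))).det := by
    intro M
    exact (RingHom.map_det (Int.castRingHom (ZMod a.natAbs)) M)
  have h1 : (((Algebra.leftMulMatrix b (x + algebraMap ℤ (𝓞 K) a * z)).det -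
      (Algebra.leftMulMatrix b x).det : ℤ) : ZMod a.natAbs) = 0 := by
    rw [Int.cast_sub, h0, h0, sub_eq_zero]
    congr 1
    rw [map_add, map_mul, AlgHom.commutes]
    ext i j
    simp only [Matrix.map_apply, Matrix.add_apply, Matrix.algebraMap_eq_diagonal,
      Matrix.diagonal_mul, map_add, map_mul]
    have h2 : (Int.castRingHom (ZMod a.natAbs)) ((algebraMap ℤ (Free.ChooseBasisIndex ℤ (𝓞 K) → ℤ)) a i) = 0 := by
      have h3 : (algebraMap ℤ (Free.ChooseBasisIndex ℤ (𝓞 K) → ℤ)) a i = a := rfl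
      rw [h3]
      change ((a : ℤ) : ZMod a.natAbs) = 0
      rw [ZMod.intCast_zmod_eq_zero_iff_dvd]
      exact Int.natAbs_dvd.mpr dvd_rfl
    rw [h2, zero_mul, add_zero]
  rw [ZMod.intCast_zmod_eq_zero_iff_dvd] at h1
  exact Int.natAbs_dvd.mp h1

/-- Congruence for absolute norms of nearby integers. -/
lemma natAbs_norm_congr {x z : 𝓞 K} {m N : ℕ} (hm : m ≠ 0) (hN : N ≠ 0)
    (hx : N ∣ (Algebra.norm ℤ x).natAbs)
    (hsign : 0 < Algebra.norm ℤ (x + ((m * N : ℕ) : 𝓞 K) * z) * Algebra.norm ℤ x) :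
    (((Algebra.norm ℤ (x + ((m * N : ℕ) : 𝓞 K) * z)).natAbs / N : ℕ) : ZMod m) =
      (((Algebra.norm ℤ x).natAbs / N : ℕ) : ZMod m) := by
  set y := x + ((m * N : ℕ) : 𝓞 K) * z with hy
  have h1 := norm_congr_int x z ((m * N : ℕ) : ℤ)
  have h2 : (algebraMap ℤ (𝓞 K)) ((m * N : ℕ) : ℤ) = ((m * N : ℕ) : 𝓞 K) := by simp
  rw [h2, ← hy] at h1
  obtain ⟨t, ht⟩ := h1
  obtain ⟨c, hc⟩ := hx
  -- the absolute values
  have key : ∃ u : ℤ, ((Algebra.norm ℤ y).natAbs : ℤ) = ((Algebra.norm ℤ x).natAbs : ℤ) +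
      ((m * N : ℕ) : ℤ) * u := by
    rcases lt_or_gt_of_ne (show Algebra.norm ℤ x ≠ 0 by
      intro h; rw [h, mul_zero] at hsign; exact lt_irrefl _ hsign) with hneg | hpos
    · have hyneg : Algebra.norm ℤ y < 0 := by
        by_contra hcon
        push Not at hcon
        have := mul_nonpos_of_nonneg_of_nonpos hcon hneg.le
        linarith
      refine ⟨-t, ?_⟩
      rw [Int.ofNat_natAbs_of_nonpos hyneg.le, Int.ofNat_natAbs_of_nonpos hneg.le]
      linarith
    · have hypos : 0 < Algebra.norm ℤ y := by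
        by_contra hcon
        push Not at hcon
        have := mul_nonpos_of_nonpos_of_nonneg hcon hpos.le
        linarith
      refine ⟨t, ?_⟩
      rw [Int.natAbs_of_nonneg hypos.le, Int.natAbs_of_nonneg hpos.le]
      linarith
  obtain ⟨u, hu⟩ := key
  have hNpos : 0 < N := Nat.pos_of_ne_zero hN
  have h3 : ((Algebra.norm ℤ y).natAbs : ℤ) = N * ((c : ℤ) + m * u) := by
    rw [hu, hc]
    push_cast
    ring
  have hnn : 0 ≤ (c : ℤ) + m * u := by
    have : (0 : ℤ) ≤ N * ((c : ℤ) + m * u) := by rw [← h3]; positivity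
    exact nonneg_of_mul_nonneg_right this (by exact_mod_cast hNpos)
  obtain ⟨d, hd⟩ := Int.eq_ofNat_of_zero_le hnn
  have h4 : (Algebra.norm ℤ y).natAbs = N * d := by
    have : ((Algebra.norm ℤ y).natAbs : ℤ) = ((N * d : ℕ) : ℤ) := by
      rw [h3, hd]; push_cast; ring
    exact_mod_cast this
  rw [h4, hc, Nat.mul_div_cancel_left _ hNpos, Nat.mul_div_cancel_left _ hNpos]
  have h5 : ((d : ℤ) : ZMod m) = (((c : ℤ) + m * u : ℤ) : ZMod m) := by
    rw [hd]
  have h6 : (d : ZMod m) = ((d : ℤ) : ZMod m) := by simp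
  rw [h6, h5]
  push_cast
  simp

end Sign

end Pool.Agent.H3.Cheb
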