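import Mathlib
import Pool.Agent.H3.Cheb.Sign

open NumberField NumberField.Units NumberField.Units.dirichletUnitTheorem Module IsDedekindDomain

namespace Pool.Agent.H3.Cheb

section Ideals

variable {K : Type*} [Field K] [NumberField K]

/-- nonzero principal ideals contained in `I` -/
abbrev PrI (I : Ideal (𝓞 K)) : Type _ :=
  {𝔟 : Ideal (𝓞 K) // 𝔟 ≠ ⊥ ∧ Submodule.IsPrincipal 𝔟 ∧ 𝔟 ≤ I}

lemma exists_gen {I : Ideal (𝓞 K)} (𝔟 : PrI I) : ∃ x : 𝓞 K, Ideal.span {x} = 𝔟.1 := by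
  obtain ⟨x, hx⟩ := 𝔟.2.2.1.principal
  exact ⟨x, hx.symm⟩

/-- a generator -/
noncomputable def gen {I : Ideal (𝓞 K)} (𝔟 : PrI I) : 𝓞 K := (exists_gen 𝔟).choose

lemma span_gen {I : Ideal (𝓞 K)} (𝔟 : PrI I) : Ideal.span {gen 𝔟} = 𝔟.1 := (exists_gen 𝔟).choose_spec

lemma gen_ne_zero {I : Ideal (𝓞 K)} (𝔟 : PrI I) : gen 𝔟 ≠ 0 := by
  intro h
  have := span_gen 𝔟
  rw [h, Ideal.span_singleton_eq_bot.mpr rfl] at this
  exact 𝔟.2.1 this.symm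

lemma span_unit_mul (u : (𝓞 K)ˣ) (x : 𝓞 K) : Ideal.span {(u : 𝓞 K) * x} = Ideal.span {x} :=
  Ideal.span_singleton_eq_span_singleton.mpr (associated_unit_mul_left x (u : 𝓞 K) u.isUnit)

/-- Sum over the elements of an ideal in terms of principal ideals. -/
lemma sum_over_ideal (I : Ideal (𝓞 K)) (f : 𝓞 K → ℂ) (g : Ideal (𝓞 K) → ℂ) (hf : Summable f)
    (hf0 : f 0 = 0) (hfg : ∀ x : 𝓞 K, x ≠ 0 → f x = g (Ideal.span {x}) * ((pphi (x : K) : ℝ) : ℂ)) :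
    ∑' x : I, f x = (Nat.card (torsion K) : ℂ) * ∑' 𝔟 : PrI I, g 𝔟.1 := by
  classical
  have hmem : ∀ p : PrI I × (𝓞 K)ˣ, (p.2 : 𝓞 K) * gen p.1 ∈ I := fun p => by
    apply Ideal.mul_mem_left
    apply p.1.2.2.2
    rw [← span_gen p.1]
    exact Ideal.mem_span_singleton_self _
  let ψ : PrI I × (𝓞 K)ˣ → I := fun p => ⟨(p.2 : 𝓞 K) * gen p.1, hmem p⟩
  have hψ : Function.Injective ψ := by
    intro p q hpq
    have h1 : (p.2 : 𝓞 K) * gen p.1 = (q.2 : 𝓞 K) * gen q.1 := congrArg Subtype.val hpq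
    have h2 : p.1 = q.1 := by
      apply Subtype.ext
      rw [← span_gen p.1, ← span_gen q.1, ← span_unit_mul p.2, h1, span_unit_mul]
    refine Prod.ext h2 ?_
    rw [h2] at h1
    exact Units.ext (mul_right_cancel₀ (gen_ne_zero q.1) h1)
  have hsupp : Function.support (fun x : I => f x) ⊆ Set.range ψ := by
    intro x hx
    have hx0 : (x : 𝓞 K) ≠ 0 := by
      intro h
      apply hx
      change f (x : 𝓞 K) = 0
      rw [h, hf0]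
    let 𝔟 : PrI I := ⟨Ideal.span {(x : 𝓞 K)}, by
      rw [Ne, Ideal.span_singleton_eq_bot]; exact hx0, ⟨⟨x, rfl⟩⟩, by
      rw [Ideal.span_le, Set.singleton_subset_iff]; exact x.2⟩
    have h1 : Ideal.span {gen 𝔟} = Ideal.span {(x : 𝓞 K)} := span_gen 𝔟
    obtain ⟨u, hu⟩ := Ideal.span_singleton_eq_span_singleton.mp h1
    refine ⟨(𝔟, u), Subtype.ext ?_⟩
    change (u : 𝓞 K) * gen 𝔟 = x
    rw [mul_comm]
    exact hu
  have h1 : ∑' p : PrI I × (𝓞 K)ˣ, f (ψ p : 𝓞 K) = ∑' x : I, f x := hψ.tsum_eq hsupp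
  have hI : Summable (fun x : I => f x) := hf.comp_injective Subtype.val_injective
  have h2 : Summable (fun p : PrI I × (𝓞 K)ˣ => f (ψ p : 𝓞 K)) := hI.comp_injective hψ
  rw [← h1, h2.tsum_prod, ← tsum_mul_left]
  refine tsum_congr fun 𝔟 => ?_
  have h3 : ∀ u : (𝓞 K)ˣ, f (ψ (𝔟, u) : 𝓞 K) =
      g 𝔟.1 * ((pphi (((u : 𝓞 K) : K) * (gen 𝔟 : K)) : ℝ) : ℂ) := by
    intro u
    change f ((u : 𝓞 K) * gen 𝔟) = _
    rw [hfg _ (mul_ne_zero u.ne_zero (gen_ne_zero 𝔟)), span_unit_mul, span_gen]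
    rfl
  rw [tsum_congr h3]
  have h4 := hasSum_units (K := K) (coe_ne (gen_ne_zero 𝔟))
  have h5 : HasSum (fun u : (𝓞 K)ˣ => ((pphi (((u : 𝓞 K) : K) * (gen 𝔟 : K)) : ℝ) : ℂ))
      ((Nat.card (torsion K) : ℝ) : ℂ) := by
    exact Complex.hasSum_ofReal.mpr h4
  rw [(h5.mul_left (g 𝔟.1)).tsum_eq, mul_comm]
  push_cast
  rfl

end Ideals

end Pool.Agent.H3.Cheb
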