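import Mathlib
import Pool.Agent.H3.Cheb.IdealSum

open NumberField NumberField.Units NumberField.Units.dirichletUnitTheorem Module IsDedekindDomain

namespace Pool.Agent.H3.Cheb

section ClassSum

variable {K : Type*} [Field K] [NumberField K]

/-- nonzero ideals -/
abbrev NZ (K : Type*) [Field K] [NumberField K] : Type _ := {𝔞 : Ideal (𝓞 K) // 𝔞 ≠ ⊥}

/-- Reindexing a sum over principal ideals. -/
lemma principal_sum (J 𝔠 : Ideal (𝓞 K)) (hJ : J ≠ ⊥) (F : Ideal (𝓞 K) → ℂ) :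
    ∑' 𝔟 : PrI (J * 𝔠), F 𝔟.1 = ∑' 𝔞 : NZ K,
      (open scoped Classical in
        if Submodule.IsPrincipal (J * 𝔞.1) ∧ 𝔞.1 ≤ 𝔠 then F (J * 𝔞.1) else 0) := by
  classical
  have hdvd : ∀ 𝔟 : PrI (J * 𝔠), ∃ 𝔞 : Ideal (𝓞 K), J * 𝔞 = 𝔟.1 := by
    intro 𝔟
    have h1 : 𝔟.1 ≤ J := 𝔟.2.2.2.trans Ideal.mul_le_left
    obtain ⟨𝔞, h𝔞⟩ := Ideal.dvd_iff_le.mpr h1
    exact ⟨𝔞, h𝔞.symm⟩
  choose θ₀ hθ₀ using hdvd
  have hθne : ∀ 𝔟, θ₀ 𝔟 ≠ ⊥ := by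
    intro 𝔟 h
    apply 𝔟.2.1
    rw [← hθ₀ 𝔟, h, Ideal.mul_bot]
  let θ : PrI (J * 𝔠) → NZ K := fun 𝔟 => ⟨θ₀ 𝔟, hθne 𝔟⟩
  have hθ : Function.Injective θ := by
    intro 𝔟 𝔟' h
    have h1 : θ₀ 𝔟 = θ₀ 𝔟' := congrArg Subtype.val h
    apply Subtype.ext
    rw [← hθ₀ 𝔟, ← hθ₀ 𝔟', h1]
  have hle : ∀ 𝔞 : Ideal (𝓞 K), J * 𝔞 ≤ J * 𝔠 ↔ 𝔞 ≤ 𝔠 := by
    intro 𝔞
    rw [← Ideal.dvd_iff_le, ← Ideal.dvd_iff_le]
    exact mul_dvd_mul_iff_left hJ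
  have hcond : ∀ 𝔟 : PrI (J * 𝔠), Submodule.IsPrincipal (J * (θ 𝔟).1) ∧ (θ 𝔟).1 ≤ 𝔠 := by
    intro 𝔟
    have h1 : J * (θ 𝔟).1 = 𝔟.1 := hθ₀ 𝔟
    constructor
    · rw [h1]; exact 𝔟.2.2.1
    · rw [← hle, h1]; exact 𝔟.2.2.2
  have hsupp : Function.support (fun 𝔞 : NZ K =>
      if Submodule.IsPrincipal (J * 𝔞.1) ∧ 𝔞.1 ≤ 𝔠 then F (J * 𝔞.1) else 0) ⊆ Set.range θ := by
    intro 𝔞 h𝔞
    have hc : Submodule.IsPrincipal (J * 𝔞.1) ∧ 𝔞.1 ≤ 𝔠 := by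
      by_contra hcon
      exact h𝔞 (if_neg hcon)
    let 𝔟 : PrI (J * 𝔠) := ⟨J * 𝔞.1, mul_ne_zero hJ 𝔞.2, hc.1, (hle _).mpr hc.2⟩
    refine ⟨𝔟, Subtype.ext ?_⟩
    have h1 : J * θ₀ 𝔟 = J * 𝔞.1 := hθ₀ 𝔟
    exact mul_left_cancel₀ hJ h1
  rw [← hθ.tsum_eq hsupp]
  refine tsum_congr fun 𝔟 => ?_
  rw [if_pos (hcond 𝔟)]
  congr 1
  exact (hθ₀ 𝔟).symm

/-- coset representatives -/
lemma exists_coset_equiv (J 𝔮 : Ideal (𝓞 K)) (h𝔮 : 𝔮.IsMaximal) (π : 𝓞 K) (hπJ : π ∈ J)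
    (hπ : π ∉ 𝔮) (σ : (𝓞 K ⧸ 𝔮) → 𝓞 K) (hσ : ∀ q, Ideal.Quotient.mk 𝔮 (σ q) = q) :
    ∃ e : (𝓞 K ⧸ 𝔮) × (J * 𝔮 : Ideal (𝓞 K)) ≃ J,
      ∀ p, (e p : 𝓞 K) = (p.2 : 𝓞 K) + π * σ p.1 := by
  have hcop : IsCoprime J 𝔮 := by
    rw [Ideal.isCoprime_iff_sup_eq]
    by_contra hcon
    have h1 : J ≤ 𝔮 := by
      have := h𝔮.eq_of_le hcon le_sup_right
      rw [this]
      exact le_sup_left
    exact hπ (h1 hπJ)
  have hinf : J * 𝔮 = J ⊓ 𝔮 := Ideal.mul_eq_inf_of_isCoprime hcop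
  haveI := h𝔮.isPrime
  let f : (𝓞 K ⧸ 𝔮) × (J * 𝔮 : Ideal (𝓞 K)) → J := fun p =>
    ⟨(p.2 : 𝓞 K) + π * σ p.1, J.add_mem (Ideal.mul_le_left p.2.2) (J.mul_mem_right _ hπJ)⟩
  have hf : ∀ p, (f p : 𝓞 K) = (p.2 : 𝓞 K) + π * σ p.1 := fun p => rfl
  have hinj : Function.Injective f := by
    rintro ⟨q, x⟩ ⟨q', x'⟩ h
    have h1 : (x : 𝓞 K) + π * σ q = (x' : 𝓞 K) + π * σ q' := congrArg Subtype.val h
    have h2 : π * (σ q - σ q') ∈ 𝔮 := by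
      have h3 : π * (σ q - σ q') = (x' : 𝓞 K) - x := by
        rw [mul_sub]
        linear_combination h1
      rw [h3]
      exact 𝔮.sub_mem (Ideal.mul_le_right x'.2) (Ideal.mul_le_right x.2)
    have h3 : σ q - σ q' ∈ 𝔮 :=
      (Ideal.IsPrime.mem_or_mem inferInstance h2).resolve_left hπ
    have h4 : q = q' := by
      rw [← hσ q, ← hσ q']
      exact Ideal.Quotient.eq.mpr h3
    subst h4
    have h5 : x = x' := Subtype.ext (add_right_cancel h1)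
    rw [h5]
  have hsurj : Function.Surjective f := by
    intro y
    letI : Field (𝓞 K ⧸ 𝔮) := Ideal.Quotient.field 𝔮
    have hπ' : Ideal.Quotient.mk 𝔮 π ≠ 0 := by
      rw [Ne, Ideal.Quotient.eq_zero_iff_mem]
      exact hπ
    obtain ⟨q, hq⟩ : ∃ q : 𝓞 K ⧸ 𝔮, Ideal.Quotient.mk 𝔮 π * q = Ideal.Quotient.mk 𝔮 (y : 𝓞 K) :=
      ⟨(Ideal.Quotient.mk 𝔮 π)⁻¹ * Ideal.Quotient.mk 𝔮 (y : 𝓞 K), mul_inv_cancel_left₀ hπ' _⟩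
    have h1 : Ideal.Quotient.mk 𝔮 (y : 𝓞 K) = Ideal.Quotient.mk 𝔮 (π * σ q) := by
      rw [map_mul, hσ, hq]
    have h2 : (y : 𝓞 K) - π * σ q ∈ J * 𝔮 := by
      rw [hinf]
      exact ⟨J.sub_mem y.2 (J.mul_mem_right _ hπJ), Ideal.Quotient.eq.mp h1⟩
    refine ⟨(q, ⟨_, h2⟩), Subtype.ext ?_⟩
    rw [hf]
    exact sub_add_cancel _ _
  exact ⟨Equiv.ofBijective f ⟨hinj, hsurj⟩, fun p => rfl⟩

variable {m : ℕ} [NeZero m]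

/-- term of the twisted Dirichlet series -/
noncomputable def tm (χ : DirichletCharacter ℂ m) (s : ℝ) (𝔞 : Ideal (𝓞 K)) : ℂ :=
  χ ((Ideal.absNorm 𝔞 : ℕ) : ZMod m) * (((Ideal.absNorm 𝔞 : ℝ) ^ (-s) : ℝ) : ℂ)

lemma exp_lN {x : 𝓞 K} (hx : x ≠ 0) (s : ℝ) :
    Real.exp (-s * lN (x : K)) = (Ideal.absNorm (Ideal.span {x}) : ℝ) ^ (-s) := by
  have h0 : (0 : ℝ) < (Ideal.absNorm (Ideal.span {x}) : ℝ) := by
    have : Ideal.absNorm (Ideal.span {x}) ≠ 0 := by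
      rw [Ne, Ideal.absNorm_eq_zero_iff, Ideal.span_singleton_eq_bot]
      exact hx
    exact_mod_cast Nat.pos_of_ne_zero this
  rw [Real.rpow_def_of_pos h0]
  congr 1
  have h1 : lN (x : K) = Real.log (Ideal.absNorm (Ideal.span {x}) : ℝ) := by
    unfold lN
    congr 1
    have h2 : (Algebra.norm ℚ (x : K)) = ((Algebra.norm ℤ x : ℤ) : ℚ) := (Algebra.coe_norm_int x).symm
    rw [h2, Ideal.absNorm_span_singleton]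
    have h4 : (((Algebra.norm ℤ x : ℤ) : ℚ) : ℝ) = ((Algebra.norm ℤ x : ℤ) : ℝ) := by norm_cast
    rw [h4, ← Int.cast_abs, Int.abs_eq_natAbs]
    simp
  rw [h1]
  ring

/-- the periodic weight attached to an ideal -/
noncomputable def GG (χ : DirichletCharacter ℂ m) (N : ℕ) (x : 𝓞 K) : ℂ :=
  χ (((Algebra.norm ℤ x).natAbs / N : ℕ) : ZMod m)

lemma norm_GG_le (χ : DirichletCharacter ℂ m) (N : ℕ) (x : 𝓞 K) : ‖GG χ N x‖ ≤ 1 := by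
  unfold GG
  exact χ.norm_le_one _

lemma GG_periodic (χ : DirichletCharacter ℂ m) {J : Ideal (𝓞 K)} (hJ : J ≠ ⊥) {x : 𝓞 K}
    (hxJ : x ∈ J) (hx0 : x ≠ 0) (z : 𝓞 K)
    (hw : ∀ w : InfinitePlace K,
      w ((((m * Ideal.absNorm J : ℕ) : 𝓞 K) * z : 𝓞 K) : K) < w (x : K)) :
    GG χ (Ideal.absNorm J) (x + ((m * Ideal.absNorm J : ℕ) : 𝓞 K) * z) =
      GG χ (Ideal.absNorm J) x := by
  unfold GG
  congr 1
  apply natAbs_norm_congr (NeZero.ne m)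
  · rw [Ne, Ideal.absNorm_eq_zero_iff]
    exact hJ
  · have h1 : Ideal.span {x} ≤ J := by
      rw [Ideal.span_le, Set.singleton_subset_iff]; exact hxJ
    have h2 := Ideal.absNorm_dvd_absNorm_of_le h1
    rwa [Ideal.absNorm_span_singleton] at h2
  · apply norm_mul_pos_of_close hx0
    intro w
    rw [add_sub_cancel_left]
    exact hw w

/-- the ideal function attached to the weight -/
noncomputable def gg (χ : DirichletCharacter ℂ m) (N : ℕ) (s : ℝ) (𝔟 : Ideal (𝓞 K)) : ℂ :=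
  χ (((Ideal.absNorm 𝔟 / N : ℕ)) : ZMod m) * (((Ideal.absNorm 𝔟 : ℝ) ^ (-s) : ℝ) : ℂ)

lemma FF_GG (χ : DirichletCharacter ℂ m) (N : ℕ) (s : ℝ) {x : 𝓞 K} (hx : x ≠ 0) :
    FF (GG χ N) s x = gg χ N s (Ideal.span {x}) * ((pphi (x : K) : ℝ) : ℂ) := by
  rw [FF_of_ne _ s hx, exp_lN hx]
  unfold GG gg
  rw [Ideal.absNorm_span_singleton]
  push_cast
  ring

lemma gg_mul (χ : DirichletCharacter ℂ m) {J : Ideal (𝓞 K)} (hJ : J ≠ ⊥) (s : ℝ)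
    (𝔞 : Ideal (𝓞 K)) :
    gg χ (Ideal.absNorm J) s (J * 𝔞) = (((Ideal.absNorm J : ℝ) ^ (-s) : ℝ) : ℂ) * tm χ s 𝔞 := by
  have hN0 : Ideal.absNorm J ≠ 0 := by
    rw [Ne, Ideal.absNorm_eq_zero_iff]
    exact hJ
  unfold gg tm
  rw [map_mul, Nat.mul_div_cancel_left _ (Nat.pos_of_ne_zero hN0), Nat.cast_mul,
    Real.mul_rpow (Nat.cast_nonneg _) (Nat.cast_nonneg _)]
  push_cast
  ring

/-- truncated twisted sum over one ideal class -/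
noncomputable def clsum (χ : DirichletCharacter ℂ m) (J 𝔠 : Ideal (𝓞 K)) (s : ℝ) : ℂ :=
  ∑' 𝔞 : NZ K, (open scoped Classical in
    if Submodule.IsPrincipal (J * 𝔞.1) ∧ 𝔞.1 ≤ 𝔠 then tm χ s 𝔞.1 else 0)

lemma sum_FF_GG (χ : DirichletCharacter ℂ m) {J : Ideal (𝓞 K)} (hJ : J ≠ ⊥) (𝔠 : Ideal (𝓞 K))
    {s : ℝ} (hs : 1 < s) :
    ∑' x : (J * 𝔠 : Ideal (𝓞 K)), FF (GG χ (Ideal.absNorm J)) s (x : 𝓞 K) = (Nat.card (torsion K) : ℂ) *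
      ((((Ideal.absNorm J : ℝ) ^ (-s) : ℝ) : ℂ) * clsum χ J 𝔠 s) := by
  classical
  rw [sum_over_ideal (J * 𝔠) (FF (GG χ (Ideal.absNorm J)) s) (gg χ (Ideal.absNorm J) s)
    (summable_FF (norm_GG_le χ _) hs) (FF_zero _ s) (fun x hx => FF_GG χ _ s hx),
    principal_sum J 𝔠 hJ (gg χ (Ideal.absNorm J) s)]
  have h1 : ∑' 𝔞 : NZ K, (if Submodule.IsPrincipal (J * 𝔞.1) ∧ 𝔞.1 ≤ 𝔠 then
      gg χ (Ideal.absNorm J) s (J * 𝔞.1) else 0) =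
      (((Ideal.absNorm J : ℝ) ^ (-s) : ℝ) : ℂ) * clsum χ J 𝔠 s := by
    unfold clsum
    rw [← tsum_mul_left]
    refine tsum_congr fun 𝔞 => ?_
    split_ifs with h
    · exact gg_mul χ hJ s 𝔞.1
    · rw [mul_zero]
  rw [h1]

/-- The estimate in one ideal class. -/
lemma exists_class_bound (χ : DirichletCharacter ℂ m) (J 𝔮 : Ideal (𝓞 K)) (hJ : J ≠ ⊥)
    (h𝔮 : 𝔮.IsMaximal) (hm : (m : 𝓞 K) ∉ 𝔮) (hN : (Ideal.absNorm J : 𝓞 K) ∉ 𝔮) :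
    ∃ C : ℝ, ∀ s : ℝ, 1 < s → s ≤ 2 →
      ‖clsum χ J ⊤ s - (Ideal.absNorm 𝔮 : ℂ) * clsum χ J 𝔮 s‖ ≤ C := by
  classical
  have hN0 : Ideal.absNorm J ≠ 0 := by
    rw [Ne, Ideal.absNorm_eq_zero_iff]
    exact hJ
  have hNpos : 0 < Ideal.absNorm J := Nat.pos_of_ne_zero hN0
  haveI := h𝔮.isPrime
  have h𝔮0 : 𝔮 ≠ ⊥ := Ring.ne_bot_of_isMaximal_of_not_isField h𝔮 (RingOfIntegers.not_isField K)
  haveI : Finite (𝓞 K ⧸ 𝔮) := Ideal.finiteQuotientOfFreeOfNeBot 𝔮 h𝔮0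
  letI : Fintype (𝓞 K ⧸ 𝔮) := Fintype.ofFinite _
  have hπJ : ((m * Ideal.absNorm J : ℕ) : 𝓞 K) ∈ J := by
    push_cast
    exact J.mul_mem_left _ (Ideal.absNorm_mem J)
  have hπ : ((m * Ideal.absNorm J : ℕ) : 𝓞 K) ∉ 𝔮 := by
    push_cast
    intro h
    rcases Ideal.IsPrime.mem_or_mem inferInstance h with h | h
    · exact hm h
    · exact hN h
  let σ : (𝓞 K ⧸ 𝔮) → 𝓞 K := fun q => (Ideal.Quotient.mk_surjective q).choose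
  have hσ : ∀ q, Ideal.Quotient.mk 𝔮 (σ q) = q := fun q =>
    (Ideal.Quotient.mk_surjective q).choose_spec
  obtain ⟨e, he⟩ := exists_coset_equiv J 𝔮 h𝔮 _ hπJ hπ σ hσ
  obtain ⟨C, hC⟩ := exists_compare (norm_GG_le χ (Ideal.absNorm J)) (J * 𝔮) J
    (fun q : 𝓞 K ⧸ 𝔮 => ((m * Ideal.absNorm J : ℕ) : 𝓞 K) * σ q) e he
    (fun q x hx hx0 _ hw => GG_periodic χ hJ (Ideal.mul_le_left hx) hx0 (σ q) hw)
  have hw0 : (0 : ℝ) < Nat.card (torsion K) := by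
    exact_mod_cast Nat.card_pos
  refine ⟨C * (Ideal.absNorm J : ℝ) ^ (2 : ℝ) / Nat.card (torsion K), ?_⟩
  intro s hs1 hs2
  have h1 := hC s hs1 hs2
  have hJtop : ∑' x : J, FF (GG χ (Ideal.absNorm J)) s (x : 𝓞 K) =
      ∑' x : (J * ⊤ : Ideal (𝓞 K)), FF (GG χ (Ideal.absNorm J)) s (x : 𝓞 K) := by
    rw [Ideal.mul_top]
  have hcard : (Fintype.card (𝓞 K ⧸ 𝔮) : ℂ) = (Ideal.absNorm 𝔮 : ℂ) := by
    rw [Ideal.absNorm_apply, Submodule.cardQuot_apply, Nat.card_eq_fintype_card]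
  rw [hJtop, sum_FF_GG χ hJ ⊤ hs1, sum_FF_GG χ hJ 𝔮 hs1, hcard] at h1
  generalize clsum χ J ⊤ s = X at h1 ⊢
  generalize clsum χ J 𝔮 s = Y at h1 ⊢
  generalize hNg : Ideal.absNorm J = N at h1 hNpos ⊢
  have h2 : (Nat.card (torsion K) : ℂ) * ((((N : ℝ) ^ (-s) : ℝ) : ℂ) * X) -
      (Ideal.absNorm 𝔮 : ℂ) * ((Nat.card (torsion K) : ℂ) * ((((N : ℝ) ^ (-s) : ℝ) : ℂ) * Y)) =
      ((Nat.card (torsion K) : ℂ) * (((N : ℝ) ^ (-s) : ℝ) : ℂ)) *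
        (X - (Ideal.absNorm 𝔮 : ℂ) * Y) := by ring
  rw [h2, norm_mul, norm_mul, Complex.norm_real, Complex.norm_natCast,
    Real.norm_of_nonneg (Real.rpow_nonneg (Nat.cast_nonneg _) _)] at h1
  have hNR : (1 : ℝ) ≤ N := by exact_mod_cast hNpos
  have h3 : (N : ℝ) ^ (-(2 : ℝ)) ≤ (N : ℝ) ^ (-s) :=
    Real.rpow_le_rpow_of_exponent_le hNR (by linarith)
  have h4 : (0 : ℝ) < (N : ℝ) ^ (2 : ℝ) := Real.rpow_pos_of_pos (by linarith) _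
  rw [le_div_iff₀ hw0]
  have h5 : (N : ℝ) ^ (-(2 : ℝ)) * (N : ℝ) ^ (2 : ℝ) = 1 := by
    rw [← Real.rpow_add (by linarith)]
    simp
  have h6 : 0 ≤ ‖X - (Ideal.absNorm 𝔮 : ℂ) * Y‖ := norm_nonneg _
  calc ‖X - (Ideal.absNorm 𝔮 : ℂ) * Y‖ * Nat.card (torsion K)
      = ((Nat.card (torsion K) : ℝ) * (N : ℝ) ^ (-(2 : ℝ)) * ‖X - (Ideal.absNorm 𝔮 : ℂ) * Y‖) *
          (N : ℝ) ^ (2 : ℝ) := by
        calc _ = ‖X - (Ideal.absNorm 𝔮 : ℂ) * Y‖ * Nat.card (torsion K) *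
              ((N : ℝ) ^ (-(2 : ℝ)) * (N : ℝ) ^ (2 : ℝ)) := by rw [h5, mul_one]
          _ = _ := by ring
    _ ≤ ((Nat.card (torsion K) : ℝ) * (N : ℝ) ^ (-s) * ‖X - (Ideal.absNorm 𝔮 : ℂ) * Y‖) *
          (N : ℝ) ^ (2 : ℝ) := by gcongr
    _ ≤ C * (N : ℝ) ^ (2 : ℝ) := mul_le_mul_of_nonneg_right h1 h4.le

end ClassSum

end Pool.Agent.H3.Cheb
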