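import Mathlib
import Pool.Agent.H3.Cheb.ClassSum
import Pool.Agent.H3.TatePole.Zeta

open NumberField NumberField.Units NumberField.Units.dirichletUnitTheorem Module IsDedekindDomain
open Filter Topology

namespace Pool.Agent.H3.Cheb

section Bounded

variable {K : Type*} [Field K] [NumberField K]

lemma absNorm_pos_of_ne {𝔞 : Ideal (𝓞 K)} (h : 𝔞 ≠ ⊥) : 0 < Ideal.absNorm 𝔞 := by
  apply Nat.pos_of_ne_zero
  rw [Ne, Ideal.absNorm_eq_zero_iff]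
  exact h

lemma summable_ideals {s : ℝ} (hs : 1 < s) :
    Summable (fun 𝔞 : NZ K => (Ideal.absNorm 𝔞.1 : ℝ) ^ (-s)) := by
  have h1 := TatePole.eventually_summable_pos K
  have h2 : ∀ᶠ t : ℝ in 𝓝[>] 1, t < s := by
    have : Set.Iio s ∈ 𝓝 (1 : ℝ) := Iio_mem_nhds hs
    exact mem_nhdsWithin_of_mem_nhds this
  obtain ⟨t, ⟨⟨h3, _⟩, h5⟩, h6⟩ := ((h1.and h2).and self_mem_nhdsWithin).exists
  have h6' : 1 < t := h6
  have h7 := TatePole.tsum_normWeight K t h3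
  have h8 : Summable (fun 𝔞 : NZ K => (Ideal.absNorm 𝔞.1 : ℝ) ^ (-t)) := by
    have h9 : ∑' I : NZ K, ENNReal.ofReal ((Ideal.absNorm I.1 : ℝ) ^ (-t)) ≠ ⊤ := by
      have : ∑' I : NZ K, ENNReal.ofReal ((Ideal.absNorm I.1 : ℝ) ^ (-t)) =
        ENNReal.ofReal (dedekindZeta K t).re := h7
      rw [this]
      exact ENNReal.ofReal_ne_top
    have h10 := ENNReal.summable_toReal h9
    refine h10.congr fun 𝔞 => ?_
    rw [ENNReal.toReal_ofReal (Real.rpow_nonneg (Nat.cast_nonneg _) _)]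
  refine Summable.of_nonneg_of_le (fun 𝔞 => Real.rpow_nonneg (Nat.cast_nonneg _) _)
    (fun 𝔞 => ?_) h8
  have h11 : (1 : ℝ) ≤ Ideal.absNorm 𝔞.1 := by exact_mod_cast absNorm_pos_of_ne 𝔞.2
  exact Real.rpow_le_rpow_of_exponent_le h11 (by linarith)

variable {m : ℕ} [NeZero m]

lemma norm_tm_le (χ : DirichletCharacter ℂ m) (s : ℝ) (𝔞 : Ideal (𝓞 K)) :
    ‖tm χ s 𝔞‖ ≤ (Ideal.absNorm 𝔞 : ℝ) ^ (-s) := by
  unfold tm
  rw [norm_mul, Complex.norm_real, Real.norm_of_nonneg (Real.rpow_nonneg (Nat.cast_nonneg _) _)]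
  calc ‖χ ((Ideal.absNorm 𝔞 : ℕ) : ZMod m)‖ * (Ideal.absNorm 𝔞 : ℝ) ^ (-s) ≤
        1 * (Ideal.absNorm 𝔞 : ℝ) ^ (-s) :=
        mul_le_mul_of_nonneg_right (χ.norm_le_one _) (Real.rpow_nonneg (Nat.cast_nonneg _) _)
    _ = _ := one_mul _

lemma summable_tm (χ : DirichletCharacter ℂ m) {s : ℝ} (hs : 1 < s) :
    Summable (fun 𝔞 : NZ K => tm χ s 𝔞.1) :=
  Summable.of_norm_bounded (summable_ideals hs) fun 𝔞 => norm_tm_le χ s 𝔞.1

lemma tm_mul (χ : DirichletCharacter ℂ m) (s : ℝ) (𝔞 𝔟 : Ideal (𝓞 K)) :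
    tm χ s (𝔞 * 𝔟) = tm χ s 𝔞 * tm χ s 𝔟 := by
  unfold tm
  rw [map_mul, Nat.cast_mul, map_mul, Nat.cast_mul,
    Real.mul_rpow (Nat.cast_nonneg _) (Nat.cast_nonneg _)]
  push_cast
  ring

/-- the twisted Dirichlet series over all nonzero ideals -/
noncomputable def LL (K : Type*) [Field K] [NumberField K] (χ : DirichletCharacter ℂ m) (s : ℝ) : ℂ :=
  ∑' 𝔞 : NZ K, tm χ s 𝔞.1

lemma sum_multiples (χ : DirichletCharacter ℂ m) (𝔮 : Ideal (𝓞 K)) (h𝔮 : 𝔮 ≠ ⊥) (s : ℝ) :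
    ∑' 𝔞 : NZ K, (open scoped Classical in if 𝔞.1 ≤ 𝔮 then tm χ s 𝔞.1 else 0) =
      tm χ s 𝔮 * LL K χ s := by
  classical
  let θ : NZ K → NZ K := fun 𝔟 => ⟨𝔮 * 𝔟.1, mul_ne_zero h𝔮 𝔟.2⟩
  have hθ : Function.Injective θ := by
    intro 𝔟 𝔟' h
    have h1 : 𝔮 * 𝔟.1 = 𝔮 * 𝔟'.1 := congrArg Subtype.val h
    exact Subtype.ext (mul_left_cancel₀ h𝔮 h1)
  have hsupp : Function.support (fun 𝔞 : NZ K => if 𝔞.1 ≤ 𝔮 then tm χ s 𝔞.1 else 0) ⊆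
      Set.range θ := by
    intro 𝔞 h𝔞
    have hc : 𝔞.1 ≤ 𝔮 := by
      by_contra hcon
      exact h𝔞 (if_neg hcon)
    obtain ⟨𝔟, h𝔟⟩ := Ideal.dvd_iff_le.mpr hc
    refine ⟨⟨𝔟, ?_⟩, Subtype.ext h𝔟.symm⟩
    rintro rfl
    exact 𝔞.2 (by rw [h𝔟, Ideal.mul_bot])
  rw [← hθ.tsum_eq hsupp]
  unfold LL
  rw [← tsum_mul_left]
  refine tsum_congr fun 𝔟 => ?_
  have h1 : (θ 𝔟).1 = 𝔮 * 𝔟.1 := rfl
  rw [h1, if_pos Ideal.mul_le_left, tm_mul]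

lemma class_aux (J A : nonZeroDivisors (Ideal (𝓞 K))) :
    Submodule.IsPrincipal ((J : Ideal (𝓞 K)) * (A : Ideal (𝓞 K))) ↔
      ClassGroup.mk0 A = (ClassGroup.mk0 J)⁻¹ := by
  have h1 := ClassGroup.mk0_eq_one_iff (R := 𝓞 K) (J * A).2
  rw [Subtype.coe_eta, map_mul, Submonoid.coe_mul] at h1
  rw [← h1, mul_eq_one_iff_eq_inv']

/-- **Boundedness of twisted series near `s = 1`.** -/
theorem LL_bounded (χ : DirichletCharacter ℂ m)
    (h : {v : HeightOneSpectrum (𝓞 K) | χ ((Ideal.absNorm v.asIdeal : ℕ) : ZMod m) ≠ 1}.Infinite) :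
    ∃ C : ℝ, ∀ᶠ s : ℝ in 𝓝[>] 1, ‖LL K χ s‖ ≤ C := by
  classical
  -- representatives of inverse classes
  have hJ : ∀ c : ClassGroup (𝓞 K), ∃ J : Ideal (𝓞 K), J ≠ ⊥ ∧
      ∀ 𝔞 : NZ K, Submodule.IsPrincipal (J * 𝔞.1) ↔
        ClassGroup.mk0 ⟨𝔞.1, mem_nonZeroDivisors_of_ne_zero 𝔞.2⟩ = c := by
    intro c
    obtain ⟨J, hJ⟩ := ClassGroup.mk0_surjective c⁻¹
    refine ⟨J.1, nonZeroDivisors.ne_zero J.2, fun 𝔞 => ?_⟩
    have h1 := class_aux J ⟨𝔞.1, mem_nonZeroDivisors_of_ne_zero 𝔞.2⟩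
    rw [hJ, inv_inv] at h1
    exact h1
  choose J hJ0 hJp using hJ
  -- choice of the prime
  have hfin : {v : HeightOneSpectrum (𝓞 K) | (m : 𝓞 K) ∈ v.asIdeal ∨
      ∃ c, (Ideal.absNorm (J c) : 𝓞 K) ∈ v.asIdeal}.Finite := by
    have h1 : ∀ a : ℕ, a ≠ 0 → {v : HeightOneSpectrum (𝓞 K) | (a : 𝓞 K) ∈ v.asIdeal}.Finite := by
      intro a ha
      have hI : Ideal.span {(a : 𝓞 K)} ≠ ⊥ := by
        rw [Ne, Ideal.span_singleton_eq_bot]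
        exact_mod_cast ha
      refine (Ideal.finite_factors hI).subset fun v hv => ?_
      change v.asIdeal ∣ _
      rw [Ideal.dvd_span_singleton]
      exact hv
    have h2 : {v : HeightOneSpectrum (𝓞 K) | (m : 𝓞 K) ∈ v.asIdeal ∨
        ∃ c, (Ideal.absNorm (J c) : 𝓞 K) ∈ v.asIdeal} =
        {v : HeightOneSpectrum (𝓞 K) | (m : 𝓞 K) ∈ v.asIdeal} ∪
        ⋃ c, {v : HeightOneSpectrum (𝓞 K) | (Ideal.absNorm (J c) : 𝓞 K) ∈ v.asIdeal} := by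
      ext v
      simp
    rw [h2]
    exact (h1 m (NeZero.ne m)).union (Set.finite_iUnion fun c =>
      h1 _ (absNorm_pos_of_ne (hJ0 c)).ne')
  obtain ⟨v, hvχ, hv⟩ := (h.sdiff hfin).nonempty
  have hmv : (m : 𝓞 K) ∉ v.asIdeal := fun hcon => hv (Or.inl hcon)
  have hJv : ∀ c, (Ideal.absNorm (J c) : 𝓞 K) ∉ v.asIdeal := fun c hcon => hv (Or.inr ⟨c, hcon⟩)
  have hb : ∀ c, ∃ C : ℝ, ∀ s : ℝ, 1 < s → s ≤ 2 →
      ‖clsum χ (J c) ⊤ s - (Ideal.absNorm v.asIdeal : ℂ) * clsum χ (J c) v.asIdeal s‖ ≤ C := fun c =>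
    exists_class_bound χ (J c) v.asIdeal (hJ0 c) v.isMaximal hmv (hJv c)
  choose C hC using hb
  -- sum over classes
  have hsum : ∀ 𝔠 : Ideal (𝓞 K), ∀ s : ℝ, 1 < s → ∑ c, clsum χ (J c) 𝔠 s =
      ∑' 𝔞 : NZ K, (if 𝔞.1 ≤ 𝔠 then tm χ s 𝔞.1 else 0) := by
    intro 𝔠 s hs
    unfold clsum
    have hs' := summable_tm (K := K) χ hs
    rw [← Summable.tsum_finsetSum]
    · refine tsum_congr fun 𝔞 => ?_
      rw [Finset.sum_eq_single (ClassGroup.mk0 ⟨𝔞.1, mem_nonZeroDivisors_of_ne_zero 𝔞.2⟩)]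
      · have h1 := (hJp (ClassGroup.mk0 ⟨𝔞.1, mem_nonZeroDivisors_of_ne_zero 𝔞.2⟩) 𝔞).mpr rfl
        by_cases h2 : 𝔞.1 ≤ 𝔠
        · rw [if_pos ⟨h1, h2⟩, if_pos h2]
        · rw [if_neg (fun hc => h2 hc.2), if_neg h2]
      · intro c _ hc
        rw [if_neg]
        rintro ⟨h1, _⟩
        exact hc (((hJp c 𝔞).mp h1).symm)
      · intro hc
        exact absurd (Finset.mem_univ _) hc
    · intro c _
      refine Summable.of_norm_bounded hs'.norm fun 𝔞 => ?_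
      split_ifs
      · exact le_rfl
      · rw [norm_zero]; exact norm_nonneg _
  have hmain : ∀ s : ℝ, 1 < s → s ≤ 2 →
      ‖LL K χ s * (1 - (Ideal.absNorm v.asIdeal : ℂ) * tm χ s v.asIdeal)‖ ≤ ∑ c, C c := by
    intro s hs1 hs2
    have h1 : LL K χ s * (1 - (Ideal.absNorm v.asIdeal : ℂ) * tm χ s v.asIdeal) =
        ∑ c, (clsum χ (J c) ⊤ s - (Ideal.absNorm v.asIdeal : ℂ) * clsum χ (J c) v.asIdeal s) := by
      rw [Finset.sum_sub_distrib, ← Finset.mul_sum, hsum ⊤ s hs1, hsum v.asIdeal s hs1,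
        sum_multiples χ v.asIdeal v.ne_bot s]
      have h2 : ∑' 𝔞 : NZ K, (if 𝔞.1 ≤ (⊤ : Ideal (𝓞 K)) then tm χ s 𝔞.1 else 0) = LL K χ s := by
        unfold LL
        exact tsum_congr fun 𝔞 => by rw [if_pos le_top]
      rw [h2]
      ring
    rw [h1]
    exact (norm_sum_le _ _).trans (Finset.sum_le_sum fun c _ => hC c s hs1 hs2)
  -- the factor tends to a nonzero limit
  set q : ℝ := (Ideal.absNorm v.asIdeal : ℝ) with hq
  have hq0 : 0 < q := by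
    rw [hq]
    exact_mod_cast absNorm_pos_of_ne v.ne_bot
  set z : ℂ := χ ((Ideal.absNorm v.asIdeal : ℕ) : ZMod m) with hz
  have hlim : Tendsto (fun s : ℝ => ‖1 - (Ideal.absNorm v.asIdeal : ℂ) * tm χ s v.asIdeal‖)
      (𝓝[>] 1) (𝓝 ‖1 - z‖) := by
    have h1 : ∀ s : ℝ, (Ideal.absNorm v.asIdeal : ℂ) * tm χ s v.asIdeal =
        z * ((q * q ^ (-s) : ℝ) : ℂ) := by
      intro s
      unfold tm
      rw [← hz, ← hq]
      have : (Ideal.absNorm v.asIdeal : ℂ) = ((q : ℝ) : ℂ) := by rw [hq]; push_cast; rfl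
      rw [this]
      push_cast
      ring
    have h2 : Tendsto (fun s : ℝ => q * q ^ (-s)) (𝓝[>] 1) (𝓝 1) := by
      have h3 : Continuous (fun s : ℝ => q * q ^ (-s)) := by
        refine continuous_const.mul ?_
        exact Continuous.rpow continuous_const continuous_neg (fun s => Or.inl hq0.ne')
      have h4 := (h3.tendsto 1).mono_left (nhdsWithin_le_nhds (s := Set.Ioi 1))
      have h5 : q * q ^ (-(1 : ℝ)) = 1 := by
        rw [Real.rpow_neg_one]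
        exact mul_inv_cancel₀ hq0.ne'
      rwa [h5] at h4
    have h3 : Tendsto (fun s : ℝ => (1 : ℂ) - z * ((q * q ^ (-s) : ℝ) : ℂ)) (𝓝[>] 1)
        (𝓝 (1 - z * ((1 : ℝ) : ℂ))) :=
      tendsto_const_nhds.sub (tendsto_const_nhds.mul
        ((Complex.continuous_ofReal.tendsto 1).comp h2))
    have h4 := h3.norm
    rw [Complex.ofReal_one, mul_one] at h4
    refine h4.congr fun s => ?_
    rw [h1]
  have hz1 : 0 < ‖1 - z‖ := by
    rw [norm_pos_iff, sub_ne_zero]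
    exact fun hcon => hvχ hcon.symm
  refine ⟨(∑ c, C c) / (‖1 - z‖ / 2), ?_⟩
  have hev1 : ∀ᶠ s : ℝ in 𝓝[>] 1, ‖1 - z‖ / 2 <
      ‖1 - (Ideal.absNorm v.asIdeal : ℂ) * tm χ s v.asIdeal‖ :=
    hlim.eventually_const_lt (by linarith)
  have hev2 : ∀ᶠ s : ℝ in 𝓝[>] 1, s ≤ 2 :=
    mem_nhdsWithin_of_mem_nhds (Iic_mem_nhds (by norm_num))
  filter_upwards [hev1, hev2, self_mem_nhdsWithin] with s h1 h2 h3
  have h4 := hmain s h3 h2
  rw [norm_mul] at h4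
  rw [le_div_iff₀ (by linarith)]
  refine le_trans ?_ h4
  exact mul_le_mul_of_nonneg_left h1.le (norm_nonneg _)

end Bounded

end Pool.Agent.H3.Cheb
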