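import Mathlib
import Pool.Agent.H3.Cheb.Bounded
import Pool.Agent.H3.TatePole.EulerLog

open NumberField Module IsDedekindDomain Filter Topology

namespace Pool.Agent.H3.Cheb

open TatePole

section EulerC

variable {K : Type*} [Field K] [NumberField K]

/-- nonzero ideals with prime factors in `T`, as a set of nonzero ideals -/
lemma tsum_idealsOver_complex (w : Ideal (𝓞 K) → ℂ) (h1 : w 1 = 1)
    (hmul : ∀ I J, w (I * J) = w I * w J) (hsum : Summable (fun 𝔞 : NZ K => w 𝔞.1))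
    (hlt : ∀ v : HeightOneSpectrum (𝓞 K), ‖w v.asIdeal‖ < 1)
    (T : Finset (HeightOneSpectrum (𝓞 K))) :
    ∑' I : idealsOver T, w I = ∏ v ∈ T, (1 - w v.asIdeal)⁻¹ := by
  classical
  have hsT : ∀ T : Finset (HeightOneSpectrum (𝓞 K)), Summable (fun I : idealsOver T => w I) := by
    intro T
    exact hsum.comp_injective (i := fun I : idealsOver T => (⟨I.1, I.2.1⟩ : NZ K))
      (fun I J h => Subtype.ext (congrArg (fun z : NZ K => z.1) h))
  have hpow : ∀ (I : Ideal (𝓞 K)) (n : ℕ), w (I ^ n) = w I ^ n := by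
    intro I n
    induction n with
    | zero => rw [pow_zero, pow_zero, h1]
    | succ n ih => rw [pow_succ, pow_succ, hmul, ih]
  induction T using Finset.induction_on with
  | empty =>
    rw [idealsOver_empty]
    have : w ⊤ = 1 := by rw [← Ideal.one_eq_top]; exact h1
    simp [this]
  | insert v T hv ih =>
    obtain ⟨e, he⟩ := bij_insert hv
    have h2 : ∀ c : ℕ × idealsOver T, w (e c : Ideal (𝓞 K)) = w v.asIdeal ^ c.1 * w c.2 := by
      intro c
      rw [he, hmul, hpow]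
    have h3 : Summable (fun c : ℕ × idealsOver T => w v.asIdeal ^ c.1 * w c.2) := by
      have := e.summable_iff.mpr (hsT (insert v T))
      exact this.congr h2
    rw [Finset.prod_insert hv, ← ih, ← e.tsum_eq, tsum_congr h2, h3.tsum_prod,
      ← tsum_geometric_of_norm_lt_one (hlt v), ← tsum_mul_right]
    refine tsum_congr fun n => ?_
    rw [← tsum_mul_left]

lemma hasProd_euler (w : Ideal (𝓞 K) → ℂ) (h1 : w 1 = 1)
    (hmul : ∀ I J, w (I * J) = w I * w J) (hsum : Summable (fun 𝔞 : NZ K => w 𝔞.1))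
    (hlt : ∀ v : HeightOneSpectrum (𝓞 K), ‖w v.asIdeal‖ < 1) :
    HasProd (fun v : HeightOneSpectrum (𝓞 K) => (1 - w v.asIdeal)⁻¹) (∑' 𝔞 : NZ K, w 𝔞.1) := by
  classical
  have h2 : ∀ T : Finset (HeightOneSpectrum (𝓞 K)), ∏ v ∈ T, (1 - w v.asIdeal)⁻¹ =
      ∑' 𝔞 : NZ K, (if 𝔞.1 ∈ idealsOver T then w 𝔞.1 else 0) := by
    intro T
    rw [← tsum_idealsOver_complex w h1 hmul hsum hlt T]
    let θ : idealsOver T → NZ K := fun I => ⟨I.1, I.2.1⟩
    have hθ : Function.Injective θ := fun I J h => Subtype.ext (congrArg (fun z : NZ K => z.1) h)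
    have hsupp : Function.support (fun 𝔞 : NZ K => if 𝔞.1 ∈ idealsOver T then w 𝔞.1 else 0) ⊆
        Set.range θ := by
      intro 𝔞 h𝔞
      have hc : 𝔞.1 ∈ idealsOver T := by
        by_contra hcon
        exact h𝔞 (if_neg hcon)
      exact ⟨⟨𝔞.1, hc⟩, rfl⟩
    rw [← hθ.tsum_eq hsupp]
    refine tsum_congr fun I => ?_
    rw [if_pos I.2]
  have h3 : Tendsto (fun T : Finset (HeightOneSpectrum (𝓞 K)) =>
      ∑' 𝔞 : NZ K, (if 𝔞.1 ∈ idealsOver T then w 𝔞.1 else 0)) atTop (𝓝 (∑' 𝔞 : NZ K, w 𝔞.1)) := by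
    refine tendsto_tsum_of_dominated_convergence (bound := fun 𝔞 : NZ K => ‖w 𝔞.1‖) hsum.norm ?_ ?_
    · intro 𝔞
      have hfin := Ideal.finite_factors 𝔞.2
      have h4 : ∀ᶠ T : Finset (HeightOneSpectrum (𝓞 K)) in atTop, 𝔞.1 ∈ idealsOver T := by
        filter_upwards [eventually_ge_atTop hfin.toFinset] with T hT
        refine ⟨𝔞.2, fun v hv => hT ?_⟩
        rw [Set.Finite.mem_toFinset]
        exact hv
      refine tendsto_const_nhds.congr' ?_
      filter_upwards [h4] with T hT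
      rw [if_pos hT]
    · refine Eventually.of_forall fun T 𝔞 => ?_
      split_ifs
      · exact le_rfl
      · rw [norm_zero]; exact norm_nonneg _
  unfold HasProd
  rw [SummationFilter.unconditional_filter]
  exact h3.congr fun T => (h2 T).symm

variable {m : ℕ} [NeZero m]

/-- logarithm of the twisted series -/
lemma exists_log_LL (χ : DirichletCharacter ℂ m) :
    ∃ C : ℝ, ∀ t : ℝ, 1 < t → |Real.log ‖LL K χ t‖ -
      wsum (fun v : HeightOneSpectrum (𝓞 K) => (χ ((Ideal.absNorm v.asIdeal : ℕ) : ZMod m)).re) t| ≤ C := by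
  classical
  obtain ⟨C, hC⟩ := euler_log_bound (K := K) 1
    (fun v : HeightOneSpectrum (𝓞 K) =>
      {χ ((Ideal.absNorm v.asIdeal : ℕ) : ZMod m) * ((nrm v : ℝ) : ℂ)}) (fun v => by simp) (by
      intro v z hz
      rw [Multiset.mem_singleton] at hz
      rw [hz, norm_mul, Complex.norm_real, Real.norm_of_nonneg (nrm_pos v).le]
      calc ‖χ ((Ideal.absNorm v.asIdeal : ℕ) : ZMod m)‖ * nrm v ≤ 1 * nrm v :=
            mul_le_mul_of_nonneg_right (χ.norm_le_one _) (nrm_pos v).le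
        _ = nrm v := one_mul _)
  refine ⟨C, fun t ht => ?_⟩
  have h1 := hC (t + 1) (by linarith)
  rw [add_sub_cancel_right] at h1
  have h2 : (fun v : HeightOneSpectrum (𝓞 K) =>
      (({χ ((Ideal.absNorm v.asIdeal : ℕ) : ZMod m) * ((nrm v : ℝ) : ℂ)} : Multiset ℂ).sum).re /
        nrm v) = fun v => (χ ((Ideal.absNorm v.asIdeal : ℕ) : ZMod m)).re := by
    funext v
    rw [Multiset.sum_singleton, Complex.re_mul_ofReal, mul_div_assoc, div_self (nrm_pos v).ne',
      mul_one]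
  rw [h2] at h1
  have h3 : ∏' v : HeightOneSpectrum (𝓞 K),
      ((({χ ((Ideal.absNorm v.asIdeal : ℕ) : ZMod m) * ((nrm v : ℝ) : ℂ)} : Multiset ℂ).map
        fun z => 1 - z * ((Ideal.absNorm v.asIdeal : ℂ) ^ (-((t + 1 : ℝ) : ℂ)))).prod)⁻¹ =
      LL K χ t := by
    have h4 : ∀ v : HeightOneSpectrum (𝓞 K),
        ((({χ ((Ideal.absNorm v.asIdeal : ℕ) : ZMod m) * ((nrm v : ℝ) : ℂ)} : Multiset ℂ).map
        fun z => 1 - z * ((Ideal.absNorm v.asIdeal : ℂ) ^ (-((t + 1 : ℝ) : ℂ)))).prod)⁻¹ =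
        (1 - tm χ t v.asIdeal)⁻¹ := by
      intro v
      rw [Multiset.map_singleton, Multiset.prod_singleton]
      congr 2
      unfold tm
      rw [mul_assoc]
      congr 1
      have h5 : ((Ideal.absNorm v.asIdeal : ℂ) ^ (-((t + 1 : ℝ) : ℂ))) =
          (((Ideal.absNorm v.asIdeal : ℝ) ^ (-(t + 1)) : ℝ) : ℂ) := by
        rw [Complex.ofReal_cpow (Nat.cast_nonneg _)]
        push_cast
        rfl
      rw [h5, ← Complex.ofReal_mul]
      congr 1
      have h6 := nrm_pos v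
      unfold nrm at h6 ⊢
      rw [← Real.rpow_one_add' h6.le (by linarith)]
      congr 1
      ring
    rw [tprod_congr h4]
    refine (hasProd_euler (fun 𝔞 => tm χ t 𝔞) ?_ (tm_mul χ t) (summable_tm χ ht) ?_).tprod_eq
    · unfold tm
      simp
    · intro v
      refine (norm_tm_le χ t v.asIdeal).trans_lt ?_
      exact Real.rpow_lt_one_of_one_lt_of_neg (by
        have := two_le_nrm v
        unfold nrm at this
        linarith) (by linarith)
  rw [h3] at h1
  exact h1

end EulerC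

end Pool.Agent.H3.Cheb
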