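import Mathlib
import Pool.Agent.H3.TatePole.Orbits
import Pool.Agent.H3.Cheb.EulerC

open NumberField IsDedekindDomain Filter Topology

namespace Pool.Agent.H3.Cheb

open TatePole

section Mu

variable {k : Type*} [Field k] [NumberField k]

lemma hasMean_zero_of_finite {u : HeightOneSpectrum (𝓞 k) → ℝ} (hu : Bdd u)
    (hfin : {v | u v ≠ 0}.Finite) : HasMean (𝓝[>] 1) u 0 := by
  have h0 : HasMean (𝓝[>] 1) (fun _ : HeightOneSpectrum (𝓞 k) => (0 : ℝ)) 0 := by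
    simpa using (hasMean_one (k := k)).const_mul 0
  refine hasMean_congr (Bdd.const 0) hu ?_ h0
  refine hfin.subset fun v hv => ?_
  intro h
  exact hv h.symm

/-- finitely many exceptions do not matter -/
lemma hasMean_congr_finite {𝓕 : Filter ℝ} (h𝓕 : 𝓕 ≤ 𝓝[>] 1) {u w : HeightOneSpectrum (𝓞 k) → ℝ}
    (hbu : Bdd u) (hbw : Bdd w) (hfin : {v | u v ≠ w v}.Finite) {m : ℝ} (hu : HasMean 𝓕 u m) :
    HasMean 𝓕 w m := by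
  have hd : Bdd (fun v => w v + (-1) * u v) := hbw.add ((Bdd.const (-1)).mul hbu)
  have h1 : HasMean (𝓝[>] 1) (fun v => w v + (-1) * u v) 0 := by
    refine hasMean_zero_of_finite hd (hfin.subset fun v hv => ?_)
    intro h
    apply hv
    rw [h]
    ring
  have h2 := hu.add h𝓕 hbu hd (h1.mono h𝓕)
  rw [add_zero] at h2
  convert h2 using 2
  ring

/-- existence of means along ultrafilters -/
lemma exists_mean_ultra (𝒰 : Ultrafilter ℝ) (h𝒰 : (𝒰 : Filter ℝ) ≤ 𝓝[>] 1)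
    {u : HeightOneSpectrum (𝓞 k) → ℝ} (hu : Bdd u) : ∃ β : ℝ, HasMean (𝒰 : Filter ℝ) u β := by
  obtain ⟨B, hB⟩ := hu
  have hB' : ∀ v, |u v| ≤ |B| := fun v => (hB v).trans (le_abs_self B)
  have hbound : ∀ᶠ s in (𝒰 : Filter ℝ), wsum u s / Lam s ∈ Set.Icc (-(2 * |B|)) (2 * |B|) := by
    have e1 : ∀ᶠ s : ℝ in 𝓝[>] 1, (1 : ℝ) < s := self_mem_nhdsWithin
    have e2 : ∀ᶠ s : ℝ in 𝓝[>] 1, 0 < Lam s := Lam_tendsto.eventually_gt_atTop 0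
    have e3 : ∀ᶠ s : ℝ in 𝓝[>] 1, wsum (fun _ : HeightOneSpectrum (𝓞 k) => (1 : ℝ)) s / Lam s < 2 :=
      (hasMean_one (k := k)).eventually_lt_const (by norm_num)
    have e4 : ∀ᶠ s : ℝ in 𝓝[>] 1, wsum u s / Lam s ∈ Set.Icc (-(2 * |B|)) (2 * |B|) := by
      filter_upwards [e1, e2, e3] with s h1 h2 h3
      have hub : Bdd u := ⟨|B|, hB'⟩
      have hB0 := abs_nonneg B
      have h4 : wsum u s ≤ |B| * wsum (fun _ : HeightOneSpectrum (𝓞 k) => (1 : ℝ)) s := by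
        rw [← wsum_const_mul]
        refine wsum_mono hub ((Bdd.const |B|).mul (Bdd.const 1)) (fun v => ?_) h1
        rw [mul_one]; exact (abs_le.mp (hB' v)).2
      have h5 : (-|B|) * wsum (fun _ : HeightOneSpectrum (𝓞 k) => (1 : ℝ)) s ≤ wsum u s := by
        rw [← wsum_const_mul]
        refine wsum_mono ((Bdd.const (-|B|)).mul (Bdd.const 1)) hub (fun v => ?_) h1
        rw [mul_one]; exact (abs_le.mp (hB' v)).1
      rw [div_lt_iff₀ h2] at h3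
      constructor
      · rw [le_div_iff₀ h2]
        nlinarith
      · rw [div_le_iff₀ h2]
        nlinarith
    exact h𝒰 e4
  obtain ⟨β, _, hβ⟩ := (isCompact_Icc (a := -(2 * |B|)) (b := 2 * |B|)).ultrafilter_le_nhds
    (Ultrafilter.map (fun s => wsum u s / Lam s) 𝒰) (by
      rw [le_principal_iff]
      exact hbound)
  exact ⟨β, hβ⟩

/-- mean value along an ultrafilter -/
noncomputable def mu (𝒰 : Ultrafilter ℝ) (u : HeightOneSpectrum (𝓞 k) → ℝ) : ℝ :=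
  open scoped Classical in if h : ∃ β : ℝ, HasMean (𝒰 : Filter ℝ) u β then h.choose else 0

variable {𝒰 : Ultrafilter ℝ}

lemma mu_spec (h𝒰 : (𝒰 : Filter ℝ) ≤ 𝓝[>] 1) {u : HeightOneSpectrum (𝓞 k) → ℝ} (hu : Bdd u) :
    HasMean (𝒰 : Filter ℝ) u (mu 𝒰 u) := by
  have h := exists_mean_ultra 𝒰 h𝒰 hu
  unfold mu
  rw [dif_pos h]
  exact h.choose_spec

lemma mu_eq {u : HeightOneSpectrum (𝓞 k) → ℝ} {β : ℝ} (h : HasMean (𝒰 : Filter ℝ) u β) :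
    mu 𝒰 u = β := by
  have h' : ∃ β : ℝ, HasMean (𝒰 : Filter ℝ) u β := ⟨β, h⟩
  unfold mu
  rw [dif_pos h']
  exact tendsto_nhds_unique h'.choose_spec h

lemma mu_eq_of_mean (h𝒰 : (𝒰 : Filter ℝ) ≤ 𝓝[>] 1) {u : HeightOneSpectrum (𝓞 k) → ℝ} {β : ℝ}
    (h : HasMean (𝓝[>] 1) u β) : mu 𝒰 u = β := mu_eq (h.mono h𝒰)

lemma mu_add (h𝒰 : (𝒰 : Filter ℝ) ≤ 𝓝[>] 1) {u w : HeightOneSpectrum (𝓞 k) → ℝ} (hu : Bdd u)
    (hw : Bdd w) : mu 𝒰 (fun v => u v + w v) = mu 𝒰 u + mu 𝒰 w :=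
  mu_eq ((mu_spec h𝒰 hu).add h𝒰 hu hw (mu_spec h𝒰 hw))

lemma mu_const_mul (h𝒰 : (𝒰 : Filter ℝ) ≤ 𝓝[>] 1) (c : ℝ) {u : HeightOneSpectrum (𝓞 k) → ℝ}
    (hu : Bdd u) : mu 𝒰 (fun v => c * u v) = c * mu 𝒰 u :=
  mu_eq ((mu_spec h𝒰 hu).const_mul c)

lemma mu_sum (h𝒰 : (𝒰 : Filter ℝ) ≤ 𝓝[>] 1) {α : Type*} (t : Finset α)
    {u : α → HeightOneSpectrum (𝓞 k) → ℝ} (hu : ∀ i ∈ t, Bdd (u i)) :
    mu 𝒰 (fun v => ∑ i ∈ t, u i v) = ∑ i ∈ t, mu 𝒰 (u i) :=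
  mu_eq (HasMean.sum h𝒰 t hu fun i hi => mu_spec h𝒰 (hu i hi))

lemma mu_one (h𝒰 : (𝒰 : Filter ℝ) ≤ 𝓝[>] 1) :
    mu 𝒰 (fun _ : HeightOneSpectrum (𝓞 k) => (1 : ℝ)) = 1 := mu_eq_of_mean h𝒰 hasMean_one

lemma mu_const (h𝒰 : (𝒰 : Filter ℝ) ≤ 𝓝[>] 1) (c : ℝ) :
    mu 𝒰 (fun _ : HeightOneSpectrum (𝓞 k) => c) = c := by
  have := mu_const_mul h𝒰 c (Bdd.const (k := k) 1)
  rw [mu_one h𝒰, mul_one] at this
  simpa using this

lemma mu_mono (h𝒰 : (𝒰 : Filter ℝ) ≤ 𝓝[>] 1) {u w : HeightOneSpectrum (𝓞 k) → ℝ} (hu : Bdd u)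
    (hw : Bdd w) (h : ∀ v, u v ≤ w v) : mu 𝒰 u ≤ mu 𝒰 w := by
  refine le_of_tendsto_of_tendsto (mu_spec h𝒰 hu) (mu_spec h𝒰 hw) ?_
  have e1 : ∀ᶠ s : ℝ in 𝓝[>] 1, (1 : ℝ) < s := self_mem_nhdsWithin
  have e2 : ∀ᶠ s : ℝ in 𝓝[>] 1, 0 < Lam s := Lam_tendsto.eventually_gt_atTop 0
  have e3 : ∀ᶠ s : ℝ in 𝓝[>] 1, wsum u s / Lam s ≤ wsum w s / Lam s := by
    filter_upwards [e1, e2] with s h1 h2
    exact div_le_div_of_nonneg_right (wsum_mono hu hw h h1) h2.le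
  exact h𝒰 e3

lemma mu_nonneg (h𝒰 : (𝒰 : Filter ℝ) ≤ 𝓝[>] 1) {u : HeightOneSpectrum (𝓞 k) → ℝ} (hu : Bdd u)
    (h : ∀ v, 0 ≤ u v) : 0 ≤ mu 𝒰 u := by
  rw [← mu_const (k := k) h𝒰 0]
  exact mu_mono h𝒰 (Bdd.const 0) hu h

lemma mu_congr_finite (h𝒰 : (𝒰 : Filter ℝ) ≤ 𝓝[>] 1) {u w : HeightOneSpectrum (𝓞 k) → ℝ}
    (hu : Bdd u) (hw : Bdd w) (hfin : {v | u v ≠ w v}.Finite) : mu 𝒰 u = mu 𝒰 w :=
  (mu_eq (hasMean_congr_finite h𝒰 hu hw hfin (mu_spec h𝒰 hu))).symm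

/-- passing to an extension -/
lemma mu_ext (h𝒰 : (𝒰 : Filter ℝ) ≤ 𝓝[>] 1) {K : Type*} [Field K] [NumberField K] [Algebra k K]
    {u : HeightOneSpectrum (𝓞 k) → ℝ} {U : HeightOneSpectrum (𝓞 K) → ℝ} (hu : Bdd u) (hU : Bdd U)
    (h : {P : HeightOneSpectrum (𝓞 K) | nrm P = nrm (below k P) ∧ U P ≠ u (below k P)}.Finite) :
    mu 𝒰 U = mu 𝒰 (fun p => u p * degOne k K p) := by
  obtain ⟨C, hC⟩ := wsum_compare hu hU h
  have hb : Bdd (fun p => u p * (degOne k K p : ℝ)) := hu.mul (degOne_bdd k K)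
  apply mu_eq
  have h1 := mu_spec h𝒰 hb
  have h2 : Tendsto (fun s => (wsum U s - wsum (fun p => u p * (degOne k K p : ℝ)) s) / Lam s)
      (𝓝[>] 1) (𝓝 0) := by
    have hCL : Tendsto (fun s => C / Lam s) (𝓝[>] 1) (𝓝 0) := Lam_tendsto.const_div_atTop C
    refine squeeze_zero_norm' ?_ hCL
    filter_upwards [self_mem_nhdsWithin, Lam_tendsto.eventually_gt_atTop 0] with s hs hL
    rw [norm_div, Real.norm_eq_abs, Real.norm_of_nonneg hL.le]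
    exact div_le_div_of_nonneg_right (hC s hs) hL.le
  have h3 := Filter.Tendsto.add h1 (h2.mono_left h𝒰)
  rw [add_zero] at h3
  refine h3.congr fun s => ?_
  ring

/-- the mean of a function exists when all ultrafilter means agree -/
lemma hasMean_of_mu {u : HeightOneSpectrum (𝓞 k) → ℝ} (hu : Bdd u) {β : ℝ}
    (h : ∀ 𝒰 : Ultrafilter ℝ, (𝒰 : Filter ℝ) ≤ 𝓝[>] 1 → mu 𝒰 u = β) : HasMean (𝓝[>] 1) u β := by
  unfold HasMean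
  rw [tendsto_iff_ultrafilter]
  intro 𝒰 h𝒰
  have := mu_spec h𝒰 hu
  rw [h 𝒰 h𝒰] at this
  exact this

end Mu

end Pool.Agent.H3.Cheb
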