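import Mathlib
import Pool.Agent.H3.Cheb.Mu

open NumberField IsDedekindDomain Filter Topology

namespace Pool.Agent.H3.Cheb

open TatePole

section StepA

variable {F : Type*} [Field F] [NumberField F] {Ω : Type*} [Field Ω] [Algebra F Ω]

lemma pow_eq_iff_zmod {m : ℕ} [NeZero m] {ζ : Ω} (hζ : IsPrimitiveRoot ζ m) (a b : ℕ) :
    ζ ^ a = ζ ^ b ↔ (a : ZMod m) = b := by
  have h0 : IsOfFinOrder ζ := isOfFinOrder_iff_pow_eq_one.mpr ⟨m, NeZero.pos m, hζ.pow_eq_one⟩
  rw [h0.pow_eq_pow_iff_modEq, ← hζ.eq_orderOf, ZMod.natCast_eq_natCast_iff]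

/-- the cyclotomic character of a Frobenius element is the norm of the prime -/
lemma autToPow_frob {m : ℕ} [NeZero m] {ζ : Ω} (hζ : IsPrimitiveRoot ζ m)
    {P : HeightOneSpectrum (𝓞 F)} (D : FrobeniusAt Ω P) (hm : (m : 𝓞 F) ∉ P.asIdeal) :
    ((hζ.autToPow F D.φ : (ZMod m)ˣ) : ZMod m) = ((Ideal.absNorm P.asIdeal : ℕ) : ZMod m) := by
  have hint : IsIntegral ℤ ζ := hζ.isIntegral (NeZero.pos m)
  let z : 𝓞 Ω := ⟨ζ, hint⟩
  have hz : z ^ m = 1 := by
    apply RingOfIntegers.coe_injective (K := Ω)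
    rw [map_pow, map_one]
    exact hζ.pow_eq_one
  have hmQ : ((m : ℕ) : 𝓞 Ω) ∉ D.Q := by
    intro h
    apply hm
    rw [← D.under_eq, Ideal.mem_comap, map_natCast]
    exact h
  have h1 := D.isArithFrob.apply_of_pow_eq_one hz hmQ
  rw [D.under_eq] at h1
  have h2 : D.φ ζ = ζ ^ Nat.card (𝓞 F ⧸ P.asIdeal) := congrArg (algebraMap (𝓞 Ω) Ω) h1
  have h3 := hζ.autToPow_spec F D.φ
  rw [h2, pow_eq_iff_zmod hζ, ZMod.natCast_zmod_val] at h3
  have h4 : Ideal.absNorm P.asIdeal = Nat.card (𝓞 F ⧸ P.asIdeal) := by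
    rw [Ideal.absNorm_apply, Submodule.cardQuot_apply]
  rw [h4, h3]

lemma autToPow_eq_one {m : ℕ} [NeZero m] {ζ : Ω} (hζ : IsPrimitiveRoot ζ m) {σ : Gal(Ω/F)}
    (hσ : σ ζ = ζ) : hζ.autToPow F σ = 1 := by
  have h3 := hζ.autToPow_spec F σ
  rw [hσ] at h3
  have h5 : ζ ^ (hζ.autToPow F σ : ZMod m).val = ζ ^ 1 := by rw [h3, pow_one]
  rw [pow_eq_iff_zmod hζ, ZMod.natCast_zmod_val, Nat.cast_one] at h5
  apply Units.ext
  rw [h5, Units.val_one]

lemma finite_mem_prime (m : ℕ) (hm : m ≠ 0) :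
    {P : HeightOneSpectrum (𝓞 F) | (m : 𝓞 F) ∈ P.asIdeal}.Finite := by
  have hI : Ideal.span {(m : 𝓞 F)} ≠ ⊥ := by
    rw [Ne, Ideal.span_singleton_eq_bot]
    exact_mod_cast hm
  refine (Ideal.finite_factors hI).subset fun v hv => ?_
  change v.asIdeal ∣ _
  rw [Ideal.dvd_span_singleton]
  exact hv

variable [IsGalois F Ω]

lemma bdd_ite (p : HeightOneSpectrum (𝓞 F) → Prop) [DecidablePred p] :
    Bdd (fun v => if p v then (1 : ℝ) else 0) := by
  refine ⟨1, fun v => ?_⟩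
  beta_reduce
  split_ifs
  · rw [abs_one]
  · rw [abs_zero]; exact zero_le_one

/-- indicator of the primes whose Frobenius lies in the kernel of a homomorphism -/
noncomputable def kerInd {A : Type*} [Group A] (f : Gal(Ω/F) →* A)
    (𝔭 : HeightOneSpectrum (𝓞 F)) : ℝ :=
  open scoped Classical in if f (frobeniusAt Ω 𝔭).φ = 1 then (1 : ℝ) else 0

lemma kerInd_bdd {A : Type*} [Group A] (f : Gal(Ω/F) →* A) : Bdd (kerInd f) := by
  classical
  exact bdd_ite _

lemma kerInd_pos {A : Type*} [Group A] {f : Gal(Ω/F) →* A} {𝔭 : HeightOneSpectrum (𝓞 F)}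
    (h : f (frobeniusAt Ω 𝔭).φ = 1) : kerInd f 𝔭 = 1 := if_pos h

lemma kerInd_neg {A : Type*} [Group A] {f : Gal(Ω/F) →* A} {𝔭 : HeightOneSpectrum (𝓞 F)}
    (h : f (frobeniusAt Ω 𝔭).φ ≠ 1) : kerInd f 𝔭 = 0 := if_neg h

/-- density of the kernel of a homomorphism -/
lemma mean_ker {A : Type*} [Group A] (f : Gal(Ω/F) →* A) (M : IntermediateField F Ω)
    [FiniteDimensional F M] (hM : ∀ σ ∈ M.fixingSubgroup, f σ = 1) :
    HasMean (𝓝[>] 1) (kerInd f) (1 / Nat.card f.range) := by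
  classical
  have hle : M.fixingSubgroup ≤ f.ker := fun σ hσ => hM σ hσ
  have hopen : IsOpen (f.ker : Set Gal(Ω/F)) := Subgroup.isOpen_mono hle M.fixingSubgroup_isOpen
  haveI : Finite (Gal(Ω/F) ⧸ f.ker) := Subgroup.quotient_finite_of_isOpen _ hopen
  have hfix : ∀ (σ : Gal(Ω/F)) (y : Gal(Ω/F) ⧸ f.ker), σ • y = y ↔ f σ = 1 := by
    intro σ y
    obtain ⟨g, rfl⟩ := QuotientGroup.mk_surjective y
    have e : σ • (QuotientGroup.mk g : Gal(Ω/F) ⧸ f.ker) = QuotientGroup.mk (σ * g) := rfl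
    rw [e, QuotientGroup.eq, MonoidHom.mem_ker, map_mul, map_inv, map_mul, mul_inv_rev, mul_assoc]
    constructor
    · intro h
      have h1 : (f σ)⁻¹ * f g = f g := inv_mul_eq_one.mp h |>.symm
      have h2 := mul_eq_right.mp h1
      exact inv_eq_one.mp h2
    · intro h
      rw [h]
      simp
  have hcard : Nat.card (Gal(Ω/F) ⧸ f.ker) = Nat.card f.range := Subgroup.index_ker f
  have hpos : (Nat.card f.range : ℝ) ≠ 0 := by
    rw [← hcard]
    exact_mod_cast Nat.card_pos.ne'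
  have h1 := mean_fixedPoints (k := F) (Ω := Ω) (X := Gal(Ω/F) ⧸ f.ker) M
    (fun σ hσ x => (hfix σ x).mpr (hM σ hσ))
  have horb : Nat.card (MulAction.orbitRel.Quotient Gal(Ω/F) (Gal(Ω/F) ⧸ f.ker)) = 1 := by
    haveI := (MulAction.pretransitive_iff_subsingleton_quotient Gal(Ω/F) (Gal(Ω/F) ⧸ f.ker)).mp
      inferInstance
    haveI : Nonempty (MulAction.orbitRel.Quotient Gal(Ω/F) (Gal(Ω/F) ⧸ f.ker)) :=
      ⟨Quotient.mk _ ((1 : Gal(Ω/F)) : Gal(Ω/F) ⧸ f.ker)⟩
    exact Nat.card_unique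
  rw [horb] at h1
  have h2 := h1.const_mul (1 / (Nat.card f.range : ℝ))
  rw [Nat.cast_one, mul_one] at h2
  convert h2 using 2 with 𝔭
  by_cases hf : f (frobeniusAt Ω 𝔭).φ = 1
  · rw [kerInd_pos hf]
    have : Nat.card {y : Gal(Ω/F) ⧸ f.ker // (frobeniusAt Ω 𝔭).φ • y = y} = Nat.card f.range := by
      rw [← hcard]
      exact Nat.card_congr (Equiv.subtypeUnivEquiv fun y => (hfix _ y).mpr hf)
    rw [this, one_div, inv_mul_cancel₀ hpos]
  · rw [kerInd_neg hf]
    haveI : IsEmpty {y : Gal(Ω/F) ⧸ f.ker // (frobeniusAt Ω 𝔭).φ • y = y} :=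
      ⟨fun y => hf ((hfix _ y.1).mp y.2)⟩
    have h0 : Nat.card {y : Gal(Ω/F) ⧸ f.ker // (frobeniusAt Ω 𝔭).φ • y = y} = 0 :=
      Nat.card_of_isEmpty
    rw [h0, Nat.cast_zero, mul_zero]

/-- indicator of a residue class for the norm -/
noncomputable def nind {m : ℕ} (b : ZMod m) (P : HeightOneSpectrum (𝓞 F)) : ℝ :=
  open scoped Classical in if ((Ideal.absNorm P.asIdeal : ℕ) : ZMod m) = b then 1 else 0

lemma nind_bdd {m : ℕ} (b : ZMod m) : Bdd (nind (F := F) b) := by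
  classical
  exact bdd_ite _

lemma char_inv_conj {m : ℕ} [NeZero m] (χ : DirichletCharacter ℂ m) (a : (ZMod m)ˣ) :
    χ ((a : ZMod m)⁻¹) = (starRingEnd ℂ) (χ a) := by
  have h1 : χ ((a : ZMod m)⁻¹) * χ a = 1 := by
    rw [← map_mul, ZMod.inv_mul_of_unit _ a.isUnit, map_one]
  have h2 : ‖χ a‖ = 1 := χ.unit_norm_eq_one a
  rw [← Complex.inv_eq_conj h2]
  exact eq_inv_of_mul_eq_one_left h1

lemma char_identity {m : ℕ} [NeZero m] (a : (ZMod m)ˣ) (P : HeightOneSpectrum (𝓞 F)) :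
    ∑ χ : DirichletCharacter ℂ m, 2 * (χ (a : ZMod m)).re *
      (χ ((Ideal.absNorm P.asIdeal : ℕ) : ZMod m)).re =
      (m.totient : ℝ) * (nind (a : ZMod m) P + nind ((a⁻¹ : (ZMod m)ˣ) : ZMod m) P) := by
  classical
  set b : ZMod m := ((Ideal.absNorm P.asIdeal : ℕ) : ZMod m) with hb
  have h1 := DirichletCharacter.sum_char_inv_mul_char_eq ℂ a.isUnit b
  have h2 := DirichletCharacter.sum_char_inv_mul_char_eq ℂ (a⁻¹ : (ZMod m)ˣ).isUnit b
  have h3 : ∀ χ : DirichletCharacter ℂ m, 2 * (χ (a : ZMod m)).re * (χ b).re =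
      (χ ((a : ZMod m)⁻¹) * χ b).re + (χ (((a⁻¹ : (ZMod m)ˣ) : ZMod m)⁻¹) * χ b).re := by
    intro χ
    have e1 : (((a⁻¹ : (ZMod m)ˣ) : ZMod m)⁻¹) = (a : ZMod m) := by
      rw [ZMod.inv_coe_unit, inv_inv]
    rw [char_inv_conj, e1, Complex.mul_re, Complex.mul_re, Complex.conj_re, Complex.conj_im]
    ring
  rw [Finset.sum_congr rfl fun χ _ => h3 χ, Finset.sum_add_distrib, ← Complex.re_sum,
    ← Complex.re_sum, h1, h2, mul_add]
  unfold nind
  rw [← hb]
  congr 1
  · by_cases h : (a : ZMod m) = b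
    · rw [if_pos h, if_pos h.symm]; simp
    · rw [if_neg h, if_neg (fun h' => h h'.symm)]; simp
  · by_cases h : ((a⁻¹ : (ZMod m)ˣ) : ZMod m) = b
    · rw [if_pos h, if_pos h.symm]; simp
    · rw [if_neg h, if_neg (fun h' => h h'.symm)]; simp

lemma card_char_trivial {m : ℕ} [NeZero m] (t : (ZMod m)ˣ) :
    (orderOf t : ℝ) * (∑ χ : DirichletCharacter ℂ m,
      (open scoped Classical in if χ (t : ZMod m) = 1 then (1 : ℝ) else 0)) = m.totient := by
  classical
  have hd : 0 < orderOf t := orderOf_pos t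
  have h1 : ∑ j ∈ Finset.range (orderOf t), ∑ χ : DirichletCharacter ℂ m, χ ((t : ZMod m) ^ j) =
      (m.totient : ℂ) := by
    rw [Finset.sum_eq_single_of_mem 0 (Finset.mem_range.mpr hd)]
    · rw [pow_zero, DirichletCharacter.sum_characters_eq, if_pos rfl]
    · intro j hj hj0
      rw [DirichletCharacter.sum_characters_eq, if_neg]
      intro h
      have h2 : t ^ j = 1 := by
        apply Units.ext
        rw [Units.val_pow_eq_pow_val, h, Units.val_one]
      exact hj0 (Nat.eq_zero_of_dvd_of_lt (orderOf_dvd_of_pow_eq_one h2) (Finset.mem_range.mp hj))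
  rw [Finset.sum_comm] at h1
  have h3 : ∀ χ : DirichletCharacter ℂ m, ∑ j ∈ Finset.range (orderOf t), χ ((t : ZMod m) ^ j) =
      if χ (t : ZMod m) = 1 then (orderOf t : ℂ) else 0 := by
    intro χ
    have e : ∀ j ∈ Finset.range (orderOf t), χ ((t : ZMod m) ^ j) = χ (t : ZMod m) ^ j :=
      fun j _ => map_pow χ _ _
    rw [Finset.sum_congr rfl e]
    by_cases h : χ (t : ZMod m) = 1
    · rw [if_pos h, h]; simp
    · rw [if_neg h]
      have h4 := geom_sum_mul (χ (t : ZMod m)) (orderOf t)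
      have h5 : χ (t : ZMod m) ^ orderOf t = 1 := by
        rw [← map_pow, ← Units.val_pow_eq_pow_val, pow_orderOf_eq_one, Units.val_one, map_one]
      rw [h5, sub_self, mul_eq_zero] at h4
      rcases h4 with h4 | h4
      · exact h4
      · exact absurd (sub_eq_zero.mp h4) h
  rw [Finset.sum_congr rfl fun χ _ => h3 χ] at h1
  have h6 := congrArg Complex.re h1
  rw [Complex.re_sum, Complex.natCast_re] at h6
  rw [← h6, Finset.mul_sum]
  refine Finset.sum_congr rfl fun χ _ => ?_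
  split_ifs
  · simp
  · simp

/-- **Step A**: the symmetrised density of Frobenius elements generating a cyclotomic extension. -/
theorem stepA {𝒰 : Ultrafilter ℝ} (h𝒰 : (𝒰 : Filter ℝ) ≤ 𝓝[>] 1) {m : ℕ} [NeZero m] {ζ : Ω}
    (hζ : IsPrimitiveRoot ζ m) (M : IntermediateField F Ω) [FiniteDimensional F M] (hζM : ζ ∈ M)
    (t : (ZMod m)ˣ) (ht : (hζ.autToPow F).range = Subgroup.zpowers t) :
    mu 𝒰 (nind (F := F) (t : ZMod m)) + mu 𝒰 (nind (F := F) ((t⁻¹ : (ZMod m)ˣ) : ZMod m)) =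
      2 / orderOf t := by
  classical
  have hM : ∀ σ ∈ M.fixingSubgroup, hζ.autToPow F σ = 1 := by
    intro σ hσ
    apply autToPow_eq_one
    rw [IntermediateField.mem_fixingSubgroup_iff] at hσ
    exact hσ ζ hζM
  have hd : 0 < orderOf t := orderOf_pos t
  have hd' : (orderOf t : ℝ) ≠ 0 := by exact_mod_cast hd.ne'
  have hφ : 0 < m.totient := Nat.totient_pos.mpr (NeZero.pos m)
  have hφ' : (m.totient : ℝ) ≠ 0 := by exact_mod_cast hφ.ne'
  have hcard : Nat.card (hζ.autToPow F).range = orderOf t := by rw [ht, Nat.card_zpowers]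
  -- values of the norm
  have hval : ∀ P : HeightOneSpectrum (𝓞 F), (m : 𝓞 F) ∉ P.asIdeal →
      ((Ideal.absNorm P.asIdeal : ℕ) : ZMod m) =
        ((hζ.autToPow F (frobeniusAt Ω P).φ : (ZMod m)ˣ) : ZMod m) :=
    fun P hP => (autToPow_frob hζ (frobeniusAt Ω P) hP).symm
  have hbad := finite_mem_prime (F := F) m (NeZero.ne m)
  -- the means of characters
  set u : DirichletCharacter ℂ m → HeightOneSpectrum (𝓞 F) → ℝ := fun χ P =>
    (χ ((Ideal.absNorm P.asIdeal : ℕ) : ZMod m)).re with hu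
  have hub : ∀ χ, Bdd (u χ) := by
    intro χ
    refine ⟨1, fun P => ?_⟩
    exact (Complex.abs_re_le_norm _).trans (χ.norm_le_one _)
  -- trivial on the image
  have htriv : ∀ χ : DirichletCharacter ℂ m, χ (t : ZMod m) = 1 → mu 𝒰 (u χ) = 1 := by
    intro χ hχ
    rw [← mu_one (k := F) h𝒰]
    refine mu_congr_finite h𝒰 (hub χ) (Bdd.const 1) (hbad.subset fun P hP => ?_)
    by_contra hcon
    apply hP
    rw [hu]
    change (χ ((Ideal.absNorm P.asIdeal : ℕ) : ZMod m)).re = 1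
    rw [hval P hcon]
    have hmem : hζ.autToPow F (frobeniusAt Ω P).φ ∈ Subgroup.zpowers t := by
      rw [← ht]; exact ⟨_, rfl⟩
    obtain ⟨j, hj⟩ := (mem_zpowers_iff_mem_range_orderOf.mp hmem)|> Finset.mem_image.mp
    rw [← hj.2, Units.val_pow_eq_pow_val, map_pow, hχ, one_pow, Complex.one_re]
  -- nontrivial on the image
  have hnontriv : ∀ χ : DirichletCharacter ℂ m, χ (t : ZMod m) ≠ 1 → mu 𝒰 (u χ) ≤ 0 := by
    intro χ hχ
    have hinf : {v : HeightOneSpectrum (𝓞 F) |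
        χ ((Ideal.absNorm v.asIdeal : ℕ) : ZMod m) ≠ 1}.Infinite := by
      intro hfin
      let f : Gal(Ω/F) →* ℂˣ := χ.toUnitHom.comp (hζ.autToPow F)
      have hf1 : ∀ σ, ((f σ : ℂˣ) : ℂ) = χ ((hζ.autToPow F σ : (ZMod m)ˣ) : ZMod m) :=
        fun σ => MulChar.coe_toUnitHom _ _
      have h1 := mean_ker f M fun σ hσ => by
        change χ.toUnitHom (hζ.autToPow F σ) = 1
        rw [hM σ hσ, map_one]
      have h2 : HasMean (𝓝[>] 1) (kerInd f) 1 := by
        refine hasMean_congr_finite le_rfl (Bdd.const 1) (kerInd_bdd f)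
          ((hfin.union hbad).subset fun P hP => ?_) hasMean_one
        by_contra hcon
        rw [Set.mem_union, not_or] at hcon
        apply hP
        have h3 : f (frobeniusAt Ω P).φ = 1 := by
          apply Units.ext
          rw [hf1, ← hval P hcon.2, Units.val_one]
          by_contra h4
          exact hcon.1 h4
        exact (kerInd_pos h3).symm
      have h3 := tendsto_nhds_unique h1 h2
      have hfin2 : Finite f.range := by
        have : Finite (χ.toUnitHom).range := inferInstance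
        exact Finite.of_injective (Subgroup.inclusion (by
          rintro _ ⟨σ, rfl⟩
          exact ⟨_, rfl⟩ : f.range ≤ (χ.toUnitHom).range)) (Subgroup.inclusion_injective _)
      have h4 : Nat.card f.range = 1 := by
        have h5 : (Nat.card f.range : ℝ) ≠ 0 := by
          exact_mod_cast Nat.card_pos.ne'
        rw [div_eq_iff h5, one_mul] at h3
        exact_mod_cast h3.symm
      have hmem : t ∈ (hζ.autToPow F).range := by
        rw [ht]; exact Subgroup.mem_zpowers t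
      obtain ⟨σ, hσ⟩ := hmem
      have h6 : f σ = 1 := by
        have := (Nat.card_eq_one_iff_unique.mp h4).1
        have h7 : (⟨f σ, σ, rfl⟩ : f.range) = 1 := Subsingleton.elim _ _
        exact congrArg Subtype.val h7
      apply hχ
      rw [← hσ, ← hf1, h6, Units.val_one]
    obtain ⟨C, hC⟩ := LL_bounded χ hinf
    obtain ⟨C', hC'⟩ := exists_log_LL (K := F) χ
    have h0 : Tendsto (fun s => (Real.log (max C 1) + C') / Lam s) (𝓝[>] 1) (𝓝 0) :=
      Lam_tendsto.const_div_atTop _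
    refine le_of_tendsto_of_tendsto (mu_spec h𝒰 (hub χ)) (h0.mono_left h𝒰) ?_
    have h1 : ∀ᶠ s : ℝ in 𝓝[>] 1, wsum (u χ) s / Lam s ≤ (Real.log (max C 1) + C') / Lam s := by
      filter_upwards [hC, self_mem_nhdsWithin, Lam_tendsto.eventually_gt_atTop 0] with s h2 h3 h4
      refine div_le_div_of_nonneg_right ?_ h4.le
      have h5 := hC' s h3
      rw [abs_le] at h5
      have h6 : Real.log ‖LL F χ s‖ ≤ Real.log (max C 1) := by
        rcases eq_or_lt_of_le (norm_nonneg (LL F χ s)) with h7 | h7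
        · rw [← h7, Real.log_zero]
          exact Real.log_nonneg (le_max_right _ _)
        · exact Real.log_le_log h7 (h2.trans (le_max_left _ _))
      linarith [h5.1]
    exact h𝒰 h1
  -- summing
  have hsum : ∀ a : (ZMod m)ˣ, ∑ χ : DirichletCharacter ℂ m, 2 * (χ (a : ZMod m)).re * mu 𝒰 (u χ) =
      (m.totient : ℝ) * (mu 𝒰 (nind (F := F) (a : ZMod m)) +
        mu 𝒰 (nind (F := F) ((a⁻¹ : (ZMod m)ˣ) : ZMod m))) := by
    intro a
    rw [← mu_add h𝒰 (nind_bdd _) (nind_bdd _), ← mu_const_mul h𝒰 _ ((nind_bdd _).add (nind_bdd _))]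
    have e1 : (fun P : HeightOneSpectrum (𝓞 F) => (m.totient : ℝ) *
        (nind (a : ZMod m) P + nind ((a⁻¹ : (ZMod m)ˣ) : ZMod m) P)) =
        fun P => ∑ χ : DirichletCharacter ℂ m, 2 * (χ (a : ZMod m)).re * u χ P := by
      funext P
      exact (char_identity a P).symm
    rw [e1, mu_sum h𝒰 _ fun χ _ => (Bdd.const _).mul (hub χ)]
    exact Finset.sum_congr rfl fun χ _ => (mu_const_mul h𝒰 _ (hub χ)).symm
  -- the class of one
  have hone : mu 𝒰 (nind (F := F) (1 : ZMod m)) = 1 / orderOf t := by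
    have h1 := mean_ker (hζ.autToPow F) M hM
    rw [hcard] at h1
    rw [← mu_eq_of_mean h𝒰 h1]
    refine mu_congr_finite h𝒰 (nind_bdd _) (kerInd_bdd _) (hbad.subset fun P hP => ?_)
    by_contra hcon
    apply hP
    unfold nind
    rw [hval P hcon]
    by_cases h : hζ.autToPow F (frobeniusAt Ω P).φ = 1
    · rw [kerInd_pos h, h, Units.val_one, if_pos rfl]
    · rw [kerInd_neg h, if_neg]
      intro h'
      apply h
      apply Units.ext
      rw [h', Units.val_one]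
  have hcount := card_char_trivial t
  have h1 := hsum 1
  rw [inv_one, Units.val_one, hone] at h1
  simp only [map_one, Complex.one_re, mul_one] at h1
  have h2 : ∑ χ : DirichletCharacter ℂ m, mu 𝒰 (u χ) = (m.totient : ℝ) / orderOf t := by
    have h3 : ∑ χ : DirichletCharacter ℂ m, 2 * mu 𝒰 (u χ) = 2 * ∑ χ : DirichletCharacter ℂ m, mu 𝒰 (u χ) := by
      rw [Finset.mul_sum]
    rw [h3] at h1
    have h4 : (m.totient : ℝ) * (1 / orderOf t + 1 / orderOf t) = 2 * ((m.totient : ℝ) / orderOf t) := by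
      ring
    rw [h4] at h1
    linarith
  have h3 : ∑ χ : DirichletCharacter ℂ m,
      (if χ (t : ZMod m) = 1 then (1 : ℝ) else 0) = (m.totient : ℝ) / orderOf t := by
    rw [eq_div_iff hd', mul_comm]
    exact hcount
  have h4 : ∑ χ : DirichletCharacter ℂ m,
      ((if χ (t : ZMod m) = 1 then (1 : ℝ) else 0) - mu 𝒰 (u χ)) = 0 := by
    rw [Finset.sum_sub_distrib, h2, h3, sub_self]
  have h5 : ∀ χ : DirichletCharacter ℂ m,
      0 ≤ (if χ (t : ZMod m) = 1 then (1 : ℝ) else 0) - mu 𝒰 (u χ) := by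
    intro χ
    split_ifs with h
    · rw [htriv χ h, sub_self]
    · have := hnontriv χ h
      linarith
  have h6 : ∀ χ : DirichletCharacter ℂ m,
      mu 𝒰 (u χ) = if χ (t : ZMod m) = 1 then (1 : ℝ) else 0 := by
    intro χ
    have := (Finset.sum_eq_zero_iff_of_nonneg fun χ _ => h5 χ).mp h4 χ (Finset.mem_univ χ)
    linarith
  have h7 := hsum t
  have h8 : ∑ χ : DirichletCharacter ℂ m, 2 * (χ (t : ZMod m)).re * mu 𝒰 (u χ) =
      2 * ((m.totient : ℝ) / orderOf t) := by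
    rw [← h3, Finset.mul_sum]
    refine Finset.sum_congr rfl fun χ _ => ?_
    rw [h6 χ]
    split_ifs with h
    · rw [h, Complex.one_re]; ring
    · ring
  rw [h8] at h7
  have h9 : (m.totient : ℝ) * (mu 𝒰 (nind (F := F) (t : ZMod m)) +
        mu 𝒰 (nind (F := F) ((t⁻¹ : (ZMod m)ˣ) : ZMod m))) = (m.totient : ℝ) * (2 / orderOf t) := by
    rw [← h7]; ring
  exact mul_left_cancel₀ hφ' h9

end StepA

end Pool.Agent.H3.Cheb
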