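import Mathlib
import Pool.Agent.H3.Cheb.StepA

open NumberField IsDedekindDomain Filter Topology

namespace Pool.Agent.H3.Cheb

open TatePole

section Count

variable {Q : Type*} [Group Q] [Finite Q]

/-- conjugation-averaged delta function at `x` -/
noncomputable def cdelta (x g : Q) : ℝ := (Nat.card {y : Q // y⁻¹ * g * y = x} : ℝ) / Nat.card Q

lemma cdelta_nonneg (x g : Q) : 0 ≤ cdelta x g := by unfold cdelta; positivity

lemma cdelta_le_one (x g : Q) : cdelta x g ≤ 1 := by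
  unfold cdelta
  have h1 : (0 : ℝ) < Nat.card Q := by exact_mod_cast Nat.card_pos
  rw [div_le_one h1]
  exact_mod_cast Nat.card_le_card_of_injective _ Subtype.val_injective

/-- cosets and elements -/
lemma card_mem_eq (H : Subgroup Q) (g : Q) :
    Nat.card {y : Q // y⁻¹ * g * y ∈ H} = Nat.card {c : Q ⧸ H // g • c = c} * Nat.card H := by
  rw [← Nat.card_prod]
  have hP : ∀ y : Q, y⁻¹ * g * y ∈ H ↔ g • (QuotientGroup.mk y : Q ⧸ H) = QuotientGroup.mk y := by
    intro y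
    have e : g • (QuotientGroup.mk y : Q ⧸ H) = QuotientGroup.mk (g * y) := rfl
    rw [e, eq_comm, QuotientGroup.eq, mul_assoc]
  have e1 : {y : Q // y⁻¹ * g * y ∈ H} ≃ {z : (Q ⧸ H) × H // g • z.1 = z.1} :=
    (Subgroup.groupEquivQuotientProdSubgroup (s := H)).subtypeEquiv fun y => by
      rw [hP y]
      have h2 : ((Subgroup.groupEquivQuotientProdSubgroup (s := H)) y).1 = QuotientGroup.mk y := rfl
      rw [h2]
  refine Nat.card_congr (e1.trans
    { toFun := fun z => (⟨z.1.1, z.2⟩, z.1.2)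
      invFun := fun z => ⟨(z.1.1, z.2), z.1.2⟩
      left_inv := fun z => rfl
      right_inv := fun z => rfl })

end Count

section StepC

variable {k : Type*} [Field k] [NumberField k] {Ω : Type*} [Field Ω] [Algebra k Ω] [IsGalois k Ω]
variable {Q : Type*} [Group Q] [Finite Q]

/-- the field attached to a subgroup of a finite quotient -/
noncomputable def qField (q : Gal(Ω/k) →* Q) (H : Subgroup Q) : IntermediateField k Ω :=
  IntermediateField.fixedField (H.comap q)

lemma qField_le (q : Gal(Ω/k) →* Q) (H : Subgroup Q) (M : IntermediateField k Ω)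
    (hM : ∀ σ ∈ M.fixingSubgroup, q σ = 1) : qField q H ≤ M := by
  have h1 : M.fixingSubgroup ≤ H.comap q := fun σ hσ => by
    rw [Subgroup.mem_comap, hM σ hσ]
    exact H.one_mem
  have h2 := IntermediateField.fixedField_antitone h1
  rw [InfiniteGalois.fixedField_fixingSubgroup] at h2
  exact h2

lemma fixingSubgroup_qField (q : Gal(Ω/k) →* Q) (H : Subgroup Q) (M : IntermediateField k Ω)
    [FiniteDimensional k M] (hM : ∀ σ ∈ M.fixingSubgroup, q σ = 1) :
    (qField q H).fixingSubgroup = H.comap q := by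
  have h1 : M.fixingSubgroup ≤ H.comap q := fun σ hσ => by
    rw [Subgroup.mem_comap, hM σ hσ]
    exact H.one_mem
  have h2 : IsOpen (H.comap q : Set Gal(Ω/k)) := Subgroup.isOpen_mono h1 M.fixingSubgroup_isOpen
  have h3 := Subgroup.isClosed_of_isOpen _ h2
  exact InfiniteGalois.fixingSubgroup_fixedField ⟨_, h3⟩

/-- embeddings of `qField` fixed by an automorphism -/
lemma card_fix_qField (q : Gal(Ω/k) →* Q) (hq : Function.Surjective q) (H : Subgroup Q)
    (M : IntermediateField k Ω) [FiniteDimensional k M] (hM : ∀ σ ∈ M.fixingSubgroup, q σ = 1)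
    (φ : Gal(Ω/k)) :
    Nat.card {τ : qField q H →ₐ[k] Ω // (φ : Ω →ₐ[k] Ω).comp τ = τ} =
      Nat.card {c : Q ⧸ H // q φ • c = c} := by
  classical
  have hst : ∀ γ γ' : Gal(Ω/k), resHom (qField q H) γ = resHom (qField q H) γ' ↔
      (QuotientGroup.mk (q γ) : Q ⧸ H) = QuotientGroup.mk (q γ') := by
    intro γ γ'
    rw [resHom_eq_iff, fixingSubgroup_qField q H M hM, Subgroup.mem_comap, QuotientGroup.eq,
      map_mul, map_inv]
  have hsurj := resHom_surjective (qField q H)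
  let g : (qField q H →ₐ[k] Ω) → Gal(Ω/k) := fun τ => (hsurj τ).choose
  have hg : ∀ τ, resHom (qField q H) (g τ) = τ := fun τ => (hsurj τ).choose_spec
  have key : ∀ γ : Gal(Ω/k), (φ : Ω →ₐ[k] Ω).comp (resHom (qField q H) γ) =
      resHom (qField q H) γ ↔ q φ • (QuotientGroup.mk (q γ) : Q ⧸ H) = QuotientGroup.mk (q γ) := by
    intro γ
    rw [← resHom_mul, hst, map_mul]
    rfl
  refine Nat.card_congr (Equiv.ofBijective
    (fun τ => ⟨(QuotientGroup.mk (q (g τ.1)) : Q ⧸ H), ?_⟩) ⟨?_, ?_⟩)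
  · rw [← key, hg]
    exact τ.2
  · rintro ⟨τ, hτ⟩ ⟨τ', hτ'⟩ h
    have h1 : (QuotientGroup.mk (q (g τ)) : Q ⧸ H) = QuotientGroup.mk (q (g τ')) :=
      congrArg Subtype.val h
    rw [← hst, hg, hg] at h1
    exact Subtype.ext h1
  · rintro ⟨c, hc⟩
    obtain ⟨y, rfl⟩ := QuotientGroup.mk_surjective c
    obtain ⟨γ, rfl⟩ := hq y
    refine ⟨⟨resHom _ γ, (key γ).mpr hc⟩, ?_⟩
    apply Subtype.ext
    change (QuotientGroup.mk (q (g (resHom _ γ))) : Q ⧸ H) = QuotientGroup.mk (q γ)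
    rw [← hst, hg]

lemma autToPow_restrict (F : IntermediateField k Ω) {m : ℕ} [NeZero m] {ζ : Ω}
    (hζ : IsPrimitiveRoot ζ m) (σ : Gal(Ω/F)) :
    hζ.autToPow F σ = hζ.autToPow k (σ.restrictScalars k) := by
  have h1 := hζ.autToPow_spec F σ
  have h2 := hζ.autToPow_spec k (σ.restrictScalars k)
  have h3 : (σ.restrictScalars k) ζ = σ ζ := rfl
  rw [h3, ← h1, pow_eq_iff_zmod hζ, ZMod.natCast_zmod_val, ZMod.natCast_zmod_val] at h2
  exact Units.ext h2.symm

lemma autToPow_range_qField (q : Gal(Ω/k) →* Q) (hq : Function.Surjective q) (x : Q)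
    (M : IntermediateField k Ω) [FiniteDimensional k M] (hM : ∀ σ ∈ M.fixingSubgroup, q σ = 1)
    {m : ℕ} [NeZero m] {ζ : Ω} (hζ : IsPrimitiveRoot ζ m) (κ : Q →* (ZMod m)ˣ)
    (hκ : ∀ σ, κ (q σ) = hζ.autToPow k σ) :
    (hζ.autToPow (qField q (Subgroup.zpowers x))).range = Subgroup.zpowers (κ x) := by
  have hfix := fixingSubgroup_qField q (Subgroup.zpowers x) M hM
  rw [← MonoidHom.map_zpowers]
  ext a
  constructor
  · rintro ⟨σ, rfl⟩
    rw [autToPow_restrict, ← hκ]
    apply Subgroup.mem_map_of_mem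
    rw [← Subgroup.mem_comap, ← hfix, IntermediateField.mem_fixingSubgroup_iff]
    intro y hy
    exact σ.commutes ⟨y, hy⟩
  · rintro ⟨y, hy, rfl⟩
    obtain ⟨γ, rfl⟩ := hq y
    have hγ : γ ∈ (qField q (Subgroup.zpowers x)).fixingSubgroup := by
      rw [hfix]; exact hy
    refine ⟨IntermediateField.fixingSubgroupEquiv _ ⟨γ, hγ⟩, ?_⟩
    rw [autToPow_restrict, hκ]
    rfl

lemma cdelta_key (q : Gal(Ω/k) →* Q) (H : Subgroup Q)
    {m : ℕ} [NeZero m] {ζ : Ω} (hζ : IsPrimitiveRoot ζ m) (κ : Q →* (ZMod m)ˣ)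
    (hκ : ∀ σ, κ (q σ) = hζ.autToPow k σ) (x : Q) (hx : Subgroup.zpowers x = H)
    (hgood : orderOf (κ x) = orderOf x) (𝔭 : HeightOneSpectrum (𝓞 k)) (hm : (m : 𝓞 k) ∉ 𝔭.asIdeal) :
    nind ((κ x : (ZMod m)ˣ) : ZMod m) 𝔭 *
      (Nat.card {c : Q ⧸ H // q (frobeniusAt Ω 𝔭).φ • c = c} : ℝ) =
      ((Nat.card Q : ℝ) / orderOf x) * cdelta x (q (frobeniusAt Ω 𝔭).φ) := by
  classical
  set g : Q := q (frobeniusAt Ω 𝔭).φ with hg
  have hQ : (Nat.card Q : ℝ) ≠ 0 := by exact_mod_cast Nat.card_pos.ne'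
  have hd : (orderOf x : ℝ) ≠ 0 := by exact_mod_cast (orderOf_pos x).ne'
  have hN : ((Ideal.absNorm 𝔭.asIdeal : ℕ) : ZMod m) = ((κ g : (ZMod m)ˣ) : ZMod m) := by
    rw [hg, hκ]
    exact (autToPow_frob hζ (frobeniusAt Ω 𝔭) hm).symm
  have hH : Nat.card H = orderOf x := by rw [← hx, Nat.card_zpowers]
  have h1 := card_mem_eq H g
  rw [hH] at h1
  have h1' : (Nat.card {y : Q // y⁻¹ * g * y ∈ H} : ℝ) =
      Nat.card {c : Q ⧸ H // g • c = c} * orderOf x := by exact_mod_cast h1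
  have hcomm : ∀ y : Q, κ (y⁻¹ * g * y) = κ g := by
    intro y
    rw [map_mul, map_mul, map_inv, mul_comm, mul_inv_cancel_left]
  have h2 : cdelta x g = (Nat.card {y : Q // y⁻¹ * g * y = x} : ℝ) / Nat.card Q := rfl
  by_cases h : κ g = κ x
  · have h3 : nind ((κ x : (ZMod m)ˣ) : ZMod m) 𝔭 = 1 := by
      unfold nind
      rw [if_pos]
      rw [hN, h]
    have h4 : Nat.card {y : Q // y⁻¹ * g * y = x} = Nat.card {y : Q // y⁻¹ * g * y ∈ H} := by
      refine Nat.card_congr (Equiv.subtypeEquivRight fun y => ?_)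
      constructor
      · intro hy
        rw [hy, ← hx]
        exact Subgroup.mem_zpowers x
      · intro hy
        rw [← hx] at hy
        obtain ⟨j, hj⟩ := (mem_zpowers_iff_mem_range_orderOf.mp hy) |> Finset.mem_image.mp
        have h5 : κ x ^ j = κ x := by
          rw [← map_pow, hj.2, hcomm, h]
        have h6 : κ x ^ j = κ x ^ 1 := by rw [h5, pow_one]
        rw [pow_inj_mod, hgood, ← pow_inj_mod, pow_one] at h6
        rw [← hj.2, h6]
    rw [h3, h2, h4, h1']
    field_simp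
  · have h3 : nind ((κ x : (ZMod m)ˣ) : ZMod m) 𝔭 = 0 := by
      unfold nind
      rw [if_neg]
      rw [hN]
      intro h'
      exact h (Units.ext h')
    have h4 : Nat.card {y : Q // y⁻¹ * g * y = x} = 0 := by
      haveI : IsEmpty {y : Q // y⁻¹ * g * y = x} := ⟨fun y => h (by
        rw [← hcomm y.1, y.2])⟩
      exact Nat.card_of_isEmpty
    rw [h3, h2, h4]
    simp

/-- **Step C** -/
theorem stepC {𝒰 : Ultrafilter ℝ} (h𝒰 : (𝒰 : Filter ℝ) ≤ 𝓝[>] 1) (q : Gal(Ω/k) →* Q)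
    (hq : Function.Surjective q)
    (M : IntermediateField k Ω) [FiniteDimensional k M] (hM : ∀ σ ∈ M.fixingSubgroup, q σ = 1)
    {m : ℕ} [NeZero m] {ζ : Ω} (hζ : IsPrimitiveRoot ζ m) (κ : Q →* (ZMod m)ˣ)
    (hκ : ∀ σ, κ (q σ) = hζ.autToPow k σ) (x : Q) (hgood : orderOf (κ x) = orderOf x) :
    mu 𝒰 (fun 𝔭 : HeightOneSpectrum (𝓞 k) => cdelta x (q (frobeniusAt Ω 𝔭).φ)) +
      mu 𝒰 (fun 𝔭 : HeightOneSpectrum (𝓞 k) => cdelta x⁻¹ (q (frobeniusAt Ω 𝔭).φ)) =
      2 / Nat.card Q := by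
  classical
  set H : Subgroup Q := Subgroup.zpowers x with hH
  set F : IntermediateField k Ω := qField q H with hF
  haveI : FiniteDimensional k F := by
    have hle := qField_le q H M hM
    exact Module.Finite.of_injective (IntermediateField.inclusion hle).toLinearMap
      (IntermediateField.inclusion_injective hle)
  have hQ : (Nat.card Q : ℝ) ≠ 0 := by exact_mod_cast Nat.card_pos.ne'
  have hd : (orderOf x : ℝ) ≠ 0 := by exact_mod_cast (orderOf_pos x).ne'
  haveI : IsGalois F Ω := inferInstance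
  haveI : FiniteDimensional F (IntermediateField.adjoin F {ζ}) :=
    IntermediateField.adjoin.finiteDimensional (hζ.isIntegral (NeZero.pos m)).tower_top
  have hA := stepA (F := F) h𝒰 hζ (IntermediateField.adjoin F {ζ})
    (IntermediateField.mem_adjoin_simple_self F ζ) (κ x)
    (autToPow_range_qField q hq x M hM hζ κ hκ)
  rw [hgood] at hA
  have hbad := finite_mem_prime (F := k) m (NeZero.ne m)
  have hfix := degOne_eq_fix (Ω := Ω) (k := k) F (splits_intermediate F)
  have key : ∀ x' : Q, Subgroup.zpowers x' = H → orderOf (κ x') = orderOf x' →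
      orderOf x' = orderOf x → mu 𝒰 (nind (F := F) ((κ x' : (ZMod m)ˣ) : ZMod m)) =
      ((Nat.card Q : ℝ) / orderOf x) *
        mu 𝒰 (fun 𝔭 : HeightOneSpectrum (𝓞 k) => cdelta x' (q (frobeniusAt Ω 𝔭).φ)) := by
    intro x' hx' hg' hox
    have hb : Bdd (fun 𝔭 : HeightOneSpectrum (𝓞 k) => cdelta x' (q (frobeniusAt Ω 𝔭).φ)) :=
      ⟨1, fun 𝔭 => by
        rw [abs_of_nonneg (cdelta_nonneg _ _)]
        exact cdelta_le_one _ _⟩
    rw [mu_ext (k := k) (K := F) h𝒰 (nind_bdd ((κ x' : (ZMod m)ˣ) : ZMod m)) (nind_bdd _) ?_,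
      ← mu_const_mul h𝒰 _ hb]
    · refine mu_congr_finite h𝒰 ((nind_bdd _).mul (degOne_bdd k F)) ((Bdd.const _).mul hb)
        ((hbad.union hfix).subset fun 𝔭 h𝔭 => ?_)
      by_contra hcon
      rw [Set.mem_union, not_or] at hcon
      apply h𝔭
      have h1 := cdelta_key q H hζ κ hκ x' hx' hg' 𝔭 hcon.1
      have h2 : degOne k F 𝔭 = Nat.card {c : Q ⧸ H // q (frobeniusAt Ω 𝔭).φ • c = c} := by
        rw [← card_fix_qField q hq H M hM]
        by_contra h3
        exact hcon.2 h3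
      rw [hox] at h1
      rw [← h1, ← h2]
    · refine Set.Finite.subset Set.finite_empty fun P hP => ?_
      obtain ⟨h1, h2⟩ := hP
      apply h2
      unfold nind
      have h3 : Ideal.absNorm P.asIdeal = Ideal.absNorm (below k P).asIdeal := by
        unfold nrm at h1
        exact_mod_cast h1
      rw [h3]
  have k1 := key x rfl hgood rfl
  have k2 := key x⁻¹ (by rw [Subgroup.zpowers_inv]) (by rw [map_inv, orderOf_inv, orderOf_inv, hgood])
    (orderOf_inv x)
  rw [map_inv] at k2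
  rw [k1, k2, ← mul_add] at hA
  have h5 : (Nat.card Q : ℝ) / orderOf x ≠ 0 := div_ne_zero hQ hd
  apply mul_left_cancel₀ h5
  rw [hA]
  field_simp

end StepC

end Pool.Agent.H3.Cheb
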