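import Mathlib
import Pool.Agent.H3.Cheb.StepC

open NumberField IsDedekindDomain Filter Topology

namespace Pool.Agent.H3.Cheb

open TatePole

section NumberTheory

lemma exists_prime_dvd_div {n N L j : ℕ} (hL : L ≠ 0) (hj : 1 ≤ j) (hNL : N ∣ L)
    (hnL : n ^ j ∣ L) (hnN : ¬ n ∣ N) : ∃ p, p.Prime ∧ p ∣ n ∧ N ∣ L / p ^ j ∧ p ^ j ∣ L := by
  rw [Nat.dvd_iff_prime_pow_dvd_dvd] at hnN
  push Not at hnN
  obtain ⟨p, a, hp, hpn, hpN⟩ := hnN
  haveI := Fact.mk hp
  have ha : a ≠ 0 := by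
    rintro rfl
    exact hpN (by rw [pow_zero]; exact one_dvd _)
  have hpn' : p ∣ n := (dvd_pow_self p ha).trans hpn
  have hN0 : N ≠ 0 := by
    rintro rfl
    exact hL (Nat.eq_zero_of_zero_dvd hNL)
  obtain ⟨R, rfl⟩ := hNL
  have hR0 : R ≠ 0 := right_ne_zero_of_mul hL
  have h1 : p ^ (a * j) ∣ N * R := by
    rw [pow_mul]
    exact (pow_dvd_pow_of_dvd hpn j).trans hnL
  rw [padicValNat_dvd_iff_le hL, padicValNat.mul hN0 hR0] at h1
  rw [padicValNat_dvd_iff_le hN0] at hpN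
  have h2 : j ≤ padicValNat p R := by
    obtain ⟨a', rfl⟩ := Nat.exists_eq_succ_of_ne_zero ha
    obtain ⟨j', rfl⟩ := Nat.exists_eq_add_of_le hj
    have h3 : (a' + 1) * (1 + j') = a' * j' + a' + j' + 1 := by ring
    have h4 : Nat.succ a' = a' + 1 := rfl
    rw [h4, h3] at h1
    have h5 : 0 ≤ a' * j' := Nat.zero_le _
    omega
  have h3 : p ^ j ∣ R := (padicValNat_dvd_iff_le hR0).mpr h2
  refine ⟨p, hp, hpn', ?_, h3.mul_left N⟩
  obtain ⟨R', rfl⟩ := h3
  have h4 : N * (p ^ j * R') / p ^ j = N * R' := by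
    rw [show N * (p ^ j * R') = N * R' * p ^ j by ring]
    exact Nat.mul_div_cancel _ (pow_pos hp.pos j)
  rw [h4]
  exact Dvd.intro _ rfl

/-- few units modulo a suitable prime have order not divisible by `n` -/
lemma card_not_dvd_order {ℓ : ℕ} [Fact ℓ.Prime] {n j : ℕ} (hn : n ≠ 0) (hj : 1 ≤ j)
    (hℓ : ℓ ≡ 1 [MOD n ^ j]) :
    (Nat.card {a : (ZMod ℓ)ˣ // ¬ n ∣ orderOf a} : ℝ) ≤ n * ((ℓ - 1 : ℕ) : ℝ) / 2 ^ j := by
  classical
  have hℓp : ℓ.Prime := Fact.out
  have hL : ℓ - 1 ≠ 0 := by have := hℓp.two_le; omega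
  have hnL : n ^ j ∣ ℓ - 1 := (Nat.modEq_iff_dvd' hℓp.one_lt.le).mp hℓ.symm
  have hcard : Fintype.card (ZMod ℓ)ˣ = ℓ - 1 := by
    rw [ZMod.card_units_eq_totient, Nat.totient_prime hℓp]
  have hsub : (Finset.univ.filter fun a : (ZMod ℓ)ˣ => ¬ n ∣ orderOf a) ⊆
      (n.primeFactors.filter fun p => p ^ j ∣ ℓ - 1).biUnion fun p => Finset.univ.filter fun a : (ZMod ℓ)ˣ =>
        a ^ ((ℓ - 1) / p ^ j) = 1 := by
    intro a ha
    rw [Finset.mem_filter] at ha
    obtain ⟨p, hp, hpn, hdvd, hpL⟩ := exists_prime_dvd_div hL hj (hcard ▸ orderOf_dvd_card) hnL ha.2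
    rw [Finset.mem_biUnion]
    refine ⟨p, ?_, ?_⟩
    · rw [Finset.mem_filter]
      exact ⟨Nat.mem_primeFactors.mpr ⟨hp, hpn, hn⟩, hpL⟩
    · rw [Finset.mem_filter]
      exact ⟨Finset.mem_univ _, orderOf_dvd_iff_pow_eq_one.mp hdvd⟩
  have h1 : (Nat.card {a : (ZMod ℓ)ˣ // ¬ n ∣ orderOf a} : ℝ) ≤
      ∑ p ∈ n.primeFactors.filter (fun p => p ^ j ∣ ℓ - 1), ((ℓ - 1 : ℕ) : ℝ) / 2 ^ j := by
    rw [Nat.card_eq_fintype_card, Fintype.card_subtype]
    refine (Nat.cast_le.mpr ((Finset.card_le_card hsub).trans Finset.card_biUnion_le)).trans ?_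
    push_cast
    refine Finset.sum_le_sum fun p hp => ?_
    rw [Finset.mem_filter] at hp
    have hp2 : 2 ≤ p := (Nat.prime_of_mem_primeFactors hp.1).two_le
    have hpj : 0 < p ^ j := pow_pos (by omega) j
    have hpos : 0 < (ℓ - 1) / p ^ j := Nat.div_pos (Nat.le_of_dvd (by omega) hp.2) hpj
    have h2 := IsCyclic.card_pow_eq_one_le (α := (ZMod ℓ)ˣ) hpos
    have h3 : ((Finset.univ.filter fun a : (ZMod ℓ)ˣ => a ^ ((ℓ - 1) / p ^ j) = 1).card : ℝ) ≤
        (((ℓ - 1) / p ^ j : ℕ) : ℝ) := by exact_mod_cast h2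
    refine h3.trans ?_
    rw [Nat.cast_div hp.2 (by exact_mod_cast hpj.ne')]
    push_cast
    have h4 : (2 : ℝ) ^ j ≤ (p : ℝ) ^ j := pow_le_pow_left₀ (by norm_num) (by exact_mod_cast hp2) j
    have h5 : (0 : ℝ) < 2 ^ j := by positivity
    exact div_le_div_of_nonneg_left (by
      have := hℓp.one_lt
      rw [Nat.cast_sub hℓp.one_lt.le, Nat.cast_one]
      have : (1 : ℝ) < ℓ := by exact_mod_cast this
      linarith) h5 h4
  refine h1.trans ?_
  rw [Finset.sum_const, nsmul_eq_mul, mul_div_assoc]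
  refine mul_le_mul_of_nonneg_right ?_ (by positivity)
  have h2 : (n.primeFactors.filter fun p => p ^ j ∣ ℓ - 1).card ≤ n := by
    refine (Finset.card_filter_le _ _).trans ?_
    have h3 : n.primeFactors ⊆ Finset.Icc 1 n := by
      intro p hp
      rw [Finset.mem_Icc]
      exact ⟨(Nat.prime_of_mem_primeFactors hp).one_lt.le, Nat.le_of_mem_primeFactors hp⟩
    refine (Finset.card_le_card h3).trans ?_
    rw [Nat.card_Icc]
    omega
  exact_mod_cast h2

end NumberTheory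

section Cyclo

variable {k : Type*} [Field k] [NumberField k] {Ω : Type*} [Field Ω] [Algebra k Ω] [IsGalois k Ω]

/-- the image of the cyclotomic character is large -/
lemma totient_le_range {m : ℕ} [NeZero m] {ζ : Ω} (hζ : IsPrimitiveRoot ζ m) :
    m.totient ≤ Module.finrank ℚ k * Nat.card (hζ.autToPow k).range := by
  classical
  set K' : IntermediateField k Ω := IntermediateField.adjoin k {ζ} with hK'
  haveI : FiniteDimensional k K' :=
    IntermediateField.adjoin.finiteDimensional (hζ.isIntegral (NeZero.pos m)).tower_top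
  have hsurj := resHom_surjective K'
  let g : (K' →ₐ[k] Ω) → Gal(Ω/k) := fun τ => (hsurj τ).choose
  have hg : ∀ τ, resHom K' (g τ) = τ := fun τ => (hsurj τ).choose_spec
  let θ : (K' →ₐ[k] Ω) → (hζ.autToPow k).range := fun τ => ⟨hζ.autToPow k (g τ), g τ, rfl⟩
  have hθ : Function.Injective θ := by
    intro τ τ' h
    have h1 : hζ.autToPow k (g τ) = hζ.autToPow k (g τ') := congrArg Subtype.val h
    rw [← hg τ, ← hg τ', resHom_eq_iff, IntermediateField.mem_fixingSubgroup_iff]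
    have h2 : g τ ζ = g τ' ζ := by
      rw [← hζ.autToPow_spec k (g τ), ← hζ.autToPow_spec k (g τ'), h1]
    have h3 : ((g τ)⁻¹ * g τ') • ζ = ζ := by
      change (g τ)⁻¹ (g τ' ζ) = ζ
      rw [← h2]
      exact (g τ).symm_apply_apply ζ
    exact (IntermediateField.forall_mem_adjoin_smul_eq_self_iff k (S := {ζ}) ((g τ)⁻¹ * g τ')).mpr
      (fun x hx => by rw [Set.mem_singleton_iff.mp hx]; exact h3)
  haveI : Finite (hζ.autToPow k).range := inferInstance
  have h1 : Module.finrank k K' ≤ Nat.card (hζ.autToPow k).range := by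
    rw [← AlgHom.card_of_splits k K' Ω (splits_intermediate K'), ← Nat.card_eq_fintype_card]
    exact Nat.card_le_card_of_injective θ hθ
  have h2 : m.totient ≤ Module.finrank ℚ K' := by
    let z : K' := ⟨ζ, IntermediateField.mem_adjoin_simple_self k ζ⟩
    have hz : IsPrimitiveRoot z m := by
      have : Function.Injective (algebraMap K' Ω) := (algebraMap K' Ω).injective
      exact IsPrimitiveRoot.of_map_of_injective (f := algebraMap K' Ω) hζ this
    have h3 := minpoly.natDegree_le (A := ℚ) z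
    rw [← Polynomial.cyclotomic_eq_minpoly_rat hz (NeZero.pos m), Polynomial.natDegree_cyclotomic] at h3
    exact h3
  have h3 : Module.finrank ℚ k * Module.finrank k K' = Module.finrank ℚ K' :=
    Module.finrank_mul_finrank ℚ k K'
  calc m.totient ≤ Module.finrank ℚ k * Module.finrank k K' := by rw [h3]; exact h2
    _ ≤ _ := Nat.mul_le_mul_left _ h1

end Cyclo

section Avg

/-- averages are preserved by surjective homomorphisms -/
lemma sum_comp_surjective {Q G : Type*} [Group Q] [Fintype Q] [Group G] [Fintype G] (p : Q →* G)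
    (hp : Function.Surjective p) (f : G → ℝ) :
    (∑ x, f (p x)) / Fintype.card Q = (∑ g, f g) / Fintype.card G := by
  classical
  have hfib : ∀ g : G, (Finset.univ.filter fun x => p x = g).card =
      (Finset.univ.filter fun x => p x = 1).card := fun g =>
    MonoidHom.card_fiber_eq_of_mem_range p (hp g) (hp 1)
  set c : ℕ := (Finset.univ.filter fun x => p x = 1).card with hc
  have h1 : ∑ x, f (p x) = (c : ℝ) * ∑ g, f g := by
    rw [← Finset.sum_fiberwise (s := Finset.univ) (g := p) (f := fun x => f (p x)), Finset.mul_sum]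
    refine Finset.sum_congr rfl fun g _ => ?_
    have h2 : ∀ x ∈ Finset.univ.filter (fun x => p x = g), f (p x) = f g := by
      intro x hx
      rw [(Finset.mem_filter.mp hx).2]
    rw [Finset.sum_congr rfl h2, Finset.sum_const, hfib, nsmul_eq_mul]
  have h3 : Fintype.card Q = c * Fintype.card G := by
    have h4 : ∑ x : Q, (1 : ℕ) = ∑ g : G, ∑ x ∈ Finset.univ.filter (fun x => p x = g), 1 :=
      (Finset.sum_fiberwise (s := Finset.univ) (g := p) (f := fun _ => 1)).symm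
    simp only [Finset.sum_const, Finset.card_univ, smul_eq_mul, mul_one] at h4
    rw [h4, Finset.sum_congr rfl fun g _ => hfib g, Finset.sum_const, Finset.card_univ,
      smul_eq_mul, mul_comm]
  have hG : (Fintype.card G : ℝ) ≠ 0 := by exact_mod_cast Fintype.card_ne_zero
  have hQ : (Fintype.card Q : ℝ) ≠ 0 := by exact_mod_cast Fintype.card_ne_zero
  have hc0 : (c : ℝ) ≠ 0 := by
    intro h0
    apply hQ
    rw [h3]
    push_cast
    rw [h0, zero_mul]
  rw [h1, h3]
  push_cast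
  rw [mul_div_mul_left _ _ hc0]

/-- expansion of a class function -/
lemma class_expansion {Q : Type*} [Group Q] [Fintype Q] (F : Q → ℝ)
    (hF : ∀ y g : Q, F (y⁻¹ * g * y) = F g) (g : Q) : F g = ∑ x, F x * cdelta x g := by
  classical
  have hQ : (Nat.card Q : ℝ) ≠ 0 := by exact_mod_cast Nat.card_pos.ne'
  have h1 : ∀ x, F x * cdelta x g = (∑ y ∈ Finset.univ.filter (fun y : Q => y⁻¹ * g * y = x), F x) /
      Nat.card Q := by
    intro x
    unfold cdelta
    rw [Finset.sum_const, nsmul_eq_mul, Nat.card_eq_fintype_card, Fintype.card_subtype]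
    ring
  rw [Finset.sum_congr rfl fun x _ => h1 x, ← Finset.sum_div]
  have h2 : ∑ x, ∑ y ∈ Finset.univ.filter (fun y : Q => y⁻¹ * g * y = x), F x =
      ∑ x, ∑ y ∈ Finset.univ.filter (fun y : Q => y⁻¹ * g * y = x), F g := by
    refine Finset.sum_congr rfl fun x _ => Finset.sum_congr rfl fun y hy => ?_
    rw [← (Finset.mem_filter.mp hy).2, hF]
  rw [h2, Finset.sum_fiberwise (s := Finset.univ) (g := fun y : Q => y⁻¹ * g * y)
    (f := fun _ => F g), Finset.sum_const, Finset.card_univ, nsmul_eq_mul,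
    Nat.card_eq_fintype_card]
  rw [Nat.card_eq_fintype_card] at hQ
  field_simp

end Avg

section Lower

variable {k : Type*} [Field k] [NumberField k] {Ω : Type*} [Field Ω] [Algebra k Ω] [IsGalois k Ω]

lemma bdd_comp {Q : Type*} [Finite Q] (F : Q → ℝ) (u : HeightOneSpectrum (𝓞 k) → Q) :
    Bdd (fun 𝔭 => F (u 𝔭)) := by
  classical
  cases nonempty_fintype Q
  refine ⟨∑ x, |F x|, fun 𝔭 => ?_⟩
  exact Finset.single_le_sum (f := fun x => |F x|) (fun x _ => abs_nonneg _) (Finset.mem_univ (u 𝔭))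

/-- lower bound for the mean of a nonnegative symmetric class function on a finite quotient -/
lemma lower_bound {𝒰 : Ultrafilter ℝ} (h𝒰 : (𝒰 : Filter ℝ) ≤ 𝓝[>] 1) {Q : Type*} [Group Q]
    [Fintype Q] (q : Gal(Ω/k) →* Q) (hq : Function.Surjective q)
    (M : IntermediateField k Ω) [FiniteDimensional k M] (hM : ∀ σ ∈ M.fixingSubgroup, q σ = 1)
    {m : ℕ} [NeZero m] {ζ : Ω} (hζ : IsPrimitiveRoot ζ m) (κ : Q →* (ZMod m)ˣ)
    (hκ : ∀ σ, κ (q σ) = hζ.autToPow k σ) (F : Q → ℝ) (hF : ∀ y g : Q, F (y⁻¹ * g * y) = F g)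
    (hFinv : ∀ x, F x⁻¹ = F x) (hF0 : ∀ x, 0 ≤ F x) (B : ℝ) (hFB : ∀ x, F x ≤ B) :
    (∑ x, F x) / Fintype.card Q - B * Nat.card {x : Q // orderOf (κ x) ≠ orderOf x} /
      Fintype.card Q ≤
      mu 𝒰 (fun 𝔭 : HeightOneSpectrum (𝓞 k) => F (q (frobeniusAt Ω 𝔭).φ)) := by
  classical
  set w : Q → ℝ := fun x =>
    mu 𝒰 (fun 𝔭 : HeightOneSpectrum (𝓞 k) => cdelta x (q (frobeniusAt Ω 𝔭).φ)) with hw
  have hQ : (0 : ℝ) < Fintype.card Q := by exact_mod_cast Fintype.card_pos
  have hbd : ∀ x : Q, Bdd (fun 𝔭 : HeightOneSpectrum (𝓞 k) => cdelta x (q (frobeniusAt Ω 𝔭).φ)) :=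
    fun x => bdd_comp (cdelta x) _
  have hw0 : ∀ x, 0 ≤ w x := fun x => mu_nonneg h𝒰 (hbd x) fun 𝔭 => cdelta_nonneg _ _
  have h1 : mu 𝒰 (fun 𝔭 : HeightOneSpectrum (𝓞 k) => F (q (frobeniusAt Ω 𝔭).φ)) =
      ∑ x, F x * w x := by
    have e1 : (fun 𝔭 : HeightOneSpectrum (𝓞 k) => F (q (frobeniusAt Ω 𝔭).φ)) =
        fun 𝔭 => ∑ x, F x * cdelta x (q (frobeniusAt Ω 𝔭).φ) := by
      funext 𝔭
      exact class_expansion F hF _
    rw [e1, mu_sum h𝒰 _ fun x _ => (Bdd.const _).mul (hbd x)]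
    exact Finset.sum_congr rfl fun x _ => mu_const_mul h𝒰 _ (hbd x)
  have h2 : ∑ x, F x * w x⁻¹ = ∑ x, F x * w x := by
    rw [← Equiv.sum_comp (Equiv.inv Q)]
    refine Finset.sum_congr rfl fun x _ => ?_
    change F x⁻¹ * w (x⁻¹)⁻¹ = _
    rw [hFinv, inv_inv]
  have h3 : ∀ x, F x * (2 / Fintype.card Q) -
      (if orderOf (κ x) ≠ orderOf x then B * (2 / Fintype.card Q) else 0) ≤
      F x * w x + F x * w x⁻¹ := by
    intro x
    by_cases hx : orderOf (κ x) = orderOf x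
    · rw [if_neg (not_not.mpr hx)]
      have h4 := stepC h𝒰 q hq M hM hζ κ hκ x hx
      have h5 : w x + w x⁻¹ = 2 / Fintype.card Q := by
        rw [← Nat.card_eq_fintype_card]
        exact h4
      rw [← mul_add, h5, sub_zero]
    · rw [if_pos hx]
      have h6 : 0 ≤ F x * w x + F x * w x⁻¹ :=
        add_nonneg (mul_nonneg (hF0 x) (hw0 x)) (mul_nonneg (hF0 x) (hw0 x⁻¹))
      have h7 : F x * (2 / Fintype.card Q) ≤ B * (2 / Fintype.card Q) :=
        mul_le_mul_of_nonneg_right (hFB x) (by positivity)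
      linarith
  have h4 := Finset.sum_le_sum fun x (_ : x ∈ (Finset.univ : Finset Q)) => h3 x
  rw [Finset.sum_sub_distrib, Finset.sum_add_distrib, h2, ← Finset.sum_mul] at h4
  have h5 : (∑ x : Q, if orderOf (κ x) ≠ orderOf x then B * (2 / (Fintype.card Q : ℝ)) else 0) =
      (Nat.card {x : Q // orderOf (κ x) ≠ orderOf x} : ℝ) * (B * (2 / Fintype.card Q)) := by
    rw [← Finset.sum_filter, Finset.sum_const, nsmul_eq_mul, Nat.card_eq_fintype_card,
      Fintype.card_subtype]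
  rw [h5] at h4
  rw [h1]
  have h6 : (∑ x, F x) / Fintype.card Q - B * Nat.card {x : Q // orderOf (κ x) ≠ orderOf x} /
      Fintype.card Q = ((∑ x, F x) * (2 / Fintype.card Q) -
      (Nat.card {x : Q // orderOf (κ x) ≠ orderOf x} : ℝ) * (B * (2 / Fintype.card Q))) / 2 := by
    ring
  rw [h6]
  linarith

end Lower

end Pool.Agent.H3.Cheb
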