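import Mathlib
import Pool.Agent.H3.Cheb.Lower

open NumberField IsDedekindDomain Filter Topology

namespace Pool.Agent.H3.Cheb

open TatePole

section Main

variable {k : Type*} [Field k] [NumberField k] {Ω : Type*} [Field Ω] [Algebra k Ω] [IsGalois k Ω]
variable [IsAlgClosed Ω]

lemma exists_root (ℓ : ℕ) [Fact ℓ.Prime] (k : Type*) [Field k] [NumberField k] (Ω : Type*) [Field Ω]
    [Algebra k Ω] [IsAlgClosed Ω] : ∃ ζ : Ω, IsPrimitiveRoot ζ ℓ := by
  haveI : CharZero Ω := charZero_of_injective_algebraMap (algebraMap k Ω).injective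
  haveI : NeZero ((ℓ : ℕ) : Ω) := ⟨by
    have := (Fact.out : ℓ.Prime).ne_zero
    exact_mod_cast this⟩
  exact HasEnoughRootsOfUnity.exists_primitiveRoot Ω ℓ

lemma avg_le_mu_aux {𝒰 : Ultrafilter ℝ} (h𝒰 : (𝒰 : Filter ℝ) ≤ 𝓝[>] 1) (M : IntermediateField k Ω)
    [FiniteDimensional k M] [Normal k M] (f : Gal(M/k) → ℝ)
    (hf : ∀ y g : Gal(M/k), f (y⁻¹ * g * y) = f g) (hinv : ∀ x, f x⁻¹ = f x) (hf0 : ∀ x, 0 ≤ f x)
    (B : ℝ) (hB : 0 ≤ B) (hfB : ∀ x, f x ≤ B) (j : ℕ) (hj : 1 ≤ j) :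
    (∑ x, f x) / Fintype.card Gal(M/k) -
      B * ((Fintype.card Gal(M/k) : ℝ) ^ 2 * Module.finrank ℚ k) / 2 ^ j ≤
      mu 𝒰 (fun 𝔭 : HeightOneSpectrum (𝓞 k) =>
        f (AlgEquiv.restrictNormalHom M (frobeniusAt Ω 𝔭).φ)) := by
  classical
  set n := Fintype.card Gal(M/k) with hn
  have hn0 : n ≠ 0 := Fintype.card_ne_zero
  obtain ⟨ℓ, hℓ, -, hmod⟩ := Nat.exists_prime_gt_modEq_one 1 (pow_ne_zero j hn0)
  haveI := Fact.mk hℓ
  haveI : NeZero ℓ := ⟨hℓ.ne_zero⟩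
  obtain ⟨ζ, hζ⟩ := exists_root ℓ k Ω
  set π : Gal(Ω/k) →* Gal(M/k) := AlgEquiv.restrictNormalHom M with hπ
  set ψ : Gal(Ω/k) →* Gal(M/k) × (ZMod ℓ)ˣ := π.prod (hζ.autToPow k) with hψ
  let p : ψ.range →* Gal(M/k) := (MonoidHom.fst _ _).comp ψ.range.subtype
  let κ : ψ.range →* (ZMod ℓ)ˣ := (MonoidHom.snd _ _).comp ψ.range.subtype
  letI : Fintype ψ.range := Fintype.ofFinite _
  have hπs : Function.Surjective π := AlgEquiv.restrictNormalHom_surjective Ω
  have hp : Function.Surjective p := by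
    intro g
    obtain ⟨σ, hσ⟩ := hπs g
    exact ⟨⟨ψ σ, σ, rfl⟩, hσ⟩
  haveI : FiniteDimensional k (IntermediateField.adjoin k {ζ}) :=
    IntermediateField.adjoin.finiteDimensional (hζ.isIntegral (NeZero.pos ℓ)).tower_top
  have hM : ∀ σ ∈ (M ⊔ IntermediateField.adjoin k {ζ} : IntermediateField k Ω).fixingSubgroup,
      ψ.rangeRestrict σ = 1 := by
    intro σ hσ
    rw [IntermediateField.mem_fixingSubgroup_iff] at hσ
    have h1 : hζ.autToPow k σ = 1 := by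
      apply autToPow_eq_one
      exact hσ ζ ((le_sup_right : IntermediateField.adjoin k {ζ} ≤ _)
        (IntermediateField.mem_adjoin_simple_self k ζ))
    have h2 : π σ = 1 := by
      have h3 : σ ∈ (AlgEquiv.restrictNormalHom (F := k) (K₁ := Ω) M).ker := by
        rw [IntermediateField.restrictNormalHom_ker, IntermediateField.mem_fixingSubgroup_iff]
        exact fun x hx => hσ x ((le_sup_left : M ≤ _) hx)
      exact h3
    apply Subtype.ext
    change ψ σ = 1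
    rw [hψ, MonoidHom.prod_apply, h1, h2]
    rfl
  have h1 := lower_bound h𝒰 ψ.rangeRestrict ψ.rangeRestrict_surjective _ hM hζ κ (fun σ => rfl)
    (fun x => f (p x)) (fun y g => by
      change f (p (y⁻¹ * g * y)) = f (p g)
      rw [map_mul, map_mul, map_inv, hf]) (fun x => by
      change f (p x⁻¹) = f (p x)
      rw [map_inv, hinv]) (fun x => hf0 _) B (fun x => hfB _)
  rw [sum_comp_surjective p hp f] at h1
  refine le_trans ?_ h1
  have hQ : (0 : ℝ) < Fintype.card ψ.range := by exact_mod_cast Fintype.card_pos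
  -- bad elements
  have hbad : Nat.card {x : ψ.range // orderOf (κ x) ≠ orderOf x} ≤
      n * Nat.card {a : (ZMod ℓ)ˣ // ¬ n ∣ orderOf a} := by
    have e : ∀ x : ψ.range, orderOf (κ x) ≠ orderOf x → ¬ n ∣ orderOf (κ x) := by
      intro x hx hdvd
      apply hx
      have h2 : orderOf x = (orderOf (p x)).lcm (orderOf (κ x)) := by
        rw [← Subgroup.orderOf_coe, Prod.orderOf]
        rfl
      rw [h2]
      exact (Nat.lcm_eq_right ((orderOf_dvd_card).trans hdvd)).symm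
    rw [hn, ← Nat.card_eq_fintype_card, ← Nat.card_prod]
    refine Nat.card_le_card_of_injective (fun x => (p x.1, ⟨κ x.1, by
      have := e x.1 x.2
      rw [hn, ← Nat.card_eq_fintype_card] at this
      exact this⟩)) ?_
    intro x y hxy
    rw [Prod.mk.injEq] at hxy
    obtain ⟨h3, h4⟩ := hxy
    have h5 : κ x.1 = κ y.1 := congrArg Subtype.val h4
    exact Subtype.ext (Subtype.ext (Prod.ext h3 h5))
  have hcount := card_not_dvd_order (ℓ := ℓ) hn0 hj hmod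
  have hrange : (ℓ - 1 : ℕ) ≤ Module.finrank ℚ k * Fintype.card ψ.range := by
    have h2 := totient_le_range (k := k) hζ
    rw [Nat.totient_prime hℓ] at h2
    refine h2.trans (Nat.mul_le_mul_left _ ?_)
    rw [← Nat.card_eq_fintype_card]
    refine Nat.card_le_card_of_surjective (fun x => (⟨κ x, by
      obtain ⟨_, σ, rfl⟩ := x
      exact ⟨σ, rfl⟩⟩ : (hζ.autToPow k).range)) ?_
    rintro ⟨_, σ, rfl⟩
    exact ⟨⟨ψ σ, σ, rfl⟩, rfl⟩
  have h2 : (Nat.card {x : ψ.range // orderOf (κ x) ≠ orderOf x} : ℝ) ≤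
      (n : ℝ) ^ 2 * Module.finrank ℚ k / 2 ^ j * Fintype.card ψ.range := by
    have e1 : (Nat.card {x : ψ.range // orderOf (κ x) ≠ orderOf x} : ℝ) ≤
        (n : ℝ) * Nat.card {a : (ZMod ℓ)ˣ // ¬ n ∣ orderOf a} := by exact_mod_cast hbad
    have e2 : ((ℓ - 1 : ℕ) : ℝ) ≤ (Module.finrank ℚ k : ℝ) * Fintype.card ψ.range := by
      exact_mod_cast hrange
    have hnpos : (0 : ℝ) ≤ n := Nat.cast_nonneg _
    calc (Nat.card {x : ψ.range // orderOf (κ x) ≠ orderOf x} : ℝ) ≤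
          (n : ℝ) * Nat.card {a : (ZMod ℓ)ˣ // ¬ n ∣ orderOf a} := e1
      _ ≤ (n : ℝ) * (n * ((ℓ - 1 : ℕ) : ℝ) / 2 ^ j) := mul_le_mul_of_nonneg_left hcount hnpos
      _ ≤ (n : ℝ) * (n * ((Module.finrank ℚ k : ℝ) * Fintype.card ψ.range) / 2 ^ j) := by
          refine mul_le_mul_of_nonneg_left ?_ hnpos
          refine div_le_div_of_nonneg_right ?_ (by positivity)
          exact mul_le_mul_of_nonneg_left e2 hnpos
      _ = _ := by ring
  have h3 : B * Nat.card {x : ψ.range // orderOf (κ x) ≠ orderOf x} / Fintype.card ψ.range ≤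
      B * ((n : ℝ) ^ 2 * Module.finrank ℚ k) / 2 ^ j := by
    rw [div_le_iff₀ hQ]
    calc B * (Nat.card {x : ψ.range // orderOf (κ x) ≠ orderOf x} : ℝ) ≤
          B * ((n : ℝ) ^ 2 * Module.finrank ℚ k / 2 ^ j * Fintype.card ψ.range) :=
          mul_le_mul_of_nonneg_left h2 hB
      _ = _ := by ring
  linarith

lemma avg_le_mu {𝒰 : Ultrafilter ℝ} (h𝒰 : (𝒰 : Filter ℝ) ≤ 𝓝[>] 1) (M : IntermediateField k Ω)
    [FiniteDimensional k M] [Normal k M] (f : Gal(M/k) → ℝ)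
    (hf : ∀ y g : Gal(M/k), f (y⁻¹ * g * y) = f g) (hinv : ∀ x, f x⁻¹ = f x) (hf0 : ∀ x, 0 ≤ f x) :
    (∑ x, f x) / Fintype.card Gal(M/k) ≤
      mu 𝒰 (fun 𝔭 : HeightOneSpectrum (𝓞 k) =>
        f (AlgEquiv.restrictNormalHom M (frobeniusAt Ω 𝔭).φ)) := by
  classical
  set B : ℝ := ∑ x, f x with hB
  have hB0 : 0 ≤ B := Finset.sum_nonneg fun x _ => hf0 x
  have hfB : ∀ x, f x ≤ B := fun x =>
    Finset.single_le_sum (f := f) (fun x _ => hf0 x) (Finset.mem_univ x)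
  have h1 : Tendsto (fun j : ℕ => B / Fintype.card Gal(M/k) -
      B * ((Fintype.card Gal(M/k) : ℝ) ^ 2 * Module.finrank ℚ k) / 2 ^ j) atTop
      (𝓝 (B / Fintype.card Gal(M/k) - 0)) := by
    refine tendsto_const_nhds.sub ?_
    exact Tendsto.const_div_atTop (tendsto_pow_atTop_atTop_of_one_lt (by norm_num)) _
  rw [sub_zero] at h1
  refine le_of_tendsto h1 ?_
  filter_upwards [eventually_ge_atTop 1] with j hj
  exact avg_le_mu_aux h𝒰 M f hf hinv hf0 B hB0 hfB j hj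

/-- **Chebotarev's theorem** (Dirichlet density) for class functions invariant under inversion. -/
theorem chebotarev_sym (M : IntermediateField k Ω) [FiniteDimensional k M] [Normal k M]
    (f : Gal(M/k) → ℝ) (hf : ∀ y g : Gal(M/k), f (y⁻¹ * g * y) = f g)
    (hinv : ∀ x, f x⁻¹ = f x) :
    HasMean (𝓝[>] 1) (fun 𝔭 : HeightOneSpectrum (𝓞 k) =>
      f (AlgEquiv.restrictNormalHom M (frobeniusAt Ω 𝔭).φ))
      ((∑ x, f x) / Fintype.card Gal(M/k)) := by
  classical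
  have hG : (Fintype.card Gal(M/k) : ℝ) ≠ 0 := by exact_mod_cast Fintype.card_ne_zero
  set u : HeightOneSpectrum (𝓞 k) → ℝ := fun 𝔭 =>
    f (AlgEquiv.restrictNormalHom M (frobeniusAt Ω 𝔭).φ) with hu
  have hbu : Bdd u := bdd_comp f _
  refine hasMean_of_mu hbu fun 𝒰 h𝒰 => ?_
  set B : ℝ := ∑ x, |f x| with hB
  have hfB : ∀ x, |f x| ≤ B := fun x =>
    Finset.single_le_sum (f := fun x => |f x|) (fun x _ => abs_nonneg _) (Finset.mem_univ x)
  have h1 := avg_le_mu h𝒰 M (fun x => f x + B) (fun y g => by rw [hf]) (fun x => by rw [hinv]) (fun x => by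
    have := abs_le.mp (hfB x)
    change 0 ≤ f x + B
    linarith [this.1])
  have h2 := avg_le_mu h𝒰 M (fun x => (-1) * f x + B) (fun y g => by rw [hf])
    (fun x => by rw [hinv]) (fun x => by
    have := abs_le.mp (hfB x)
    change 0 ≤ (-1) * f x + B
    linarith [this.2])
  have e1 : mu 𝒰 (fun 𝔭 => u 𝔭 + B) = mu 𝒰 u + B := by
    rw [mu_add h𝒰 hbu (Bdd.const B), mu_const h𝒰]
  have e2 : mu 𝒰 (fun 𝔭 => (-1) * u 𝔭 + B) = (-1) * mu 𝒰 u + B := by
    rw [mu_add h𝒰 ((Bdd.const (-1)).mul hbu) (Bdd.const B), mu_const h𝒰, mu_const_mul h𝒰 _ hbu]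
  rw [Finset.sum_add_distrib, Finset.sum_const, Finset.card_univ, nsmul_eq_mul, add_div,
    mul_div_cancel_left₀ _ hG] at h1 h2
  rw [← Finset.mul_sum] at h2
  have h1' : (∑ x, f x) / Fintype.card Gal(M/k) + B ≤ mu 𝒰 (fun 𝔭 => u 𝔭 + B) := h1
  have h2' : (-1) * (∑ x, f x) / Fintype.card Gal(M/k) + B ≤ mu 𝒰 (fun 𝔭 => (-1) * u 𝔭 + B) := h2
  rw [e1] at h1'
  rw [e2, mul_div_assoc] at h2'
  linarith

end Main

end Pool.Agent.H3.Cheb
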